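import Pool.Agent.Helper77.ST.Defs

/-!
# Project OB, layer ST, block ST-A1: reflections and integrality

For restricted roots `φ`, `ψ` the number `2 (φ, ψ) / (ψ, ψ)` is an integer `n` and `φ - n ψ` is a restricted root; `(φ, ψ) = φ (τ ψ)`, `κ(τ φ, a) = φ a`.
PROOF. `Helper96.TO.rt_refl` (file `Helper96/TO/Str.lean`) is the same statement for the matrices in `Rt G V` with `(A, B) = (A * B).trace`; `Helper77.LA.exists_cm` (file `Helper77/LA/Base.lean`, with
`G = autG b`, `isAdj_autG`) gives the linear injective map `cm` from the functionals to the matrices, `φ ∈ rootsL A ↔ cm φ ∈ Rt G V`. `rt_refl` is applied to `cm φ`, `cm ψ` (hypotheses: `selfAdj_of_aut h hG`,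
`lie_transpose`, `isFlat_map`, `max_map`, as in `Helper96/TO/Alg.lean`, `comm2_or_A2L`). It remains `(cm φ * cm ψ).trace = φ (τ ψ)`: `cm ψ = TT_to b (τ ψ : L)`, because both sides are in `A.map (TT_to b)` and
`(TT_to b x * TT_to b a).trace = killingForm ℝ L x a` (the Killing form is the trace of `ad x ∘ ad a`, `TT_to b` is the matrix of `ad`), so the difference `TT_to b z`, `z ∈ A`, satisfies
`(TT_to b z * TT_to b z).trace = 0`, i.e. `κ(z, z) = 0`, `z = 0` (`kA_self`). Then `(cm φ * TT_to b (τ ψ)).trace = φ (τ ψ)` by `exists_cm`.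
-/

set_option autoImplicit false

namespace Pool.Agent.Helper77.ST

open Pool.Agent.Helper96.SA Pool.Agent.Helper96.TO Pool.Agent.Helper69.SLN Pool.Agent.Helper77.LA Pool.Agent.Helper77.TZ2

variable {L : Type} [LieRing L] [LieAlgebra ℝ L] {N : ℕ} {θ : L ≃ₗ⁅ℝ⁆ L} {b : Module.Basis (Fin N) ℝ L} {A : Submodule ℝ L}

private theorem trace_TT34 (b : Module.Basis (Fin N) ℝ L) (x a : L) :
    (TT_to b x * TT_to b a).trace = killingForm ℝ L x a := by
  rw [TT_apply_to, TT_apply_to, ← LinearMap.toMatrix_mul, ← LinearMap.trace_eq_matrix_trace]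
  rfl

theorem refl (h : CartanBasis θ b) (hA : MaxFlat θ A) {τ : Module.Dual ℝ A ≃ₗ[ℝ] A}
    (hτ : ∀ (φ : Module.Dual ℝ A) (a : A), killingForm ℝ L (τ φ : L) (a : L) = φ a) {φ ψ : Module.Dual ℝ A}
    (hφ : φ ∈ rootsL A) (hψ : ψ ∈ rootsL A) : ∃ n : ℤ, 2 * φ (τ ψ) = n * ψ (τ ψ) ∧ φ - (n : ℝ) • ψ ∈ rootsL A := by
  have hG : IsAdj b (autG b) := isAdj_autG
  have hSA := selfAdj_of_aut h hG
  obtain ⟨cm, hinj, hcm, htr, hrt, -⟩ := exists_cm h hG hA
  have key : ∀ χ : Module.Dual ℝ A, cm χ = TT_to b (τ χ : L) := by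
    intro χ
    obtain ⟨z, hz, hze⟩ := hcm χ
    have h1 : (⟨z, hz⟩ : A) = τ χ := by
      apply kA_injective h hA
      refine LinearMap.ext fun x => ?_
      rw [kA_apply, kA_apply, hτ, ← trace_TT34 b]
      change (TT_to b z * TT_to b (x : L)).trace = χ x
      rw [hze]
      exact htr χ x
    rw [← hze, ← h1]
  have htt : ∀ χ ω : Module.Dual ℝ A, (cm χ * cm ω).trace = χ (τ ω) := by
    intro χ ω
    rw [key ω]
    exact htr χ (τ ω)
  obtain ⟨n, h1, h2⟩ := rt_refl hSA.closed (fun X hX => lie_transpose hSA hX) (isFlat_map h hG hA)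
    (max_map h hG hA) ((hrt φ).1 hφ) ((hrt ψ).1 hψ)
  rw [htt, htt] at h1
  refine ⟨n, h1, (hrt _).2 ?_⟩
  rw [map_sub, map_smul]
  exact h2

end Pool.Agent.Helper77.ST
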