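import Pool.Agent.Helper77.ST.Defs

/-!
# Project OB, layer ST, block ST-E1: orthonormal bases

`U` a subspace of `L`: there is an orthonormal basis of `U` for `ip θ ν`. PROOF. `b` is an orthonormal basis of `L` for `-κ(x, θ y)`: `-κ(x, θ y) = ∑ i, b.repr x i * b.repr y i` (as in the proof of `Helper69.SLN.pos`, `coord_to`). So
`ι x = WithLp.toLp 2 (b.repr x)` is a linear isomorphism of `L` onto `EuclideanSpace ℝ (Fin N)` with `inner (ι x) (ι y) = -κ(x, θ y)`. Let `e = stdOrthonormalBasis ℝ (U.map ι)` (`finrank (U.map ι) = finrank U`, `Fin.cast`), `w i = ν^(-1/2) ι⁻¹ (e i)`.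
-/

set_option autoImplicit false

namespace Pool.Agent.Helper77.ST

open Pool.Agent.Helper96.SA Pool.Agent.Helper96.TO Pool.Agent.Helper69.SLN Pool.Agent.Helper77.LA Pool.Agent.Helper77.TZ2

variable {L : Type} [LieRing L] [LieAlgebra ℝ L] {N : ℕ} {θ : L ≃ₗ⁅ℝ⁆ L} {b : Module.Basis (Fin N) ℝ L} {A : Submodule ℝ L}
  {τ : Module.Dual ℝ A ≃ₗ[ℝ] A} {al be : Module.Dual ℝ A} {r p : L} {ν : ℝ}

private theorem kf_eq (h : CartanBasis θ b) (x y : L) : -killingForm ℝ L x (θ y) = ∑ i, b.repr x i * b.repr y i := by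
  have h2 : θ y = ∑ i, b.repr y i • θ (b i) := by
    conv_lhs => rw [← b.sum_repr y]
    simp only [map_sum, map_smul]
  rw [h2, map_sum, ← Finset.sum_neg_distrib]
  refine Finset.sum_congr rfl fun i _ => ?_
  rw [map_smul, smul_eq_mul, coord_to h x i]
  ring

theorem exists_onb (h : CartanBasis θ b) {ν : ℝ} (hν : 0 < ν) (U : Submodule ℝ L) : ∃ w : Fin (Module.finrank ℝ U) → L, (∀ i, w i ∈ U) ∧
    (∀ i j, ip θ ν (w i) (w j) = if i = j then 1 else 0) ∧ ∀ u ∈ U, u ∈ Submodule.span ℝ (Set.range w) := by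
  classical
  let ι : L ≃ₗ[ℝ] EuclideanSpace ℝ (Fin N) := b.equivFun.trans (WithLp.linearEquiv 2 ℝ (Fin N → ℝ)).symm
  have hin : ∀ x y : L, inner ℝ (ι x) (ι y) = -killingForm ℝ L x (θ y) := by
    intro x y
    rw [kf_eq h, PiLp.inner_apply]
    refine Finset.sum_congr rfl fun i _ => ?_
    change inner ℝ (b.repr x i) (b.repr y i) = _
    simp [mul_comm]
  let V : Submodule ℝ (EuclideanSpace ℝ (Fin N)) := U.map (ι : L →ₗ[ℝ] EuclideanSpace ℝ (Fin N))
  have hfr : Module.finrank ℝ V = Module.finrank ℝ U := LinearEquiv.finrank_map_eq ι U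
  let e := (stdOrthonormalBasis ℝ V).reindex (finCongr hfr)
  let s : ℝ := (Real.sqrt ν)⁻¹
  have hs0 : Real.sqrt ν ≠ 0 := (Real.sqrt_pos.2 hν).ne'
  have hss : ν * (s * s) = 1 := by
    have h1 : Real.sqrt ν * Real.sqrt ν = ν := Real.mul_self_sqrt hν.le
    have h2 : s * Real.sqrt ν = 1 := inv_mul_cancel₀ hs0
    calc ν * (s * s) = (Real.sqrt ν * Real.sqrt ν) * (s * s) := by rw [h1]
      _ = (s * Real.sqrt ν) * (s * Real.sqrt ν) := by ring
      _ = 1 := by rw [h2, one_mul]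
  have hι : ∀ i, ι (ι.symm ((e i : V) : EuclideanSpace ℝ (Fin N))) = (e i : V) := fun i => ι.apply_symm_apply _
  have hU : ∀ i, ι.symm ((e i : V) : EuclideanSpace ℝ (Fin N)) ∈ U := by
    intro i
    obtain ⟨u, hu, hue⟩ := (e i).2
    have h3 : ι u = (e i : V) := hue
    rw [← h3, ι.symm_apply_apply]
    exact hu
  refine ⟨fun i => s • ι.symm ((e i : V) : EuclideanSpace ℝ (Fin N)), fun i => U.smul_mem _ (hU i), fun i j => ?_, fun u hu => ?_⟩
  · have h4 : -killingForm ℝ L (ι.symm ((e i : V) : EuclideanSpace ℝ (Fin N))) (θ (ι.symm ((e j : V) : EuclideanSpace ℝ (Fin N)))) =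
        if i = j then 1 else 0 := by
      rw [← hin, hι, hι, ← Submodule.coe_inner, orthonormal_iff_ite.1 e.orthonormal i j]
    rw [ip, map_smul θ, map_smul, map_smul, LinearMap.smul_apply, smul_eq_mul, smul_eq_mul]
    calc -(ν * (s * (s * killingForm ℝ L (ι.symm ((e i : V) : EuclideanSpace ℝ (Fin N)))
          (θ (ι.symm ((e j : V) : EuclideanSpace ℝ (Fin N)))))))
        = ν * (s * s) * (-killingForm ℝ L (ι.symm ((e i : V) : EuclideanSpace ℝ (Fin N)))
          (θ (ι.symm ((e j : V) : EuclideanSpace ℝ (Fin N))))) := by ring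
      _ = _ := by rw [hss, one_mul, h4]
  · have hV : ι u ∈ V := ⟨u, hu, rfl⟩
    have h5 := e.sum_repr ⟨ι u, hV⟩
    have h6 : ι u = ∑ i, e.repr ⟨ι u, hV⟩ i • ((e i : V) : EuclideanSpace ℝ (Fin N)) := by
      have h7 := congrArg (Subtype.val) h5
      have h7' : ((∑ i, e.repr ⟨ι u, hV⟩ i • e i : V) : EuclideanSpace ℝ (Fin N)) = ι u := h7
      rw [Submodule.coe_sum] at h7'
      exact h7'.symm
    have h8 : u = ∑ i, e.repr ⟨ι u, hV⟩ i • ι.symm ((e i : V) : EuclideanSpace ℝ (Fin N)) := by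
      apply ι.injective
      rw [map_sum]
      conv_lhs => rw [h6]
      refine Finset.sum_congr rfl fun i _ => ?_
      rw [map_smul, hι]
    rw [h8]
    refine Submodule.sum_mem _ fun i _ => ?_
    have h9 : ι.symm ((e i : V) : EuclideanSpace ℝ (Fin N)) = Real.sqrt ν • (s • ι.symm ((e i : V) : EuclideanSpace ℝ (Fin N))) := by
      rw [smul_smul, mul_inv_cancel₀ hs0, one_smul]
    rw [h9]
    exact Submodule.smul_mem _ _ (Submodule.smul_mem _ _ (Submodule.subset_span ⟨i, rfl⟩))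

end Pool.Agent.Helper77.ST
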