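import Pool.Agent.Helper69.SLN.Root
import Pool.Agent.Helper77.TZ2.Rel
import Pool.Agent.Helper77.LA.Base

/-!
# Project OB (MP_0f6f3f_an), layer ST: simple Lie algebras of rank two, definitions

`SimPair A al be`: `al`, `be` are the simple roots of a positive system of the restricted roots. `RL A al be S`: the restricted roots are `±(m al + n be)`, `(m, n) ∈ S`; the lists `lA2`, `lB2`
(`al` long, `be` short), `lBC2` (`al` medium, `be` short), `lG2` (`al` long, `be` short). `lev A γ`: the subalgebra generated by the root spaces of the multiples of `γ`. `One A φ`: the root space of `φ` has dimension at most one.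
`ip θ ν u v = -ν κ(u, θ v)`. `CB`: types `B_2`, `BC_2` with `al = e_1 - e_2` of multiplicity one, `be = e_2`, `ν = (be, be)`. `CN`: the same, type `B_2`, normalised.
-/

set_option autoImplicit false

namespace Pool.Agent.Helper77.ST

open Pool.Agent.Helper96.SA Pool.Agent.Helper96.TO Pool.Agent.Helper69.SLN Pool.Agent.Helper77.LA

variable {L : Type} [LieRing L] [LieAlgebra ℝ L]

/-- `al`, `be` are the simple roots of a positive system (rank two). -/
structure SimPair (A : Submodule ℝ L) (al be : Module.Dual ℝ A) : Prop where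
  ha : al ∈ rootsL A
  hb : be ∈ rootsL A
  ind : ∀ s t : ℝ, s • al + t • be = 0 → s = 0 ∧ t = 0
  pos : ∀ φ ∈ rootsL A, ∃ m n : ℕ, φ = (m : ℝ) • al + (n : ℝ) • be ∨ φ = -((m : ℝ) • al + (n : ℝ) • be)

/-- The restricted roots are `±(m al + n be)`, `(m, n) ∈ S`. -/
def RL (A : Submodule ℝ L) (al be : Module.Dual ℝ A) (S : List (ℕ × ℕ)) : Prop :=
  ∀ φ : Module.Dual ℝ A, φ ∈ rootsL A ↔ ∃ p ∈ S, φ = (p.1 : ℝ) • al + (p.2 : ℝ) • be ∨ φ = -((p.1 : ℝ) • al + (p.2 : ℝ) • be)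

/-- Type `A_2`. -/
def lA2 : List (ℕ × ℕ) := [(1, 0), (0, 1), (1, 1)]

/-- Type `B_2`, the first root is long. -/
def lB2 : List (ℕ × ℕ) := [(1, 0), (0, 1), (1, 1), (1, 2)]

/-- Type `BC_2`, the second root is short. -/
def lBC2 : List (ℕ × ℕ) := [(1, 0), (0, 1), (1, 1), (1, 2), (0, 2), (2, 2)]

/-- Type `G_2`, the first root is long. -/
def lG2 : List (ℕ × ℕ) := [(1, 0), (0, 1), (1, 1), (1, 2), (1, 3), (2, 3)]

/-- The subalgebra generated by the root spaces of the nonzero multiples of `γ` (the Levi factor without center). -/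
def lev (A : Submodule ℝ L) (γ : Module.Dual ℝ A) : LieSubalgebra ℝ L :=
  LieSubalgebra.lieSpan ℝ L {x | ∃ c : ℝ, c ≠ 0 ∧ Wv A (c • γ) x}

/-- The root space of `φ` has dimension at most one. -/
def One (A : Submodule ℝ L) (φ : Module.Dual ℝ A) : Prop := ∀ y z : L, Wv A φ y → Wv A φ z → y ≠ 0 → ∃ c : ℝ, z = c • y

/-- The form `-ν κ(u, θ v)`. -/
noncomputable def ip (θ : L ≃ₗ⁅ℝ⁆ L) (ν : ℝ) (u v : L) : ℝ := -(ν * killingForm ℝ L u (θ v))

variable {N : ℕ}

/-- Types `B_2` and `BC_2`: `al = e_1 - e_2`, `be = e_2`, the root space of `al` is spanned by `r`, `ν = (be, be)`. -/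
structure CB (θ : L ≃ₗ⁅ℝ⁆ L) (b : Module.Basis (Fin N) ℝ L) (A : Submodule ℝ L) (τ : Module.Dual ℝ A ≃ₗ[ℝ] A)
    (al be : Module.Dual ℝ A) (r : L) (ν : ℝ) : Prop where
  h : CartanBasis θ b
  hA : MaxFlat θ A
  hτ : ∀ (φ : Module.Dual ℝ A) (a : A), killingForm ℝ L (τ φ : L) (a : L) = φ a
  ind : ∀ s t : ℝ, s • al + t • be = 0 → s = 0 ∧ t = 0
  hR : RL A al be lB2 ∨ RL A al be lBC2
  νpos : 0 < ν
  bb : be (τ be) = ν
  ab : al (τ be) = -ν
  ba : be (τ al) = -ν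
  aa : al (τ al) = 2 * ν
  hr : Wv A al r
  hr0 : r ≠ 0
  one : ∀ z : L, Wv A al z → ∃ c : ℝ, z = c • r

/-- Type `B_2`, normalised: `r` spans the root space of `al = e_1 - e_2`, `p` the root space of `al + 2 be = e_1 + e_2`. -/
structure CN (θ : L ≃ₗ⁅ℝ⁆ L) (b : Module.Basis (Fin N) ℝ L) (A : Submodule ℝ L) (τ : Module.Dual ℝ A ≃ₗ[ℝ] A)
    (al be : Module.Dual ℝ A) (r p : L) (ν : ℝ) : Prop extends CB θ b A τ al be r ν where
  hB : RL A al be lB2
  hp : Wv A (al + (2 : ℝ) • be) p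
  hp0 : p ≠ 0
  onep : ∀ z : L, Wv A (al + (2 : ℝ) • be) z → ∃ c : ℝ, z = c • p
  rr : ν * killingForm ℝ L r (θ r) = -1
  pp : ν * killingForm ℝ L p (θ p) = -1
  uur : ∀ u v : L, Wv A be u → Wv A be v → ⁅u, ⁅v, r⁆⁆ = -(ip θ ν u v • p)
  tup : ∀ u : L, Wv A be u → ⁅θ u, p⁆ = ⁅u, r⁆

/-- The index set of the degree one part: `inl i` for the root `e_1`, `inr false` for `e_1 - e_2`, `inr true` for `e_1 + e_2`. -/
abbrev VI (m : ℕ) : Type := Fin m ⊕ Bool

/-- The involution which exchanges `e_1 - e_2` and `e_1 + e_2`. -/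
def sg {m : ℕ} : VI m → VI m
  | Sum.inl i => Sum.inl i
  | Sum.inr c => Sum.inr (!c)

/-- The structure constants. -/
def TT (m : ℕ) (i j k l : VI m) : ℝ :=
  -(if j = k ∧ i = l then 1 else 0) - (if i = j ∧ k = l then 1 else 0) + (if k = sg i ∧ l = sg j then 1 else 0)

/-- A graded Lie algebra `L_{-1} + L_0 + L_1`, generated by `L_{±1}`, with bases `x` of `L_1`, `y` of `L_{-1}`, grading element `e`, triple product with structure constants `T`. -/
structure TK {I : Type} [Fintype I] (x y : I → L) (e : L) (T : I → I → I → I → ℝ) : Prop where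
  ex : ∀ i, ⁅e, x i⁆ = x i
  ey : ∀ i, ⁅e, y i⁆ = -y i
  lix : LinearIndependent ℝ x
  liy : LinearIndependent ℝ y
  xx : ∀ i j, ⁅x i, x j⁆ = 0
  yy : ∀ i j, ⁅y i, y j⁆ = 0
  xyx : ∀ i j k, ⁅⁅x i, y j⁆, x k⁆ = ∑ l, T i j k l • x l
  xyy : ∀ i j k, ⁅⁅x i, y j⁆, y k⁆ = -∑ l, T j i k l • y l
  span : Submodule.span ℝ (Set.range x ∪ Set.range y ∪ Set.range fun ij : I × I => ⁅x ij.1, y ij.2⁆) = ⊤
  cen : ∀ z : L, (∀ i, ⁅z, x i⁆ = 0) → (∀ i, ⁅z, y i⁆ = 0) → z = 0

end Pool.Agent.Helper77.ST
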