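import Pool.Agent.Helper77.ST.ARefl

/-!
# Project OB, layer ST, block ST-A3: existence of simple roots

PROOF. Let `(φ, ψ) = φ (τ ψ)` (`exists_tau`, symmetric: `tau_symm`, positive definite: `tau_pos`), `E` the dual of `A`, `dim E = 2`. The set `rootsL A` is finite (`Helper96.TO.rw_finite`, `rt_finite` with `Helper77.LA.exists_cm`), stable under
`-` (`Wv.theta`), spans `E` (`span_roots`). There is a linear functional `f` on `E` which is not zero on the roots (a vector space over an infinite field is not a finite union of kernels; or `Helper96.TO.RS.exists_generic`, or a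
linear functional `s ↦ x + s y` in coordinates). Call `φ` positive if `f φ > 0`, and indecomposable if it is positive and not the sum of two positive roots. (1) Every positive root is a sum of indecomposable roots (induction on the number of positive
roots with smaller value of `f`). (2) Two different indecomposable roots `a, b` satisfy `(a, b) ≤ 0`: otherwise `a - b` or `b - a` is a positive root (`refl`: the integers `n = 2 (a, b)/(b, b)`, `m = 2 (a, b)/(a, a)` are positive; if `a, b`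
are independent then `n m < 4` by Cauchy-Schwarz, so one of them is `1` and `a - b ∈ R`; if `b = c a`, then `c > 0` and `2 / c`, `2 c` are integers, `c ∈ {1/2, 1, 2}`, and `2 a = a + a` is decomposable), and `a = b + (a - b)`.
(3) Vectors on one side of a line with pairwise products `≤ 0` are linearly independent: so there are at most two indecomposable roots (three vectors in the plane are dependent; or directly), and at least two, because the roots span. These two are `al`, `be`:
`pos` by (1), `ind` by (3).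
-/

set_option autoImplicit false

namespace Pool.Agent.Helper77.ST

open Pool.Agent.Helper96.SA Pool.Agent.Helper96.TO Pool.Agent.Helper69.SLN Pool.Agent.Helper77.LA Pool.Agent.Helper77.TZ2

variable {L : Type} [LieRing L] [LieAlgebra ℝ L] {N : ℕ} {θ : L ≃ₗ⁅ℝ⁆ L} {b : Module.Basis (Fin N) ℝ L} {A : Submodule ℝ L}

private theorem core31 {E : Type*} [AddCommGroup E] [Module ℝ E] (B : E →ₗ[ℝ] E →ₗ[ℝ] ℝ) (hsymm : ∀ u v, B u v = B v u)
    (hpos : ∀ u, u ≠ 0 → 0 < B u u) (hdim : Module.finrank ℝ E = 2) {R : Set E} (hfin : R.Finite) (h0 : (0 : E) ∉ R)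
    (hspan : Submodule.span ℝ R = ⊤)
    (hrefl : ∀ φ ∈ R, ∀ ψ ∈ R, ∃ n : ℤ, 2 * B φ ψ = n * B ψ ψ ∧ φ - (n : ℝ) • ψ ∈ R) :
    ∃ a ∈ R, ∃ b ∈ R, (∀ s t : ℝ, s • a + t • b = 0 → s = 0 ∧ t = 0) ∧
      ∀ φ ∈ R, ∃ m n : ℕ, φ = (m : ℝ) • a + (n : ℝ) • b ∨ φ = -((m : ℝ) • a + (n : ℝ) • b) := by
  have hne : ∀ φ ∈ R, φ ≠ 0 := fun φ hφ h => h0 (h ▸ hφ)
  have hneg : ∀ φ ∈ R, -φ ∈ R := by
    intro φ hφ
    obtain ⟨n, h1, h2⟩ := hrefl φ hφ φ hφ
    have h3 : (n : ℝ) = 2 := (mul_right_cancel₀ (hpos φ (hne φ hφ)).ne' h1).symm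
    rw [h3, two_smul] at h2
    have e : φ - (φ + φ) = -φ := by abel
    rwa [e] at h2
  -- the generic functional
  obtain ⟨x, hx⟩ : ∃ x : E, ∀ φ ∈ R, B x φ ≠ 0 := by
    have hf1 : Finite R := hfin
    obtain ⟨x, hx⟩ := Module.Dual.exists_forall_ne_zero_of_forall_exists (K := ℝ) (M := E) (ι := R)
      (fun a => B (a : E)) (fun a => ⟨(a : E), (hpos _ (hne _ a.2)).ne'⟩)
    refine ⟨x, fun φ hφ => ?_⟩
    rw [hsymm]
    exact hx ⟨φ, hφ⟩
  obtain ⟨P, hP⟩ : ∃ P : Set E, P = {φ | φ ∈ R ∧ 0 < B x φ} := ⟨_, rfl⟩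
  have hPm : ∀ φ, φ ∈ P ↔ φ ∈ R ∧ 0 < B x φ := fun φ => by rw [hP]; rfl
  have hRP : ∀ φ ∈ R, φ ∈ P ∨ -φ ∈ P := by
    intro φ hφ
    rcases lt_or_gt_of_ne (hx φ hφ) with h | h
    · right
      rw [hPm, map_neg]
      exact ⟨hneg φ hφ, by linarith⟩
    · exact Or.inl ((hPm φ).2 ⟨hφ, h⟩)
  have hPfin : P.Finite := hfin.subset fun φ hφ => ((hPm φ).1 hφ).1
  obtain ⟨D, hD⟩ : ∃ D : Set E, D = {φ | φ ∈ P ∧ ∀ a ∈ P, ∀ b ∈ P, φ ≠ a + b} := ⟨_, rfl⟩
  have hDm : ∀ φ, φ ∈ D ↔ φ ∈ P ∧ ∀ a ∈ P, ∀ b ∈ P, φ ≠ a + b := fun φ => by rw [hD]; rfl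
  -- (1)
  have hcl : ∀ φ ∈ P, φ ∈ AddSubmonoid.closure D := by
    by_contra hcon
    push Not at hcon
    obtain ⟨φ, hφ, hφ'⟩ := hcon
    obtain ⟨ψ, ⟨hψ1, hψ2⟩, hmin⟩ := Set.exists_min_image {φ | φ ∈ P ∧ φ ∉ AddSubmonoid.closure D} (fun φ => B x φ)
      (hPfin.subset fun φ hφ => hφ.1) ⟨φ, hφ, hφ'⟩
    have h1 : ψ ∉ D := fun h => hψ2 (AddSubmonoid.subset_closure h)
    rw [hDm] at h1
    push Not at h1
    obtain ⟨a, ha, b, hb, hab⟩ := h1 hψ1
    have ha' := ((hPm a).1 ha).2
    have hb' := ((hPm b).1 hb).2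
    have hva : B x ψ = B x a + B x b := by rw [hab, map_add]
    have h2 : a ∈ AddSubmonoid.closure D := by
      by_contra h3
      have := hmin a ⟨ha, h3⟩
      linarith
    have h3 : b ∈ AddSubmonoid.closure D := by
      by_contra h3
      have := hmin b ⟨hb, h3⟩
      linarith
    exact hψ2 (hab ▸ add_mem h2 h3)
  -- (2)
  have hobt : ∀ a ∈ D, ∀ b ∈ D, a ≠ b → B a b ≤ 0 := by
    intro a ha b hb hab
    by_contra hcon
    rw [not_le] at hcon
    obtain ⟨ha1, ha2⟩ := (hDm a).1 ha
    obtain ⟨hb1, hb2⟩ := (hDm b).1 hb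
    obtain ⟨ha3, ha4⟩ := (hPm a).1 ha1
    obtain ⟨hb3, hb4⟩ := (hPm b).1 hb1
    have hsub : a - b ∉ R := by
      intro h1
      rcases hRP _ h1 with h2 | h2
      · exact ha2 b hb1 _ h2 (by abel)
      · rw [neg_sub] at h2
        exact hb2 a ha1 _ h2 (by abel)
    obtain ⟨n, hn1, hn2⟩ := hrefl a ha3 b hb3
    obtain ⟨m, hm1, hm2⟩ := hrefl b hb3 a ha3
    rw [hsymm b a] at hm1
    have pa := hpos a (hne a ha3)
    have pb := hpos b (hne b hb3)
    have hn0 : 0 < (n : ℝ) := by
      by_contra h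
      rw [not_lt] at h
      nlinarith
    have hm0 : 0 < (m : ℝ) := by
      by_contra h
      rw [not_lt] at h
      nlinarith
    have hn0' : 0 < n := by exact_mod_cast hn0
    have hm0' : 0 < m := by exact_mod_cast hm0
    have hn3 : n ≠ 1 := by
      rintro rfl
      rw [Int.cast_one, one_smul] at hn2
      exact hsub hn2
    have hm3 : m ≠ 1 := by
      rintro rfl
      rw [Int.cast_one, one_smul] at hm2
      exact hsub (by have := hneg _ hm2; rwa [neg_sub] at this)
    have hn4 : (2 : ℝ) ≤ n := by exact_mod_cast (by omega : 2 ≤ n)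
    have hm4 : (2 : ℝ) ≤ m := by exact_mod_cast (by omega : 2 ≤ m)
    have h1 : B b b ≤ B a b := by nlinarith
    have h2 : B a a ≤ B a b := by nlinarith
    have h3 : B (a - b) (a - b) ≤ 0 := by
      rw [map_sub, map_sub, LinearMap.sub_apply, LinearMap.sub_apply, hsymm b a]
      linarith
    have h4 := hpos (a - b) (sub_ne_zero.2 hab)
    linarith
  -- the span
  have hex : ∀ a : E, ∃ b ∈ D, b ≠ a := by
    intro a
    by_contra hcon
    push Not at hcon
    have h1 : ∀ φ ∈ P, φ ∈ Submodule.span ℝ {a} := by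
      intro φ hφ
      refine AddSubmonoid.closure_induction (motive := fun φ _ => φ ∈ Submodule.span ℝ {a}) ?_ ?_ ?_ (hcl φ hφ)
      · intro d hd
        rw [hcon d hd]
        exact Submodule.mem_span_singleton_self a
      · exact Submodule.zero_mem _
      · intro u v _ _ hu hv
        exact Submodule.add_mem _ hu hv
    have h2 : R ⊆ Submodule.span ℝ {a} := by
      intro φ hφ
      rcases hRP φ hφ with h | h
      · exact h1 φ h
      · have := Submodule.neg_mem _ (h1 _ h)
        rwa [neg_neg] at this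
    have h3 : (⊤ : Submodule ℝ E) ≤ Submodule.span ℝ {a} := by
      rw [← hspan]
      exact Submodule.span_le.2 h2
    have h4 : Module.finrank ℝ (Submodule.span ℝ {a} : Submodule ℝ E) = 2 := by
      rw [top_le_iff.1 h3, finrank_top, hdim]
    have h5 := finrank_span_le_card (R := ℝ) ({a} : Set E)
    rw [h4] at h5
    simp at h5
  obtain ⟨a, ha, -⟩ := hex 0
  obtain ⟨b, hb, hba⟩ := hex a
  obtain ⟨ha1, ha2⟩ := (hDm a).1 ha
  obtain ⟨hb1, hb2⟩ := (hDm b).1 hb
  obtain ⟨ha3, ha4⟩ := (hPm a).1 ha1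
  obtain ⟨hb3, hb4⟩ := (hPm b).1 hb1
  have pa := hpos a (hne a ha3)
  have pb := hpos b (hne b hb3)
  have hab := hobt a ha b hb hba.symm
  have hind : ∀ s t : ℝ, s • a + t • b = 0 → s = 0 ∧ t = 0 := by
    intro s t hst
    have e1 : s * B x a + t * B x b = 0 := by
      have := congrArg (B x) hst
      rwa [map_add, map_smul, map_smul, map_zero, smul_eq_mul, smul_eq_mul] at this
    have e2 : s * B a a + t * B a b = 0 := by
      have := congrArg (B a) hst
      rwa [map_add, map_smul, map_smul, map_zero, smul_eq_mul, smul_eq_mul] at this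
    have e3 : s * B a b + t * B b b = 0 := by
      have := congrArg (B b) hst
      rwa [map_add, map_smul, map_smul, map_zero, smul_eq_mul, smul_eq_mul, hsymm b a] at this
    rcases lt_trichotomy s 0 with hs | hs | hs
    · exfalso
      have ht : 0 < t := by
        by_contra h
        rw [not_lt] at h
        nlinarith
      nlinarith
    · refine ⟨hs, ?_⟩
      rw [hs, zero_mul, zero_add] at e3
      exact (mul_eq_zero.1 e3).resolve_right pb.ne'
    · exfalso
      have ht : t < 0 := by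
        by_contra h
        rw [not_lt] at h
        nlinarith
      nlinarith
  have hD2 : D ⊆ {a, b} := by
    intro d hd
    by_contra hcon
    rw [Set.mem_insert_iff, Set.mem_singleton_iff, not_or] at hcon
    obtain ⟨hd1, hd2⟩ := (hDm d).1 hd
    obtain ⟨hd3, hd4⟩ := (hPm d).1 hd1
    have pd := hpos d (hne d hd3)
    have hda := hobt d hd a ha hcon.1
    have hdb := hobt d hd b hb hcon.2
    have hli : LinearIndependent ℝ ![a, b] := LinearIndependent.pair_iff.2 hind
    have htop := hli.span_eq_top_of_card_eq_finrank (by rw [hdim, Fintype.card_fin])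
    have hdm : d ∈ Submodule.span ℝ {a, b} := by
      rw [Matrix.range_cons, Matrix.range_cons, Matrix.range_empty, Set.union_empty] at htop
      have e : ({a} ∪ {b} : Set E) = {a, b} := rfl
      rw [e] at htop
      rw [htop]
      exact Submodule.mem_top
    obtain ⟨s, t, hst⟩ := Submodule.mem_span_pair.1 hdm
    have e0 : B x d = s * B x a + t * B x b := by
      rw [← hst, map_add, map_smul, map_smul, smul_eq_mul, smul_eq_mul]
    have e1 : B a d = s * B a a + t * B a b := by
      rw [← hst, map_add, map_smul, map_smul, smul_eq_mul, smul_eq_mul]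
    have e2 : B b d = s * B a b + t * B b b := by
      rw [← hst, map_add, map_smul, map_smul, smul_eq_mul, smul_eq_mul, hsymm b a]
    have e3 : B d d = s * B d a + t * B d b := by
      have := congrArg (B d) hst.symm
      rwa [map_add, map_smul, map_smul, smul_eq_mul, smul_eq_mul] at this
    rw [hsymm a d] at e1
    rw [hsymm b d] at e2
    rcases lt_or_ge s 0 with hs | hs
    · have ht : 0 < t := by
        by_contra h
        rw [not_lt] at h
        nlinarith
      nlinarith
    · rcases lt_or_ge t 0 with ht | ht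
      · have hs' : 0 < s := by
          by_contra h
          rw [not_lt] at h
          nlinarith
        nlinarith
      · nlinarith [mul_nonneg hs (neg_nonneg.2 hda), mul_nonneg ht (neg_nonneg.2 hdb)]
  have hPab : ∀ φ ∈ P, ∃ m n : ℕ, φ = (m : ℝ) • a + (n : ℝ) • b := by
    intro φ hφ
    have h1 := AddSubmonoid.closure_mono hD2 (hcl φ hφ)
    obtain ⟨m, n, hmn⟩ := (AddSubmonoid.mem_closure_pair _ _ _).1 h1
    refine ⟨m, n, ?_⟩
    rw [← hmn, Nat.cast_smul_eq_nsmul, Nat.cast_smul_eq_nsmul]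
  refine ⟨a, ha3, b, hb3, hind, fun φ hφ => ?_⟩
  rcases hRP φ hφ with h | h
  · obtain ⟨m, n, hmn⟩ := hPab φ h
    exact ⟨m, n, Or.inl hmn⟩
  · obtain ⟨m, n, hmn⟩ := hPab _ h
    exact ⟨m, n, Or.inr (by rw [← hmn, neg_neg])⟩

theorem exists_simPair (h : CartanBasis θ b) (hA : MaxFlat θ A) (h2 : Module.finrank ℝ A = 2) :
    ∃ al be : Module.Dual ℝ A, SimPair A al be := by
  have hF : Module.Finite ℝ L := Module.Finite.of_basis b
  obtain ⟨τ, hτ⟩ := exists_tau h hA
  have hG : IsAdj b (autG b) := isAdj_autG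
  have hfin : (rootsL A).Finite := by
    obtain ⟨cm, hinj, -, -, hrt, -⟩ := exists_cm h hG hA
    have h3 := (rt_finite (isFlat_map h hG hA)).preimage (f := cm) hinj.injOn
    refine h3.subset fun φ hφ => ?_
    exact (hrt φ).1 hφ
  let B : Module.Dual ℝ A →ₗ[ℝ] Module.Dual ℝ A →ₗ[ℝ] ℝ :=
    LinearMap.mk₂ ℝ (fun φ ψ => φ (τ ψ)) (fun _ _ _ => rfl) (fun _ _ _ => rfl)
      (fun φ ψ χ => by rw [map_add, map_add]) (fun c φ ψ => by rw [map_smul, map_smul])
  have hB : ∀ φ ψ, B φ ψ = φ (τ ψ) := fun φ ψ => rfl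
  obtain ⟨a, ha, c, hc, h3, h4⟩ := core31 B (fun φ ψ => by rw [hB, hB, tau_symm hτ])
    (fun φ hφ => by rw [hB]; exact tau_pos hτ h hA hφ) (by rw [Subspace.dual_finrank_eq, h2]) hfin
    (fun h0 => h0.1 rfl) (span_roots h hA) (fun φ hφ ψ hψ => by
      rw [hB, hB]
      exact refl h hA hτ hφ hψ)
  exact ⟨a, c, ha, hc, h3, h4⟩

end Pool.Agent.Helper77.ST
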