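import Pool.Agent.Helper77.ST.BTab
import Pool.Agent.Helper77.ST.EOnb

/-!
# Project OB, layer ST, block ST-E2: the dimension of the subalgebra generated by the root spaces of `±be` (type `B_2`, `be` short)

Let `U = rsp A be`, `k = dim U`, `w` an orthonormal basis of `U` (`exists_onb`). PROOF. By `hB` the only multiples of `be` which are roots are `±be` (`ind`), so `lev A be` is generated by `U` and `θ U` (`Wv.theta`). `D u v = [u, θ v]`. `lie_theta_add`: `[u, θ v] + [v, θ u] = 2 κ(u, θ v) τ be`. (1) `M = U + θ U + span {[u, θ v]}` is a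
subalgebra: `[U, U] = 0` (weight `2 be`, no root), `[[u, θ v], z]` has weight `be`, `[[u, θ v], θ z]` has weight `-be`, and `[[u, θ v], [z, θ y]] = [[[u, θ v], z], θ y] + [z, [[u, θ v], θ y]]` (Jacobi). So `lev A be = M` as sets (`LieSubalgebra.lieSpan`).
(2) A basis of `M`: `w i`, `θ (w i)`, `τ be`, `D i j = [w i, θ (w j)] - [w j, θ (w i)]` for `i < j`: `k + k + 1 + k (k - 1)/2 = (k + 2)(k + 1)/2` elements. They span: `[w i, θ (w j)] = (1/2) D i j + κ(w i, θ (w j)) τ be`, `κ(w i, θ (w j)) = -δ_ij / ν`. Independent: the weights `be, -be, 0` (apply `ad (τ be)`: eigenvalues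
`ν, -ν, 0`) separate `U`, `θ U` and the rest; `w i` are independent because they are orthonormal; if `c τ be + ∑ (i < j) t i j D i j = 0`: apply `ad` to `[w l, r]`: by `CN.ud` `[D i j, [w l, r]] = 2 δ_il [w j, r] - 2 δ_jl [w i, r]` and `[τ be, [w l, r]] = (al + be)(τ be) [w l, r] = 0`; the `[w j, r]` are
independent (`CB.phi_phi`: orthogonal), so all `t i j = 0`, and then `c = 0` (`be (τ be) = ν ≠ 0`).
HINT. It may be easier to give the linear isomorphism of `M` with `(Fin k → ℝ) × (Fin k → ℝ) × ℝ × (sums over i < j)`, or to count with `LinearIndependent` of the family indexed by `Fin k ⊕ Fin k ⊕ Unit ⊕ {ij : Fin k × Fin k // ij.1 < ij.2}` and `finrank_span_eq_card`.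
-/

set_option autoImplicit false

namespace Pool.Agent.Helper77.ST

open Pool.Agent.Helper96.SA Pool.Agent.Helper96.TO Pool.Agent.Helper69.SLN Pool.Agent.Helper77.LA Pool.Agent.Helper77.TZ2

variable {L : Type} [LieRing L] [LieAlgebra ℝ L] {N : ℕ} {θ : L ≃ₗ⁅ℝ⁆ L} {b : Module.Basis (Fin N) ℝ L} {A : Submodule ℝ L}
  {τ : Module.Dual ℝ A ≃ₗ[ℝ] A} {al be : Module.Dual ℝ A} {r p : L} {ν : ℝ}

private theorem z24 (c : CN θ b A τ al be r p ν) {φ : Module.Dual ℝ A} {x : L} (hx : Wv A φ x) (n : ℝ)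
    (hφ : φ = n • be) (h0 : n ≠ 0) (h1 : n ≠ 1) (h2 : n ≠ -1) : x = 0 := by
  subst hφ
  refine hx.eq_zero ?_ ?_
  · intro hr
    obtain ⟨q, hq, h | h⟩ := (c.hB _).1 hr
    · have h3 : (-(q.1 : ℝ)) • al + (n - q.2) • be = 0 := by
        have h4 : n • be - ((q.1 : ℝ) • al + (q.2 : ℝ) • be) = 0 := sub_eq_zero.2 h
        rw [← h4]
        module
      obtain ⟨h5, h6⟩ := c.ind _ _ h3
      have h7 := sub_eq_zero.1 h6
      simp only [lB2, List.mem_cons, List.not_mem_nil, or_false] at hq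
      rcases hq with rfl | rfl | rfl | rfl
      · norm_num at h5
      · norm_num at h7
        exact h1 h7
      · norm_num at h5
      · norm_num at h5
    · have h3 : ((q.1 : ℝ)) • al + (n + q.2) • be = 0 := by
        have h4 : n • be - (-((q.1 : ℝ) • al + (q.2 : ℝ) • be)) = 0 := sub_eq_zero.2 h
        rw [← h4]
        module
      obtain ⟨h5, h6⟩ := c.ind _ _ h3
      have h7 := eq_neg_of_add_eq_zero_left h6
      simp only [lB2, List.mem_cons, List.not_mem_nil, or_false] at hq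
      rcases hq with rfl | rfl | rfl | rfl
      · norm_num at h5
      · norm_num at h7
        exact h2 h7
      · norm_num at h5
      · norm_num at h5
  · intro h
    have h3 := c.ind 0 n (by rw [zero_smul, zero_add, h])
    exact h0 h3.2

private def S24 (A : Submodule ℝ L) (be : Module.Dual ℝ A) : Set L :=
  {x | Wv A be x ∨ Wv A (-be) x ∨ ∃ u v, Wv A be u ∧ Wv A (-be) v ∧ x = ⁅u, v⁆}

private theorem s24_lie (c : CN θ b A τ al be r p ν) {x y : L} (hx : x ∈ S24 A be) (hy : y ∈ S24 A be) :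
    ⁅x, y⁆ ∈ Submodule.span ℝ (S24 A be) := by
  have m1 : ∀ z : L, Wv A be z → z ∈ Submodule.span ℝ (S24 A be) := fun z hz => Submodule.subset_span (Or.inl hz)
  have m2 : ∀ z : L, Wv A (-be) z → z ∈ Submodule.span ℝ (S24 A be) := fun z hz => Submodule.subset_span (Or.inr (Or.inl hz))
  have m3 : ∀ u v : L, Wv A be u → Wv A (-be) v → ⁅u, v⁆ ∈ Submodule.span ℝ (S24 A be) :=
    fun u v hu hv => Submodule.subset_span (Or.inr (Or.inr ⟨u, v, hu, hv, rfl⟩))
  rcases hx with hx | hx | ⟨u, v, hu, hv, rfl⟩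
  · rcases hy with hy | hy | ⟨u', v', hu', hv', rfl⟩
    · rw [z24 c (hx.lie hy) 2 (by module) (by norm_num) (by norm_num) (by norm_num)]
      exact Submodule.zero_mem _
    · exact m3 _ _ hx hy
    · refine m1 _ ?_
      have h1 := hx.lie (hu'.lie hv')
      rwa [add_neg_cancel, add_zero] at h1
  · rcases hy with hy | hy | ⟨u', v', hu', hv', rfl⟩
    · rw [← lie_skew]
      exact Submodule.neg_mem _ (m3 _ _ hy hx)
    · rw [z24 c (hx.lie hy) (-2) (by module) (by norm_num) (by norm_num) (by norm_num)]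
      exact Submodule.zero_mem _
    · refine m2 _ ?_
      have h1 := hx.lie (hu'.lie hv')
      rwa [add_neg_cancel, add_zero] at h1
  · have k1 : ∀ z : L, Wv A be z → Wv A be ⁅⁅u, v⁆, z⁆ := fun z hz => by
      have h1 := (hu.lie hv).lie hz
      rwa [add_neg_cancel, zero_add] at h1
    have k2 : ∀ z : L, Wv A (-be) z → Wv A (-be) ⁅⁅u, v⁆, z⁆ := fun z hz => by
      have h1 := (hu.lie hv).lie hz
      rwa [add_neg_cancel, zero_add] at h1
    rcases hy with hy | hy | ⟨u', v', hu', hv', rfl⟩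
    · exact m1 _ (k1 _ hy)
    · exact m2 _ (k2 _ hy)
    · rw [leibniz_lie]
      exact Submodule.add_mem _ (m3 _ _ (k1 _ hu') hv') (m3 _ _ hu' (k2 _ hv'))

private theorem s24_closed (c : CN θ b A τ al be r p ν) {x y : L} (hx : x ∈ Submodule.span ℝ (S24 A be))
    (hy : y ∈ Submodule.span ℝ (S24 A be)) : ⁅x, y⁆ ∈ Submodule.span ℝ (S24 A be) := by
  refine Submodule.span_induction (p := fun x _ => ⁅x, y⁆ ∈ Submodule.span ℝ (S24 A be)) ?_ ?_ ?_ ?_ hx
  · intro x hx
    refine Submodule.span_induction (p := fun y _ => ⁅x, y⁆ ∈ Submodule.span ℝ (S24 A be)) ?_ ?_ ?_ ?_ hy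
    · intro y hy
      exact s24_lie c hx hy
    · rw [lie_zero]
      exact Submodule.zero_mem _
    · intro y z _ _ h1 h2
      rw [lie_add]
      exact Submodule.add_mem _ h1 h2
    · intro t y _ h1
      rw [lie_smul]
      exact Submodule.smul_mem _ _ h1
  · rw [zero_lie]
    exact Submodule.zero_mem _
  · intro y z _ _ h1 h2
    rw [add_lie]
    exact Submodule.add_mem _ h1 h2
  · intro t y _ h1
    rw [smul_lie]
    exact Submodule.smul_mem _ _ h1

private theorem n24 (be : Module.Dual ℝ A) : (-1 : ℝ) • be = -be := by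
  ext a
  simp

private theorem lev24 (c : CN θ b A τ al be r p ν) : (lev A be).toSubmodule = Submodule.span ℝ (S24 A be) := by
  apply le_antisymm
  · let K : LieSubalgebra ℝ L := { Submodule.span ℝ (S24 A be) with lie_mem' := fun {x y} hx hy => s24_closed c hx hy }
    have h1 : lev A be ≤ K := by
      unfold lev
      rw [LieSubalgebra.lieSpan_le]
      rintro x ⟨s, hs, hx⟩
      change x ∈ Submodule.span ℝ (S24 A be)
      by_cases h1 : s = 1
      · subst h1
        rw [one_smul] at hx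
        exact Submodule.subset_span (Or.inl hx)
      · by_cases h2 : s = -1
        · subst h2
          rw [n24] at hx
          exact Submodule.subset_span (Or.inr (Or.inl hx))
        · rw [z24 c hx s rfl hs h1 h2]
          exact Submodule.zero_mem _
    intro x hx
    exact h1 hx
  · have m1 : ∀ z : L, Wv A be z → z ∈ lev A be := fun z hz =>
      LieSubalgebra.subset_lieSpan ⟨1, one_ne_zero, by rw [one_smul]; exact hz⟩
    have m2 : ∀ z : L, Wv A (-be) z → z ∈ lev A be := fun z hz =>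
      LieSubalgebra.subset_lieSpan ⟨-1, by norm_num, by rw [n24]; exact hz⟩
    rw [Submodule.span_le]
    rintro x (hx | hx | ⟨u, v, hu, hv, rfl⟩)
    · exact m1 x hx
    · exact m2 x hx
    · exact (lev A be).lie_mem (m1 u hu) (m2 v hv)

private theorem sep24 {H X Y Z : L} {ν : ℝ} (hν : ν ≠ 0) (hX : ⁅H, X⁆ = ν • X) (hY : ⁅H, Y⁆ = -(ν • Y)) (hZ : ⁅H, Z⁆ = 0)
    (h : X + (Y + Z) = 0) : X = 0 ∧ Y = 0 ∧ Z = 0 := by
  have h1 : ⁅H, X + (Y + Z)⁆ = 0 := by rw [h, lie_zero]
  rw [lie_add, lie_add, hX, hY, hZ, add_zero] at h1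
  have h2 : ν • (X - Y) = 0 := by rw [← h1, smul_sub]; abel
  have h3 : X - Y = 0 := (smul_eq_zero.1 h2).resolve_left hν
  have h4 : ⁅H, X - Y⁆ = 0 := by rw [h3, lie_zero]
  rw [_root_.lie_sub, hX, hY, sub_neg_eq_add, ← smul_add] at h4
  have h5 : X + Y = 0 := (smul_eq_zero.1 h4).resolve_left hν
  have h6 : (2 : ℝ) • X = 0 := by
    rw [two_smul]
    calc X + X = (X - Y) + (X + Y) := by abel
      _ = 0 := by rw [h3, h5, add_zero]
  have h7 : X = 0 := (smul_eq_zero.1 h6).resolve_left two_ne_zero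
  have h8 : Y = 0 := by rw [h7, zero_add] at h5; exact h5
  refine ⟨h7, h8, ?_⟩
  rw [h7, h8, zero_add, zero_add] at h
  exact h

private noncomputable def ipl24 (θ : L ≃ₗ⁅ℝ⁆ L) (ν : ℝ) (v : L) : L →ₗ[ℝ] ℝ where
  toFun u := ip θ ν u v
  map_add' x y := by
    unfold ip
    rw [map_add, LinearMap.add_apply]
    ring
  map_smul' t x := by
    unfold ip
    rw [map_smul, LinearMap.smul_apply, smul_eq_mul, RingHom.id_apply, smul_eq_mul]
    ring

private theorem ipl24_apply (u v : L) : ipl24 θ ν v u = ip θ ν u v := rfl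

private theorem card24 (k : ℕ) : Fintype.card {ij : Fin k × Fin k // ij.1 < ij.2} = k * (k - 1) / 2 := by
  rw [Fintype.card_subtype, Finset.card_filter, Fintype.sum_prod_type_right, ← Finset.sum_range_id, ← Fin.sum_univ_eq_sum_range]
  refine Finset.sum_congr rfl fun j _ => ?_
  rw [← Finset.card_filter]
  have h1 : Finset.univ.filter (fun x : Fin k => x < j) = Finset.Iio j := by
    ext x
    simp
  exact (congrArg Finset.card h1).trans (Fin.card_Iio j)

/-- the family of vectors -/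
private noncomputable def F24 (θ : L ≃ₗ⁅ℝ⁆ L) (h : L) {k : ℕ} (w : Fin k → L) :
    (Fin k ⊕ Fin k) ⊕ (Unit ⊕ {ij : Fin k × Fin k // ij.1 < ij.2}) → L
  | Sum.inl (Sum.inl i) => w i
  | Sum.inl (Sum.inr i) => θ (w i)
  | Sum.inr (Sum.inl _) => h
  | Sum.inr (Sum.inr ij) => ⁅w ij.1.1, θ (w ij.1.2)⁆ - ⁅w ij.1.2, θ (w ij.1.1)⁆

private theorem D24 (c : CN θ b A τ al be r p ν) {k : ℕ} {w : Fin k → L} (hw : ∀ i, Wv A be (w i))
    (ho : ∀ i j, ip θ ν (w i) (w j) = if i = j then 1 else 0) (i j l m : Fin k) :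
    ip θ ν ⁅⁅w i, θ (w j)⁆ - ⁅w j, θ (w i)⁆, ⁅w l, r⁆⁆ ⁅w m, r⁆ =
      2 * ((if i = l then 1 else 0) * (if j = m then 1 else 0) - (if j = l then 1 else 0) * (if i = m then 1 else 0)) := by
  have h1 : ∀ a m : Fin k, ip θ ν ⁅w a, r⁆ ⁅w m, r⁆ = if a = m then 1 else 0 := by
    intro a m
    have h2 : ip θ ν ⁅w a, r⁆ ⁅w m, r⁆ = -(ν * (ip θ ν (w a) (w m) * killingForm ℝ L r (θ r))) := by
      unfold ip
      rw [c.toCB.phi_phi (hw a) (hw m)]
      rfl
    rw [h2, ho]
    have h3 := c.rr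
    split_ifs
    · linear_combination -h3
    · ring
  rw [sub_lie, c.ud (hw i) (hw j) (hw l), c.ud (hw j) (hw i) (hw l), ← ipl24_apply, map_sub, map_sub, map_sub, map_smul, map_smul,
    ipl24_apply, ipl24_apply, h1, h1, ho, ho, smul_eq_mul, smul_eq_mul]
  ring

private theorem lin24 (c : CN θ b A τ al be r p ν) {k : ℕ} {w : Fin k → L} (hw : ∀ i, Wv A be (w i))
    (ho : ∀ i j, ip θ ν (w i) (w j) = if i = j then 1 else 0) (hk : 0 < k) : LinearIndependent ℝ (F24 θ (τ be : L) w) := by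
  classical
  rw [Fintype.linearIndependent_iff]
  intro g hg
  rw [Fintype.sum_sum_type, Fintype.sum_sum_type, Fintype.sum_sum_type, add_assoc] at hg
  simp only [F24] at hg
  have hH : ∀ {φ : Module.Dual ℝ A} {x : L}, Wv A φ x → ⁅(τ be : L), x⁆ = φ (τ be) • x := fun hx => hx (τ be)
  have hX : ⁅(τ be : L), ∑ i, g (Sum.inl (Sum.inl i)) • w i⁆ = ν • ∑ i, g (Sum.inl (Sum.inl i)) • w i := by
    rw [lie_sum, Finset.smul_sum]
    refine Finset.sum_congr rfl fun i _ => ?_
    rw [lie_smul, hH (hw i), c.bb, smul_comm]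
  have hY : ⁅(τ be : L), ∑ i, g (Sum.inl (Sum.inr i)) • θ (w i)⁆ = -(ν • ∑ i, g (Sum.inl (Sum.inr i)) • θ (w i)) := by
    rw [lie_sum, Finset.smul_sum, ← Finset.sum_neg_distrib]
    refine Finset.sum_congr rfl fun i _ => ?_
    rw [lie_smul, hH ((hw i).theta c.hA), LinearMap.neg_apply, c.bb, neg_smul, smul_neg, smul_comm]
  have hww : ∀ i j : Fin k, ⁅(τ be : L), ⁅w i, θ (w j)⁆⁆ = 0 := fun i j => by
    rw [hH ((hw i).lie ((hw j).theta c.hA)), add_neg_cancel, LinearMap.zero_apply, zero_smul]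
  have hZ : ⁅(τ be : L), ∑ u : Unit, g (Sum.inr (Sum.inl u)) • (τ be : L) + ∑ ij : {ij : Fin k × Fin k // ij.1 < ij.2},
      g (Sum.inr (Sum.inr ij)) • (⁅w ij.1.1, θ (w ij.1.2)⁆ - ⁅w ij.1.2, θ (w ij.1.1)⁆)⁆ = 0 := by
    rw [lie_add, lie_sum, lie_sum, Finset.sum_eq_zero, Finset.sum_eq_zero, add_zero]
    · intro ij _
      rw [lie_smul, _root_.lie_sub, hww, hww, sub_zero, smul_zero]
    · intro u _
      rw [lie_smul, lie_self, smul_zero]
  obtain ⟨h1, h2, h3⟩ := sep24 c.νpos.ne' hX hY hZ hg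
  have h4 : ∀ (f : Fin k → ℝ), ∑ i, f i • w i = 0 → ∀ i, f i = 0 := by
    intro f hf j
    have h5 := congrArg (ipl24 θ ν (w j)) hf
    rw [map_sum, map_zero] at h5
    rw [← h5]
    rw [Finset.sum_eq_single j]
    · rw [map_smul, ipl24_apply, ho, if_pos rfl, smul_eq_mul, mul_one]
    · intro i _ hij
      rw [map_smul, ipl24_apply, ho, if_neg hij, smul_zero]
    · intro h
      exact absurd (Finset.mem_univ _) h
  have g1 : ∀ i, g (Sum.inl (Sum.inl i)) = 0 := h4 _ h1
  have g2 : ∀ i, g (Sum.inl (Sum.inr i)) = 0 := by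
    refine h4 _ ?_
    have h5 := congrArg θ h2
    rw [map_sum, map_zero] at h5
    rw [← h5]
    refine Finset.sum_congr rfl fun i _ => ?_
    rw [map_smul, c.h.invol]
  have g3 : ∀ ij : {ij : Fin k × Fin k // ij.1 < ij.2}, g (Sum.inr (Sum.inr ij)) = 0 := by
    rintro ⟨⟨l, m⟩, hlm⟩
    have h5 := congrArg (fun Z => ip θ ν ⁅Z, ⁅w l, r⁆⁆ ⁅w m, r⁆) h3
    have h6 : ⁅(τ be : L), ⁅w l, r⁆⁆ = 0 := by
      rw [hH ((hw l).lie c.hr), LinearMap.add_apply, c.bb, c.ab, add_neg_cancel, zero_smul]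
    rw [add_lie, sum_lie, sum_lie, Finset.sum_eq_zero (fun u _ => by rw [smul_lie, h6, smul_zero]), zero_add, zero_lie,
      ← ipl24_apply, map_sum, ← ipl24_apply, map_zero, Finset.sum_eq_single ⟨(l, m), hlm⟩] at h5
    · rw [smul_lie, map_smul, ipl24_apply, D24 c hw ho, if_pos rfl, if_pos rfl, if_neg hlm.ne', if_neg hlm.ne, smul_eq_mul] at h5
      linarith
    · rintro ⟨⟨i, j⟩, hij⟩ _ hne
      rw [smul_lie, map_smul, ipl24_apply, D24 c hw ho, smul_eq_mul]
      simp only at hij hlm hne ⊢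
      have e1 : ¬ (i = l ∧ j = m) := by
        rintro ⟨rfl, rfl⟩
        exact hne rfl
      have e2 : ¬ (j = l ∧ i = m) := by
        rintro ⟨rfl, rfl⟩
        exact lt_asymm hij hlm
      have e3 : ((if i = l then 1 else 0) * (if j = m then 1 else 0) : ℝ) = 0 := by
        by_cases h : i = l
        · rw [if_neg (fun h' => e1 ⟨h, h'⟩), mul_zero]
        · rw [if_neg h, zero_mul]
      have e4 : ((if j = l then 1 else 0) * (if i = m then 1 else 0) : ℝ) = 0 := by
        by_cases h : j = l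
        · rw [if_neg (fun h' => e2 ⟨h, h'⟩), mul_zero]
        · rw [if_neg h, zero_mul]
      rw [e3, e4]
      ring
    · intro h
      exact absurd (Finset.mem_univ _) h
  have g4 : g (Sum.inr (Sum.inl ())) = 0 := by
    rw [Finset.sum_eq_zero (s := (Finset.univ : Finset {ij : Fin k × Fin k // ij.1 < ij.2}))
      (fun ij _ => by rw [g3, zero_smul]), add_zero, Fintype.sum_unique] at h3
    have h5 := congrArg (fun Z => ⁅Z, w ⟨0, hk⟩⁆) h3
    rw [zero_lie, smul_lie, hH (hw _), c.bb, smul_smul] at h5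
    have h6 : w ⟨0, hk⟩ ≠ 0 := by
      intro h0
      have h7 := ho ⟨0, hk⟩ ⟨0, hk⟩
      rw [h0, if_pos rfl] at h7
      unfold ip at h7
      rw [map_zero, LinearMap.zero_apply] at h7
      norm_num at h7
    exact (mul_eq_zero.1 ((smul_eq_zero.1 h5).resolve_right h6)).resolve_right c.νpos.ne'
  rintro ((i | i) | (u | ij))
  · exact g1 i
  · exact g2 i
  · exact g4
  · exact g3 ij

private theorem span24 (c : CN θ b A τ al be r p ν) {k : ℕ} {w : Fin k → L} (hw : ∀ i, Wv A be (w i))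
    (hs : ∀ u, Wv A be u → u ∈ Submodule.span ℝ (Set.range w)) (x0 : L) (hx0 : x0 ≠ 0) (hx0' : Wv A be x0) :
    Submodule.span ℝ (S24 A be) = Submodule.span ℝ (Set.range (F24 θ (τ be : L) w)) := by
  have m1 : ∀ z : L, Wv A be z → z ∈ Submodule.span ℝ (S24 A be) := fun z hz => Submodule.subset_span (Or.inl hz)
  have m2 : ∀ z : L, Wv A (-be) z → z ∈ Submodule.span ℝ (S24 A be) := fun z hz => Submodule.subset_span (Or.inr (Or.inl hz))
  have m3 : ∀ u v : L, Wv A be u → Wv A (-be) v → ⁅u, v⁆ ∈ Submodule.span ℝ (S24 A be) :=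
    fun u v hu hv => Submodule.subset_span (Or.inr (Or.inr ⟨u, v, hu, hv, rfl⟩))
  have n1 : ∀ z : L, z ∈ Submodule.span ℝ (Set.range w) → z ∈ Submodule.span ℝ (Set.range (F24 θ (τ be : L) w)) := by
    intro z hz
    refine Submodule.span_mono ?_ hz
    rintro _ ⟨i, rfl⟩
    exact ⟨Sum.inl (Sum.inl i), rfl⟩
  have n2 : ∀ z : L, Wv A (-be) z → z ∈ Submodule.span ℝ (Set.range (fun i => θ (w i))) := by
    intro z hz
    have h1 : Wv A be (θ z) := by
      have h2 := hz.theta c.hA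
      rwa [neg_neg] at h2
    obtain ⟨f, hf⟩ := (Submodule.mem_span_range_iff_exists_fun ℝ).1 (hs _ h1)
    have h3 : z = ∑ i, f i • θ (w i) := by
      rw [← c.h.invol z, ← hf, map_sum]
      exact Finset.sum_congr rfl fun i _ => by rw [map_smul]
    rw [h3]
    exact Submodule.sum_mem _ fun i _ => Submodule.smul_mem _ _ (Submodule.subset_span ⟨i, rfl⟩)
  have n2' : ∀ z : L, Wv A (-be) z → z ∈ Submodule.span ℝ (Set.range (F24 θ (τ be : L) w)) := by
    intro z hz
    refine Submodule.span_mono ?_ (n2 z hz)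
    rintro _ ⟨i, rfl⟩
    exact ⟨Sum.inl (Sum.inr i), rfl⟩
  have nt : (τ be : L) ∈ Submodule.span ℝ (Set.range (F24 θ (τ be : L) w)) := Submodule.subset_span ⟨Sum.inr (Sum.inl ()), rfl⟩
  have nD : ∀ i j : Fin k, ⁅w i, θ (w j)⁆ - ⁅w j, θ (w i)⁆ ∈ Submodule.span ℝ (Set.range (F24 θ (τ be : L) w)) := by
    intro i j
    rcases lt_trichotomy i j with h | h | h
    · exact Submodule.subset_span ⟨Sum.inr (Sum.inr ⟨(i, j), h⟩), rfl⟩
    · subst h
      rw [sub_self]
      exact Submodule.zero_mem _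
    · rw [← neg_sub]
      exact Submodule.neg_mem _ (Submodule.subset_span ⟨Sum.inr (Sum.inr ⟨(j, i), h⟩), rfl⟩)
  have nW : ∀ i j : Fin k, ⁅w i, θ (w j)⁆ ∈ Submodule.span ℝ (Set.range (F24 θ (τ be : L) w)) := by
    intro i j
    have h1 := lie_theta_add c.hτ c.h c.hA (hw i) (hw j)
    have h2 : ⁅w i, θ (w j)⁆ = (1 / 2 : ℝ) • (⁅w i, θ (w j)⁆ - ⁅w j, θ (w i)⁆) +
        (1 / 2 : ℝ) • ((2 * killingForm ℝ L (w i) (θ (w j))) • (τ be : L)) := by
      rw [← h1]
      module
    rw [h2]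
    exact Submodule.add_mem _ (Submodule.smul_mem _ _ (nD i j)) (Submodule.smul_mem _ _ (Submodule.smul_mem _ _ nt))
  apply le_antisymm
  · rw [Submodule.span_le]
    rintro x (hx | hx | ⟨u, v, hu, hv, rfl⟩)
    · exact n1 x (hs x hx)
    · exact n2' x hx
    · obtain ⟨f, hf⟩ := (Submodule.mem_span_range_iff_exists_fun ℝ).1 (hs _ hu)
      obtain ⟨g, hg⟩ := (Submodule.mem_span_range_iff_exists_fun ℝ).1 (n2 _ hv)
      change ⁅u, v⁆ ∈ Submodule.span ℝ (Set.range (F24 θ (τ be : L) w))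
      rw [← hf, ← hg, sum_lie]
      refine Submodule.sum_mem _ fun i _ => ?_
      rw [smul_lie, lie_sum]
      refine Submodule.smul_mem _ _ (Submodule.sum_mem _ fun j _ => ?_)
      rw [lie_smul]
      exact Submodule.smul_mem _ _ (nW i j)
  · rw [Submodule.span_le]
    rintro _ ⟨j, rfl⟩
    have hθ : ∀ i, Wv A (-be) (θ (w i)) := fun i => (hw i).theta c.hA
    rcases j with (i | i) | (i | ⟨⟨i, j⟩, hij⟩)
    · exact m1 _ (hw i)
    · exact m2 _ (hθ i)
    · change (τ be : L) ∈ Submodule.span ℝ (S24 A be)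
      have h1 := lie_theta_self c.hτ c.h c.hA hx0'
      have h2 : killingForm ℝ L x0 (θ x0) ≠ 0 := by
        have h3 := pos c.h hx0
        intro h4
        rw [h4] at h3
        norm_num at h3
      have h3 : (τ be : L) = (killingForm ℝ L x0 (θ x0))⁻¹ • ⁅x0, θ x0⁆ := by
        rw [h1, smul_smul, inv_mul_cancel₀ h2, one_smul]
      rw [h3]
      exact Submodule.smul_mem _ _ (m3 _ _ hx0' (hx0'.theta c.hA))
    · exact Submodule.sub_mem _ (m3 _ _ (hw i) (hθ j)) (m3 _ _ (hw j) (hθ i))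

private theorem fin24 (c : CN θ b A τ al be r p ν) {k : ℕ} {w : Fin k → L} (hw : ∀ i, Wv A be (w i))
    (h2 : ∀ i j, ip θ ν (w i) (w j) = if i = j then 1 else 0) (h3 : ∀ u, Wv A be u → u ∈ Submodule.span ℝ (Set.range w)) :
    Module.finrank ℝ (lev A be) = (k + 2) * (k + 1) / 2 := by
  have hroot : be ∈ rootsL A := by
    refine (c.hB _).2 ⟨(0, 1), by simp [lB2], Or.inl ?_⟩
    norm_num
  obtain ⟨_, x0, hx0, hx0'⟩ := hroot
  have hx0w : Wv A be x0 := hx0'
  have hkpos : 0 < k := by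
    rcases Nat.eq_zero_or_pos k with h0 | h0
    · exfalso
      have h4 := h3 x0 hx0'
      obtain ⟨f, hf⟩ := (Submodule.mem_span_range_iff_exists_fun ℝ).1 h4
      apply hx0
      rw [← hf]
      refine Finset.sum_eq_zero fun i _ => ?_
      exact absurd i.2 (by omega)
    · exact h0
  have e1 : (lev A be).toSubmodule = Submodule.span ℝ (Set.range (F24 θ (τ be : L) w)) := by
    rw [lev24 c]
    exact span24 c hw (fun u hu => h3 u hu) x0 hx0 hx0w
  have e2 : Module.finrank ℝ (lev A be) = Module.finrank ℝ (lev A be).toSubmodule := rfl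
  rw [e2, e1, finrank_span_eq_card (lin24 c hw h2 hkpos), Fintype.card_sum, Fintype.card_sum, Fintype.card_sum, Fintype.card_fin,
    Fintype.card_unit, card24]
  obtain ⟨n, rfl⟩ : ∃ n, k = n + 1 := ⟨k - 1, by omega⟩
  have h4 : (n + 1) * (n + 1 - 1) = (n + 1) * n := by simp
  rw [h4]
  have h5 : (n + 1 + 2) * (n + 1 + 1) = (n + 1) * n + 2 * (2 * n + 3) := by ring
  rw [h5, Nat.add_mul_div_left _ _ (by norm_num)]
  omega

theorem CN.finrank_lev (c : CN θ b A τ al be r p ν) :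
    Module.finrank ℝ (lev A be) = (Module.finrank ℝ (rsp A be) + 2) * (Module.finrank ℝ (rsp A be) + 1) / 2 := by
  obtain ⟨w, h1, h2, h3⟩ := exists_onb c.h c.νpos (rsp A be)
  exact fin24 c (fun i => h1 i) h2 (fun u hu => h3 u hu)

end Pool.Agent.Helper77.ST
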