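import Pool.Agent.Helper77.ST.ARefl

/-!
# Project OB, layer ST, block ST-E3: root spaces of dimension one and the subalgebra `lev`

`finrank_rsp`: trivial. `finrank_lev_one`: `x ≠ 0` of weight `φ`, `y = θ x`, `[x, θ x] = κ(x, θ x) τ φ` (`lie_theta_self`); the only roots among the multiples of `φ` are `±φ`, so `lev A φ` is generated by `x, θ x` and equal to the span of the linearly independent `x, θ x, τ φ` (weights `φ, -φ, 0`; `φ (τ φ) > 0`, `tau_pos`).
`one_of_lev`: `lev A φ` contains `rsp A φ`, `rsp A (-φ)` (`θ`-image), `τ φ`, and `rsp A (±2 φ)`: vectors of different weights (eigenvalues `(φ, φ), -(φ, φ), 0, ±2 (φ, φ)` of `ad τ φ`). If `y, z` are linearly independent of weight `φ`, then `y, z, θ y, θ z, τ φ` are linearly independent, dimension `≥ 5`. If `2 φ` is a root with root vector `x'`: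
`x, θ x, τ φ, x', θ x'`, dimension `≥ 5`. So if the dimension is `≤ 3`, then `One A φ` and `2 φ` is no root.
-/

set_option autoImplicit false

namespace Pool.Agent.Helper77.ST

open Pool.Agent.Helper96.SA Pool.Agent.Helper96.TO Pool.Agent.Helper69.SLN Pool.Agent.Helper77.LA Pool.Agent.Helper77.TZ2

variable {L : Type} [LieRing L] [LieAlgebra ℝ L] {N : ℕ} {θ : L ≃ₗ⁅ℝ⁆ L} {b : Module.Basis (Fin N) ℝ L} {A : Submodule ℝ L}
  {τ : Module.Dual ℝ A ≃ₗ[ℝ] A} {al be : Module.Dual ℝ A} {r p : L} {ν : ℝ}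

private theorem mem_lev71 {φ : Module.Dual ℝ A} {c : ℝ} (hc : c ≠ 0) {x : L} (hx : Wv A (c • φ) x) : x ∈ lev A φ :=
  LieSubalgebra.subset_lieSpan ⟨c, hc, hx⟩

private theorem mem_lev_one71 {φ : Module.Dual ℝ A} {x : L} (hx : Wv A φ x) : x ∈ lev A φ := by
  refine mem_lev71 one_ne_zero ?_
  rwa [one_smul]

private theorem neg71 (φ : Module.Dual ℝ A) : (-1 : ℝ) • φ = -φ := by
  refine LinearMap.ext fun a => ?_
  rw [LinearMap.smul_apply, LinearMap.neg_apply, smul_eq_mul]
  ring

private theorem mem_lev_neg71 {φ : Module.Dual ℝ A} {x : L} (hx : Wv A (-φ) x) : x ∈ lev A φ := by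
  refine mem_lev71 (c := -1) (by norm_num) ?_
  rwa [neg71]

private theorem tau_mem_lev71 (h : CartanBasis θ b) (hA : MaxFlat θ A) {τ : Module.Dual ℝ A ≃ₗ[ℝ] A}
    (hτ : ∀ (φ : Module.Dual ℝ A) (a : A), killingForm ℝ L (τ φ : L) (a : L) = φ a) {φ : Module.Dual ℝ A} {x : L}
    (hx0 : x ≠ 0) (hx : Wv A φ x) : (τ φ : L) ∈ lev A φ := by
  have h1 := lie_theta_self hτ h hA hx
  have h2 := pos h hx0
  have h3 : killingForm ℝ L x (θ x) ≠ 0 := fun h4 => by
    rw [h4] at h2
    norm_num at h2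
  have h4 : (τ φ : L) = (killingForm ℝ L x (θ x))⁻¹ • ⁅x, θ x⁆ := by
    rw [h1, smul_smul, inv_mul_cancel₀ h3, one_smul]
  rw [h4]
  exact (lev A φ).smul_mem _ ((lev A φ).lie_mem (mem_lev_one71 hx) (mem_lev_neg71 (hx.theta hA)))

private theorem card_le71 (h : CartanBasis θ b) {φ : Module.Dual ℝ A} {n : ℕ} {v : Fin n → L} (hv : ∀ i, v i ∈ lev A φ)
    (hli : LinearIndependent ℝ v) : n ≤ Module.finrank ℝ (lev A φ) := by
  have hF : Module.Finite ℝ L := Module.Finite.of_basis b
  have h1 : LinearIndependent ℝ (fun i => (⟨v i, hv i⟩ : (lev A φ).toSubmodule)) :=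
    LinearIndependent.of_comp (lev A φ).toSubmodule.subtype hli
  have h2 := h1.fintype_card_le_finrank
  rw [Fintype.card_fin] at h2
  exact h2

private theorem theta_ne71 {x : L} (hx : x ≠ 0) : θ x ≠ 0 := fun h => hx (by
  have h1 : θ x = θ 0 := by rw [h, map_zero]
  exact (LieEquiv.injective θ) h1)

theorem finrank_rsp {φ : Module.Dual ℝ A} (hφ : φ ∈ rootsL A) (h1 : One A φ) : Module.finrank ℝ (rsp A φ) = 1 := by
  obtain ⟨-, x, hx0, hx⟩ := hφ
  have h2 : rsp A φ = Submodule.span ℝ {x} := by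
    apply le_antisymm
    · intro z hz
      obtain ⟨c, hc⟩ := h1 x z hx hz hx0
      rw [hc]
      exact Submodule.smul_mem _ _ (Submodule.mem_span_singleton_self x)
    · rw [Submodule.span_singleton_le_iff_mem]
      exact hx
  rw [h2]
  exact finrank_span_singleton hx0

theorem finrank_lev_one (h : CartanBasis θ b) (hA : MaxFlat θ A) {φ : Module.Dual ℝ A} (hφ : φ ∈ rootsL A) (h1 : One A φ)
    (h2 : ∀ c : ℝ, c • φ ∈ rootsL A → c = 1 ∨ c = -1) : Module.finrank ℝ (lev A φ) = 3 := by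
  have hF : Module.Finite ℝ L := Module.Finite.of_basis b
  obtain ⟨τ, hτ⟩ := exists_tau h hA
  obtain ⟨hφ0, x, hx0, hx⟩ := hφ
  change Wv A φ x at hx
  have hq := tau_pos hτ h hA hφ0
  obtain ⟨q, hqd⟩ : ∃ q, q = φ (τ φ) := ⟨_, rfl⟩
  rw [← hqd] at hq
  have e1 : ⁅(τ φ : L), x⁆ = q • x := by rw [hqd]; exact hx (τ φ)
  have e2 : ⁅(τ φ : L), θ x⁆ = (-q) • θ x := by rw [hqd]; exact (hx.theta hA) (τ φ)
  have e3 : ⁅x, θ x⁆ = killingForm ℝ L x (θ x) • (τ φ : L) := lie_theta_self hτ h hA hx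
  have ht0 : (τ φ : L) ≠ 0 := fun h3 => hφ0 (τ.map_eq_zero_iff.1 (Subtype.ext h3))
  obtain ⟨v, hv⟩ : ∃ v : Fin 3 → L, v = ![x, θ x, (τ φ : L)] := ⟨_, rfl⟩
  have v0 : v 0 = x := by rw [hv]; rfl
  have v1 : v 1 = θ x := by rw [hv]; rfl
  have v2 : v 2 = (τ φ : L) := by rw [hv]; rfl
  have hli : LinearIndependent ℝ v := by
    rw [Fintype.linearIndependent_iff]
    intro g hg
    rw [Fin.sum_univ_three, v0, v1, v2] at hg
    have hg1 : (g 0 * q) • x + (-(g 1 * q)) • θ x = 0 := by
      have h3 : ⁅(τ φ : L), g 0 • x + g 1 • θ x + g 2 • (τ φ : L)⁆ = 0 := by rw [hg, lie_zero]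
      rw [lie_add, lie_add, lie_smul, lie_smul, lie_smul, lie_self, smul_zero, add_zero, e1, e2, smul_smul, smul_smul] at h3
      rw [← h3, mul_neg]
    have hg2 : (g 0 * q * q) • x + (g 1 * q * q) • θ x = 0 := by
      have h3 : ⁅(τ φ : L), (g 0 * q) • x + (-(g 1 * q)) • θ x⁆ = 0 := by rw [hg1, lie_zero]
      rw [lie_add, lie_smul, lie_smul, e1, e2, smul_smul, smul_smul] at h3
      rw [← h3]
      congr 2
      ring
    have hg3 : (2 * (g 0 * q * q)) • x = 0 := by
      have h3 : (g 0 * q * q) • x + (g 1 * q * q) • θ x + q • ((g 0 * q) • x + (-(g 1 * q)) • θ x) = 0 := by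
        rw [hg1, hg2, smul_zero, add_zero]
      rw [← h3]
      module
    have g0 : g 0 = 0 := by
      have h3 := (smul_eq_zero.1 hg3).resolve_right hx0
      have h4 : g 0 * (2 * (q * q)) = 0 := by linarith
      exact (mul_eq_zero.1 h4).resolve_right (by positivity)
    have g1 : g 1 = 0 := by
      rw [g0, zero_mul, zero_smul, zero_add] at hg1
      have h3 := (smul_eq_zero.1 hg1).resolve_right (theta_ne71 hx0)
      have h4 : g 1 * q = 0 := by linarith
      exact (mul_eq_zero.1 h4).resolve_right hq.ne'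
    have g2 : g 2 = 0 := by
      rw [g0, g1, zero_smul, zero_smul, zero_add, zero_add] at hg
      exact (smul_eq_zero.1 hg).resolve_right ht0
    intro i
    fin_cases i
    · exact g0
    · exact g1
    · exact g2
  obtain ⟨S, hS⟩ : ∃ S : Submodule ℝ L, S = Submodule.span ℝ (Set.range v) := ⟨_, rfl⟩
  have hvS : ∀ i, v i ∈ S := fun i => by rw [hS]; exact Submodule.subset_span ⟨i, rfl⟩
  have hxS : x ∈ S := by rw [← v0]; exact hvS 0
  have hyS : θ x ∈ S := by rw [← v1]; exact hvS 1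
  have htS : (τ φ : L) ∈ S := by rw [← v2]; exact hvS 2
  have hgen : ∀ i j, ⁅v i, v j⁆ ∈ S := by
    intro i j
    have a01 : ⁅x, θ x⁆ ∈ S := by rw [e3]; exact S.smul_mem _ htS
    have a20 : ⁅(τ φ : L), x⁆ ∈ S := by rw [e1]; exact S.smul_mem _ hxS
    have a21 : ⁅(τ φ : L), θ x⁆ ∈ S := by rw [e2]; exact S.smul_mem _ hyS
    have a10 : ⁅θ x, x⁆ ∈ S := by rw [← lie_skew]; exact S.neg_mem a01
    have a02 : ⁅x, (τ φ : L)⁆ ∈ S := by rw [← lie_skew]; exact S.neg_mem a20
    have a12 : ⁅θ x, (τ φ : L)⁆ ∈ S := by rw [← lie_skew]; exact S.neg_mem a21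
    fin_cases i <;> fin_cases j
    · change ⁅v 0, v 0⁆ ∈ S
      rw [lie_self]; exact S.zero_mem
    · change ⁅v 0, v 1⁆ ∈ S
      rw [v0, v1]; exact a01
    · change ⁅v 0, v 2⁆ ∈ S
      rw [v0, v2]; exact a02
    · change ⁅v 1, v 0⁆ ∈ S
      rw [v0, v1]; exact a10
    · change ⁅v 1, v 1⁆ ∈ S
      rw [lie_self]; exact S.zero_mem
    · change ⁅v 1, v 2⁆ ∈ S
      rw [v1, v2]; exact a12
    · change ⁅v 2, v 0⁆ ∈ S
      rw [v0, v2]; exact a20
    · change ⁅v 2, v 1⁆ ∈ S
      rw [v1, v2]; exact a21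
    · change ⁅v 2, v 2⁆ ∈ S
      rw [lie_self]; exact S.zero_mem
  have hl1 : ∀ i, ∀ z ∈ S, ⁅v i, z⁆ ∈ S := by
    intro i z hz
    have hz' : z ∈ Submodule.span ℝ (Set.range v) := by rw [← hS]; exact hz
    induction hz' using Submodule.span_induction with
    | mem z hz1 =>
      obtain ⟨j, rfl⟩ := hz1
      exact hgen i j
    | zero => rw [lie_zero]; exact S.zero_mem
    | add y z hy1 hz1 h3 h4 =>
      rw [lie_add]
      exact S.add_mem (h3 (by rw [hS]; exact hy1)) (h4 (by rw [hS]; exact hz1))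
    | smul c z hz1 h3 =>
      rw [lie_smul]
      exact S.smul_mem _ (h3 (by rw [hS]; exact hz1))
  have hl2 : ∀ y ∈ S, ∀ z ∈ S, ⁅y, z⁆ ∈ S := by
    intro y hy z hz
    have hy' : y ∈ Submodule.span ℝ (Set.range v) := by rw [← hS]; exact hy
    induction hy' using Submodule.span_induction with
    | mem y hy1 =>
      obtain ⟨j, rfl⟩ := hy1
      exact hl1 j z hz
    | zero => rw [zero_lie]; exact S.zero_mem
    | add y y' hy1 hy2 h3 h4 =>
      rw [add_lie]
      exact S.add_mem (h3 (by rw [hS]; exact hy1)) (h4 (by rw [hS]; exact hy2))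
    | smul c y hy1 h3 =>
      rw [smul_lie]
      exact S.smul_mem _ (h3 (by rw [hS]; exact hy1))
  let K : LieSubalgebra ℝ L := { S with lie_mem' := fun {y z} hy hz => hl2 y hy z hz }
  have hK : K.toSubmodule = S := rfl
  have hle : lev A φ ≤ K := by
    refine LieSubalgebra.lieSpan_le.2 ?_
    rintro z ⟨c, hc, hz⟩
    change z ∈ S
    by_cases hz0 : z = 0
    · rw [hz0]
      exact S.zero_mem
    · have hr : c • φ ∈ rootsL A := ⟨smul_ne_zero hc hφ0, z, hz0, hz⟩
      rcases h2 c hr with h3 | h3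
      · rw [h3, one_smul] at hz
        obtain ⟨d, hd⟩ := h1 x z hx hz hx0
        rw [hd]
        exact S.smul_mem _ hxS
      · rw [h3, neg71] at hz
        have hz2 := hz.theta hA
        rw [neg_neg] at hz2
        obtain ⟨d, hd⟩ := h1 x (θ z) hx hz2 hx0
        have h4 : z = d • θ x := by
          rw [← map_smul, ← hd, h.invol]
        rw [h4]
        exact S.smul_mem _ hyS
  have hge : S ≤ (lev A φ).toSubmodule := by
    rw [hS, Submodule.span_le]
    rintro z ⟨i, rfl⟩
    fin_cases i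
    · change v 0 ∈ lev A φ
      rw [v0]; exact mem_lev_one71 hx
    · change v 1 ∈ lev A φ
      rw [v1]; exact mem_lev_neg71 (hx.theta hA)
    · change v 2 ∈ lev A φ
      rw [v2]; exact tau_mem_lev71 h hA hτ hx0 hx
  have heq : (lev A φ).toSubmodule = S := le_antisymm (fun z hz => hle hz) hge
  have h5 : Module.finrank ℝ (lev A φ).toSubmodule = 3 := by
    rw [heq, hS, finrank_span_eq_card hli, Fintype.card_fin]
  exact h5

theorem one_of_lev (h : CartanBasis θ b) (hA : MaxFlat θ A) {φ : Module.Dual ℝ A} (hφ : φ ∈ rootsL A)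
    (h1 : Module.finrank ℝ (lev A φ) ≤ 3) : One A φ ∧ (2 : ℝ) • φ ∉ rootsL A := by
  obtain ⟨τ, hτ⟩ := exists_tau h hA
  obtain ⟨hφ0, x, hx0, hx⟩ := hφ
  change Wv A φ x at hx
  have hq := tau_pos hτ h hA hφ0
  obtain ⟨q, hqd⟩ : ∃ q, q = φ (τ φ) := ⟨_, rfl⟩
  rw [← hqd] at hq
  have ht0 : (τ φ : L) ≠ 0 := fun h3 => hφ0 (τ.map_eq_zero_iff.1 (Subtype.ext h3))
  constructor
  · intro y z hy hz hy0
    by_contra hcon
    push Not at hcon
    have e1 : ⁅(τ φ : L), y⁆ = q • y := by rw [hqd]; exact hy (τ φ)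
    have e1' : ⁅(τ φ : L), z⁆ = q • z := by rw [hqd]; exact hz (τ φ)
    have e2 : ⁅(τ φ : L), θ y⁆ = (-q) • θ y := by rw [hqd]; exact (hy.theta hA) (τ φ)
    obtain ⟨v, hv⟩ : ∃ v : Fin 4 → L, v = ![y, z, θ y, (τ φ : L)] := ⟨_, rfl⟩
    have v0 : v 0 = y := by rw [hv]; rfl
    have v1 : v 1 = z := by rw [hv]; rfl
    have v2 : v 2 = θ y := by rw [hv]; rfl
    have v3 : v 3 = (τ φ : L) := by rw [hv]; rfl
    have hli : LinearIndependent ℝ v := by
      rw [Fintype.linearIndependent_iff]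
      intro g hg
      rw [Fin.sum_univ_four, v0, v1, v2, v3] at hg
      have hg1 : (g 0 * q) • y + (g 1 * q) • z + (-(g 2 * q)) • θ y = 0 := by
        have h3 : ⁅(τ φ : L), g 0 • y + g 1 • z + g 2 • θ y + g 3 • (τ φ : L)⁆ = 0 := by rw [hg, lie_zero]
        rw [lie_add, lie_add, lie_add, lie_smul, lie_smul, lie_smul, lie_smul, lie_self, smul_zero, add_zero, e1, e1', e2,
          smul_smul, smul_smul, smul_smul] at h3
        rw [← h3, mul_neg]
      have hg2 : (g 0 * q * q) • y + (g 1 * q * q) • z + (g 2 * q * q) • θ y = 0 := by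
        have h3 : ⁅(τ φ : L), (g 0 * q) • y + (g 1 * q) • z + (-(g 2 * q)) • θ y⁆ = 0 := by rw [hg1, lie_zero]
        rw [lie_add, lie_add, lie_smul, lie_smul, lie_smul, e1, e1', e2, smul_smul, smul_smul, smul_smul] at h3
        rw [← h3]
        congr 2
        ring
      have hg3 : (2 * (g 2 * q * q)) • θ y = 0 := by
        have h3 : (g 0 * q * q) • y + (g 1 * q * q) • z + (g 2 * q * q) • θ y
            - q • ((g 0 * q) • y + (g 1 * q) • z + (-(g 2 * q)) • θ y) = 0 := by
          rw [hg1, hg2, smul_zero, sub_zero]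
        rw [← h3]
        module
      have g2 : g 2 = 0 := by
        have h3 := (smul_eq_zero.1 hg3).resolve_right (theta_ne71 hy0)
        have h4 : g 2 * (2 * (q * q)) = 0 := by linarith
        exact (mul_eq_zero.1 h4).resolve_right (by positivity)
      have hg4 : g 0 • y + g 1 • z = 0 := by
        have h3 : q • (g 0 • y + g 1 • z) = 0 := by
          rw [← hg1, g2]
          module
        exact (smul_eq_zero.1 h3).resolve_left hq.ne'
      have g1 : g 1 = 0 := by
        by_contra h3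
        apply hcon (-(g 0 / g 1))
        have h4 : (g 1)⁻¹ • (g 0 • y + g 1 • z) = 0 := by rw [hg4, smul_zero]
        rw [smul_add, smul_smul, smul_smul, inv_mul_cancel₀ h3, one_smul] at h4
        rw [eq_neg_of_add_eq_zero_right h4, neg_smul]
        congr 2
        rw [div_eq_mul_inv, mul_comm]
      have g0 : g 0 = 0 := by
        rw [g1, zero_smul, add_zero] at hg4
        exact (smul_eq_zero.1 hg4).resolve_right hy0
      have g3 : g 3 = 0 := by
        rw [g0, g1, g2, zero_smul, zero_smul, zero_smul, zero_add, zero_add, zero_add] at hg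
        exact (smul_eq_zero.1 hg).resolve_right ht0
      intro i
      fin_cases i
      · exact g0
      · exact g1
      · exact g2
      · exact g3
    have h2 := card_le71 h (φ := φ) (v := v) (fun i => by
      fin_cases i
      · change v 0 ∈ lev A φ
        rw [v0]; exact mem_lev_one71 hy
      · change v 1 ∈ lev A φ
        rw [v1]; exact mem_lev_one71 hz
      · change v 2 ∈ lev A φ
        rw [v2]; exact mem_lev_neg71 (hy.theta hA)
      · change v 3 ∈ lev A φ
        rw [v3]; exact tau_mem_lev71 h hA hτ hx0 hx) hli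
    omega
  · rintro ⟨-, x', hx'0, hx'⟩
    change Wv A ((2 : ℝ) • φ) x' at hx'
    have e1 : ⁅(τ φ : L), x⁆ = q • x := by rw [hqd]; exact hx (τ φ)
    have e2 : ⁅(τ φ : L), θ x⁆ = (-q) • θ x := by rw [hqd]; exact (hx.theta hA) (τ φ)
    have e3 : ⁅(τ φ : L), x'⁆ = (2 * q) • x' := by rw [hqd]; exact hx' (τ φ)
    obtain ⟨v, hv⟩ : ∃ v : Fin 4 → L, v = ![x, θ x, x', (τ φ : L)] := ⟨_, rfl⟩
    have v0 : v 0 = x := by rw [hv]; rfl
    have v1 : v 1 = θ x := by rw [hv]; rfl
    have v2 : v 2 = x' := by rw [hv]; rfl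
    have v3 : v 3 = (τ φ : L) := by rw [hv]; rfl
    have hli : LinearIndependent ℝ v := by
      refine Module.End.eigenvectors_linearIndependent' (LieAlgebra.ad ℝ L (τ φ : L)) ![q, -q, 2 * q, 0] ?_ v ?_
      · intro i j hij
        fin_cases i <;> fin_cases j <;> first | rfl | (exfalso; simp at hij; linarith)
      · intro i
        refine ⟨?_, ?_⟩
        · rw [Module.End.mem_eigenspace_iff, LieAlgebra.ad_apply]
          fin_cases i
          · change ⁅(τ φ : L), v 0⁆ = q • v 0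
            rw [v0, e1]
          · change ⁅(τ φ : L), v 1⁆ = (-q) • v 1
            rw [v1, e2]
          · change ⁅(τ φ : L), v 2⁆ = (2 * q) • v 2
            rw [v2, e3]
          · change ⁅(τ φ : L), v 3⁆ = (0 : ℝ) • v 3
            rw [v3, lie_self, zero_smul]
        · fin_cases i
          · change v 0 ≠ 0
            rw [v0]; exact hx0
          · change v 1 ≠ 0
            rw [v1]; exact theta_ne71 hx0
          · change v 2 ≠ 0
            rw [v2]; exact hx'0
          · change v 3 ≠ 0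
            rw [v3]; exact ht0
    have h2 := card_le71 h (φ := φ) (v := v) (fun i => by
      fin_cases i
      · change v 0 ∈ lev A φ
        rw [v0]; exact mem_lev_one71 hx
      · change v 1 ∈ lev A φ
        rw [v1]; exact mem_lev_neg71 (hx.theta hA)
      · change v 2 ∈ lev A φ
        rw [v2]; exact mem_lev71 two_ne_zero hx'
      · change v 3 ∈ lev A φ
        rw [v3]; exact tau_mem_lev71 h hA hτ hx0 hx) hli
    omega

end Pool.Agent.Helper77.ST
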