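import Pool.Agent.Helper77.ST.ACls

/-!
# Project OB, layer ST, block ST-F1: multiplicities in type `A_2` and in type `B_2` with a short root of multiplicity one

(0) `inj_ad`: let `x` be of weight `φ`, `z` of weight `ψ`, `[θ x, z] = 0`, `[x, z] = 0`, `ψ (τ φ) ≠ 0`, `x ≠ 0`: then `z = 0`, because `0 = [θ x, [x, z]] = [[θ x, x], z] + [x, [θ x, z]] = -κ(x, θ x) ψ (τ φ) z` (`lie_theta_self`, `pos`). The same with `θ x` in the place of `x`: `inj_ad'`.
(1) `one_A2`: all root spaces have dimension one. `x ≠ 0` of weight `al`: `ad x` is injective from `rsp A be` to `rsp A (al + be)` (`be - al` is no root, `be (τ al) = -μ ≠ 0`). `y ≠ 0` of weight `be`: `ad (θ y)` is injective from `rsp A (al + be)` to `rsp A al` (`al + 2 be` is no root, `(al + be)(τ be) = μ ≠ 0`). So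
`One A al` implies `One A (al + be)` and then `One A be`. The negative roots: `θ`. The roots are `±al, ±be, ±(al + be)`.
(2) `one_B2`: here `be` is the long root, `al` the short root (list `lB2` for `be, al`: roots `±be, ±al, ±(be + al), ±(be + 2 al)`). `x ≠ 0` of weight `al`, `y ≠ 0` of weight `be`. `ad (θ y)`: `rsp A (al + be) → rsp A al` is injective (`al + 2 be` is no root, `(al + be)(τ be) = -ν + 2 ν ≠ 0`), so `One A (al + be)`. `ad x`: `rsp A be → rsp A (al + be)` is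
injective (`be - al` is no root, `be (τ al) = -ν ≠ 0`), so `One A be`.
-/

set_option autoImplicit false

namespace Pool.Agent.Helper77.ST

open Pool.Agent.Helper96.SA Pool.Agent.Helper96.TO Pool.Agent.Helper69.SLN Pool.Agent.Helper77.LA Pool.Agent.Helper77.TZ2

variable {L : Type} [LieRing L] [LieAlgebra ℝ L] {N : ℕ} {θ : L ≃ₗ⁅ℝ⁆ L} {b : Module.Basis (Fin N) ℝ L} {A : Submodule ℝ L}
  {τ : Module.Dual ℝ A ≃ₗ[ℝ] A} {al be : Module.Dual ℝ A} {r p : L} {ν : ℝ}

theorem inj_ad (h : CartanBasis θ b) (hA : MaxFlat θ A)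
    (hτ : ∀ (φ : Module.Dual ℝ A) (a : A), killingForm ℝ L (τ φ : L) (a : L) = φ a) {φ ψ : Module.Dual ℝ A} {x z : L} (hx : Wv A φ x)
    (hx0 : x ≠ 0) (hz : Wv A ψ z) (h0 : ψ (τ φ) ≠ 0) (h1 : ⁅θ x, z⁆ = 0) (h2 : ⁅x, z⁆ = 0) : z = 0 := by
  have e1 : ⁅θ x, x⁆ = -(killingForm ℝ L x (θ x) • (τ φ : L)) := by
    rw [← lie_theta_self hτ h hA hx, lie_skew]
  have e2 : ⁅θ x, ⁅x, z⁆⁆ = ⁅⁅θ x, x⁆, z⁆ + ⁅x, ⁅θ x, z⁆⁆ := leibniz_lie _ _ _
  rw [h2, lie_zero, h1, lie_zero, add_zero, e1, neg_lie, smul_lie, hz (τ φ), smul_smul] at e2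
  have e3 := neg_eq_zero.1 e2.symm
  rcases smul_eq_zero.1 e3 with h3 | h3
  · have h4 := Pool.Agent.Helper69.SLN.pos h hx0
    rcases mul_eq_zero.1 h3 with h5 | h5
    · rw [h5] at h4
      simp at h4
    · exact absurd h5 h0
  · exact h3

private theorem one_of4 (h : CartanBasis θ b) (hA : MaxFlat θ A)
    (hτ : ∀ (φ : Module.Dual ℝ A) (a : A), killingForm ℝ L (τ φ : L) (a : L) = φ a) {φ ψ : Module.Dual ℝ A} {x : L} (hx : Wv A φ x)
    (hx0 : x ≠ 0) (h0 : ψ (τ φ) ≠ 0) (hr : -φ + ψ ∉ rootsL A) (hr0 : -φ + ψ ≠ 0) (ho : One A (φ + ψ)) : One A ψ := by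
  intro y z hy hz hy0
  have hv : ∀ w : L, Wv A ψ w → ⁅θ x, w⁆ = 0 := fun w hw => ((hx.theta hA).lie hw).eq_zero hr hr0
  have hxy : ⁅x, y⁆ ≠ 0 := fun he => hy0 (inj_ad h hA hτ hx hx0 hy h0 (hv y hy) he)
  obtain ⟨c, hc⟩ := ho _ _ (hx.lie hy) (hx.lie hz) hxy
  refine ⟨c, ?_⟩
  have hw : Wv A ψ (z - c • y) := by
    rw [sub_eq_add_neg]
    intro a
    rw [lie_add, hz a, ((hy.smul c).neg) a, smul_add]
  have h3 : ⁅x, z - c • y⁆ = 0 := by
    rw [_root_.lie_sub, lie_smul, hc, sub_self]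
  exact sub_eq_zero.1 (inj_ad h hA hτ hx hx0 hw h0 (hv _ hw) h3)

private theorem one_neg4 (h : CartanBasis θ b) (hA : MaxFlat θ A) {φ : Module.Dual ℝ A} (ho : One A φ) : One A (-φ) := by
  intro y z hy hz hy0
  have hy1 := hy.theta hA
  have hz1 := hz.theta hA
  rw [neg_neg] at hy1 hz1
  have hy2 : θ y ≠ 0 := fun he => hy0 (by rw [← h.invol y, he, map_zero])
  obtain ⟨c, hc⟩ := ho _ _ hy1 hz1 hy2
  refine ⟨c, ?_⟩
  rw [← h.invol z, hc, map_smul, h.invol]

private theorem coef4 {al be : Module.Dual ℝ A} (ind : ∀ s t : ℝ, s • al + t • be = 0 → s = 0 ∧ t = 0) {s t s' t' : ℝ}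
    (he : s • al + t • be = s' • al + t' • be) : s = s' ∧ t = t' := by
  have h1 : (s - s') • al + (t - t') • be = 0 := by
    have : (s - s') • al + (t - t') • be = (s • al + t • be) - (s' • al + t' • be) := by module
    rw [this, he, sub_self]
  obtain ⟨h2, h3⟩ := ind _ _ h1
  exact ⟨by linarith, by linarith⟩

private theorem nr4 {al be : Module.Dual ℝ A} (ind : ∀ s t : ℝ, s • al + t • be = 0 → s = 0 ∧ t = 0) {S : List (ℕ × ℕ)}
    (hR : RL A al be S) {φ : Module.Dual ℝ A} {s t : ℝ} (hφ : φ = s • al + t • be)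
    (hS : ∀ p ∈ S, ¬ (s = p.1 ∧ t = p.2) ∧ ¬ (s = -p.1 ∧ t = -p.2)) : φ ∉ rootsL A := by
  intro hr
  obtain ⟨p, hp, h1 | h1⟩ := (hR φ).1 hr
  · rw [hφ] at h1
    exact (hS p hp).1 (coef4 ind h1)
  · rw [hφ] at h1
    have h2 : -((p.1 : ℝ) • al + (p.2 : ℝ) • be) = (-(p.1 : ℝ)) • al + (-(p.2 : ℝ)) • be := by module
    rw [h2] at h1
    exact (hS p hp).2 (coef4 ind h1)

theorem one_A2 (h : CartanBasis θ b) (hA : MaxFlat θ A)
    (hτ : ∀ (φ : Module.Dual ℝ A) (a : A), killingForm ℝ L (τ φ : L) (a : L) = φ a)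
    (ind : ∀ s t : ℝ, s • al + t • be = 0 → s = 0 ∧ t = 0) (hR : RL A al be lA2) {μ : ℝ} (hμ : 0 < μ) (haa : al (τ al) = 2 * μ)
    (hbb : be (τ be) = 2 * μ) (hab : al (τ be) = -μ) (hba : be (τ al) = -μ) (h1 : One A al) : ∀ φ ∈ rootsL A, One A φ := by
  have ral : al ∈ rootsL A := (hR al).2 ⟨(1, 0), by simp [lA2], Or.inl (by push_cast; module)⟩
  have rbe : be ∈ rootsL A := (hR be).2 ⟨(0, 1), by simp [lA2], Or.inl (by push_cast; module)⟩
  obtain ⟨hal0, x, hx0, hx⟩ := ral
  obtain ⟨hbe0, y, hy0, hy⟩ := rbe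
  have hx : Wv A al x := hx
  have hy : Wv A be y := hy
  have hty : Wv A (-be) (θ y) := hy.theta hA
  have hty0 : θ y ≠ 0 := fun he => hy0 (by rw [← h.invol y, he, map_zero])
  have o2 : One A (al + be) := by
    refine one_of4 h hA hτ hty hty0 ?_ ?_ ?_ ?_
    · rw [map_neg, map_neg, LinearMap.add_apply, hab, hbb]
      intro hc
      linarith
    · refine nr4 ind hR (s := 1) (t := 2) (by module) ?_
      intro p hp
      simp only [lA2, List.mem_cons, List.not_mem_nil, or_false] at hp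
      rcases hp with rfl | rfl | rfl <;> norm_num
    · intro hc
      have := (ind 1 2 (by rw [← hc]; module)).1
      norm_num at this
    · have : -be + (al + be) = al := by abel
      rw [this]
      exact h1
  have o3 : One A be := by
    refine one_of4 h hA hτ hx hx0 ?_ ?_ ?_ o2
    · rw [hba]
      intro hc
      linarith
    · refine nr4 ind hR (s := -1) (t := 1) (by module) ?_
      intro p hp
      simp only [lA2, List.mem_cons, List.not_mem_nil, or_false] at hp
      rcases hp with rfl | rfl | rfl <;> norm_num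
    · intro hc
      have := (ind (-1) 1 (by rw [← hc]; module)).2
      norm_num at this
  intro φ hφ
  obtain ⟨p, hp, h2⟩ := (hR φ).1 hφ
  simp only [lA2, List.mem_cons, List.not_mem_nil, or_false] at hp
  have key : One A ((p.1 : ℝ) • al + (p.2 : ℝ) • be) := by
    rcases hp with rfl | rfl | rfl
    · simpa using h1
    · simpa using o3
    · simpa using o2
  rcases h2 with h2 | h2
  · rw [h2]
    exact key
  · rw [h2]
    exact one_neg4 h hA key

theorem one_B2 (h : CartanBasis θ b) (hA : MaxFlat θ A)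
    (hτ : ∀ (φ : Module.Dual ℝ A) (a : A), killingForm ℝ L (τ φ : L) (a : L) = φ a)
    (ind : ∀ s t : ℝ, s • al + t • be = 0 → s = 0 ∧ t = 0) (hR : RL A be al lB2) (hi : IP2 τ be al ν) (h1 : One A al) : One A be := by
  have ind' : ∀ s t : ℝ, s • be + t • al = 0 → s = 0 ∧ t = 0 := by
    intro s t hst
    have := ind t s (by rw [add_comm]; exact hst)
    exact ⟨this.2, this.1⟩
  have ral : al ∈ rootsL A := (hR al).2 ⟨(0, 1), by simp [lB2], Or.inl (by push_cast; module)⟩
  have rbe : be ∈ rootsL A := (hR be).2 ⟨(1, 0), by simp [lB2], Or.inl (by push_cast; module)⟩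
  obtain ⟨hal0, x, hx0, hx⟩ := ral
  obtain ⟨hbe0, y, hy0, hy⟩ := rbe
  have hx : Wv A al x := hx
  have hy : Wv A be y := hy
  have hty : Wv A (-be) (θ y) := hy.theta hA
  have hty0 : θ y ≠ 0 := fun he => hy0 (by rw [← h.invol y, he, map_zero])
  have hν := hi.pos
  have o2 : One A (al + be) := by
    refine one_of4 h hA hτ hty hty0 ?_ ?_ ?_ ?_
    · rw [map_neg, map_neg, LinearMap.add_apply, hi.ba, hi.aa]
      intro hc
      linarith
    · refine nr4 ind' hR (s := 2) (t := 1) (by module) ?_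
      intro p hp
      simp only [lB2, List.mem_cons, List.not_mem_nil, or_false] at hp
      rcases hp with rfl | rfl | rfl | rfl <;> norm_num
    · intro hc
      have := (ind' 2 1 (by rw [← hc]; module)).1
      norm_num at this
    · have : -be + (al + be) = al := by abel
      rw [this]
      exact h1
  refine one_of4 h hA hτ hx hx0 ?_ ?_ ?_ o2
  · rw [hi.ab]
    intro hc
    linarith
  · refine nr4 ind' hR (s := 1) (t := -1) (by module) ?_
    intro p hp
    simp only [lB2, List.mem_cons, List.not_mem_nil, or_false] at hp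
    rcases hp with rfl | rfl | rfl | rfl <;> norm_num
  · intro hc
    have := (ind' 1 (-1) (by rw [← hc]; module)).1
    norm_num at this

end Pool.Agent.Helper77.ST
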