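import Pool.Agent.Helper77.ST.Defs

/-!
# Project OB, layer ST, block ST-F2: the list `lA2` is of type `A` in the sense of `IsTypeA`

PROOF. `S = {0, al, al + be}`: the differences of different elements are `±al`, `±(al + be)`, `±be`. Affinely independent: `affineIndependent_iff_linearIndependent_vsub` with base point `0`, or from `ind` by `affineIndependent_iff` (if `c0 + c1 + c2 = 0` and `c1 al + c2 (al + be) = 0`, then `c1 + c2 = 0`, `c2 = 0`).
-/

set_option autoImplicit false

namespace Pool.Agent.Helper77.ST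

open Pool.Agent.Helper96.SA Pool.Agent.Helper96.TO Pool.Agent.Helper69.SLN Pool.Agent.Helper77.LA Pool.Agent.Helper77.TZ2

variable {L : Type} [LieRing L] [LieAlgebra ℝ L] {N : ℕ} {θ : L ≃ₗ⁅ℝ⁆ L} {b : Module.Basis (Fin N) ℝ L} {A : Submodule ℝ L}
  {τ : Module.Dual ℝ A ≃ₗ[ℝ] A} {al be : Module.Dual ℝ A} {r p : L} {ν : ℝ}

theorem isTypeA_of_lA2 (ind : ∀ s t : ℝ, s • al + t • be = 0 → s = 0 ∧ t = 0) (hR : RL A al be lA2) : IsTypeA (rootsL A) := by
  have hp : AffineIndependent ℝ ![(0 : Module.Dual ℝ A), al, al + be] := by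
    rw [affineIndependent_iff]
    intro s w h1 h2
    have h3 : ∀ e, (if e ∈ s then w e else 0) = 0 := by
      have h4 : ∑ e : Fin 3, (if e ∈ s then w e else 0) = 0 := by
        rw [Finset.sum_ite_mem, Finset.univ_inter]
        exact h1
      have h5 : ∑ e : Fin 3, (if e ∈ s then w e else 0) • (![(0 : Module.Dual ℝ A), al, al + be] e) = 0 := by
        simp only [ite_smul, zero_smul]
        rw [Finset.sum_ite_mem, Finset.univ_inter]
        exact h2
      set v : Fin 3 → ℝ := fun e => if e ∈ s then w e else 0 with hv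
      have h6 : v 0 + v 1 + v 2 = 0 := by rw [← h4, Fin.sum_univ_three]
      have h7 : v 1 • al + v 2 • (al + be) = 0 := by
        rw [← h5, Fin.sum_univ_three]
        simp [hv]
      have h8 : (v 1 + v 2) • al + v 2 • be = 0 := by
        rw [← h7]
        module
      obtain ⟨h9, h10⟩ := ind _ _ h8
      intro e
      show v e = 0
      fin_cases e
      · show v 0 = 0
        linarith
      · show v 1 = 0
        linarith
      · show v 2 = 0
        exact h10
    intro e he
    have := h3 e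
    rwa [if_pos he] at this
  have hne : ∀ i j : Fin 3, i ≠ j → ![(0 : Module.Dual ℝ A), al, al + be] i ≠ ![(0 : Module.Dual ℝ A), al, al + be] j :=
    fun i j hij => hp.injective.ne hij
  refine ⟨Set.range ![(0 : Module.Dual ℝ A), al, al + be], hp.range, ?_⟩
  ext φ
  rw [hR φ]
  constructor
  · rintro ⟨q, hq, hφ⟩
    have hq' : q = (1, 0) ∨ q = (0, 1) ∨ q = (1, 1) := by simpa [lA2] using hq
    rcases hq' with rfl | rfl | rfl
    · rcases hφ with rfl | rfl
      · exact ⟨_, ⟨1, rfl⟩, _, ⟨0, rfl⟩, hne 1 0 (by decide), by simp⟩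
      · exact ⟨_, ⟨0, rfl⟩, _, ⟨1, rfl⟩, hne 0 1 (by decide), by simp⟩
    · rcases hφ with rfl | rfl
      · exact ⟨_, ⟨2, rfl⟩, _, ⟨1, rfl⟩, hne 2 1 (by decide), by simp⟩
      · exact ⟨_, ⟨1, rfl⟩, _, ⟨2, rfl⟩, hne 1 2 (by decide), by simp⟩
    · rcases hφ with rfl | rfl
      · exact ⟨_, ⟨2, rfl⟩, _, ⟨0, rfl⟩, hne 2 0 (by decide), by simp⟩
      · exact ⟨_, ⟨0, rfl⟩, _, ⟨2, rfl⟩, hne 0 2 (by decide), by simp⟩
  · rintro ⟨_, ⟨i, rfl⟩, _, ⟨j, rfl⟩, hij, rfl⟩
    have key : ∀ i j : Fin 3, i ≠ j → ∃ q ∈ lA2,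
        ![(0 : Module.Dual ℝ A), al, al + be] i - ![(0 : Module.Dual ℝ A), al, al + be] j =
          (q.1 : ℝ) • al + (q.2 : ℝ) • be ∨
        ![(0 : Module.Dual ℝ A), al, al + be] i - ![(0 : Module.Dual ℝ A), al, al + be] j =
          -((q.1 : ℝ) • al + (q.2 : ℝ) • be) := by
      intro i j hij
      fin_cases i <;> fin_cases j
      · exact absurd rfl hij
      · exact ⟨(1, 0), by simp [lA2], Or.inr (by simp)⟩
      · exact ⟨(1, 1), by simp [lA2], Or.inr (by simp)⟩
      · exact ⟨(1, 0), by simp [lA2], Or.inl (by simp)⟩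
      · exact absurd rfl hij
      · exact ⟨(0, 1), by simp [lA2], Or.inr (by simp)⟩
      · exact ⟨(1, 1), by simp [lA2], Or.inl (by simp)⟩
      · exact ⟨(0, 1), by simp [lA2], Or.inl (by simp)⟩
      · exact absurd rfl hij
    exact key i j fun h => hij (by rw [h])

end Pool.Agent.Helper77.ST
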