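import Pool.Agent.Helper77.ST.ETk
import Pool.Agent.Helper77.ST.ELev
import Pool.Agent.Helper77.ST.EOne
import Pool.Agent.Helper77.ST.FOne
import Pool.Agent.Helper77.ST.FTyp
import Pool.Agent.Helper77.ST.ASim

/-!
# Project OB (MP_0f6f3f_an), layer ST: simple Lie algebras of rank two with a simple root of multiplicity one

`st_main`: `L` simple, `al`, `be` the simple roots of a positive system of the restricted roots (rank two), the root space of `al` of dimension one, `2 al` no root. Then `L` is isomorphic to `sl(3, ℝ)`, or the root system is of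
type `G_2`, or `L` is isomorphic to `so(2, n)`, `n ≥ 3`, and the subalgebra generated by the root spaces of the multiples of the other simple root `be` has dimension `n (n - 1) / 2`.
-/

set_option autoImplicit false

namespace Pool.Agent.Helper77.ST

open Pool.Agent.Helper96.SA Pool.Agent.Helper96.TO Pool.Agent.Helper69.SLN Pool.Agent.Helper77.LA Pool.Agent.Helper77.TZ2
open Pool.Agent.Helper55.OB

attribute [local instance 100] LieRing.ofAssociativeRing

variable {L : Type} [LieRing L] [LieAlgebra ℝ L] {N : ℕ} {θ : L ≃ₗ⁅ℝ⁆ L} {b : Module.Basis (Fin N) ℝ L} {A : Submodule ℝ L}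
  {al be : Module.Dual ℝ A}

theorem ind_swap (ind : ∀ s t : ℝ, s • al + t • be = 0 → s = 0 ∧ t = 0) : ∀ s t : ℝ, s • be + t • al = 0 → s = 0 ∧ t = 0 := by
  intro s t hst
  rw [add_comm] at hst
  exact (ind t s hst).symm

/-- The multiples of a simple root in type `B_2`. -/
theorem mult_B2 (ind : ∀ s t : ℝ, s • al + t • be = 0 → s = 0 ∧ t = 0) (hR : RL A al be lB2) {c : ℝ} (hc : c • al ∈ rootsL A) :
    c = 1 ∨ c = -1 := by
  obtain ⟨p, hp, h1⟩ := (hR _).1 hc
  have key : ∀ m n s : ℝ, c • al = s • (m • al + n • be) → c = s * m ∧ s * n = 0 := by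
    intro m n s h2
    have h3 : (c - s * m) • al + (-(s * n)) • be = 0 := by
      rw [← sub_eq_zero.2 h2]
      module
    obtain ⟨h4, h5⟩ := ind _ _ h3
    exact ⟨by linarith, by linarith⟩
  have h2 : ∃ s : ℝ, (s = 1 ∨ s = -1) ∧ c = s * p.1 ∧ s * (p.2 : ℝ) = 0 := by
    rcases h1 with h1 | h1
    · exact ⟨1, Or.inl rfl, key _ _ 1 (by rw [one_smul]; exact h1)⟩
    · exact ⟨-1, Or.inr rfl, key _ _ (-1) (by rw [h1]; module)⟩
  obtain ⟨s, hs, h3, h4⟩ := h2
  simp only [lB2, List.mem_cons, List.not_mem_nil, or_false] at hp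
  rcases hs with rfl | rfl <;> rcases hp with rfl | rfl | rfl | rfl <;> norm_num at h3 h4
  · exact Or.inl h3
  · exact Or.inr h3

theorem st_main [LieAlgebra.IsSimple ℝ L] (h : CartanBasis θ b) (hA : MaxFlat θ A) (h2 : Module.finrank ℝ A = 2)
    (hs : SimPair A al be) (h1 : One A al) (hd : (2 : ℝ) • al ∉ rootsL A) :
    Nonempty (L ≃ₗ⁅ℝ⁆ LieAlgebra.SpecialLinear.sl (Fin 3) ℝ) ∨ (RL A al be lG2 ∨ RL A be al lG2) ∨
      ∃ n : ℕ, 3 ≤ n ∧ Nonempty (L ≃ₗ⁅ℝ⁆ so2 (n + 2)) ∧ Module.finrank ℝ (lev A be) = n * (n - 1) / 2 ∧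
        (RL A al be lB2 ∨ RL A be al lB2) := by
  have hF : Module.Finite ℝ L := Module.Finite.of_basis b
  obtain ⟨τ, hτ⟩ := exists_tau h hA
  rcases classify h hA hτ hs with ⟨hR, μ, hμ, haa, hbb, hab, hba⟩ | ⟨hR, ν, hi⟩ | ⟨hR, ν, hi⟩ | hR | hR
  · left
    have h3 := iso_sl_of_typeA h hA (by omega) (isTypeA_of_lA2 hs.ind hR)
      (fun φ hφ => one_A2 h hA hτ hs.ind hR hμ haa hbb hab hba h1 φ hφ)
    rw [h2] at h3
    exact h3
  · right; right
    obtain ⟨r, p, c⟩ := exists_cn h hA hτ hs.ind hR hi h1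
    have hpos : 0 < Module.finrank ℝ (rsp A be) := by
      obtain ⟨-, x, hx0, hx⟩ := hs.hb
      have : Nontrivial (rsp A be) := ⟨⟨⟨x, hx⟩, 0, fun h4 => hx0 (congrArg Subtype.val h4)⟩⟩
      exact Module.finrank_pos
    refine ⟨Module.finrank ℝ (rsp A be) + 2, by omega, c.iso, ?_, Or.inl c.hB⟩
    rw [c.finrank_lev]
    rfl
  · right; right
    have hR' : RL A be al lB2 := by
      rcases hR with hR | hR
      · exact hR
      · exfalso
        apply hd
        rw [hR]
        exact ⟨(0, 2), by simp [lBC2], Or.inl (by simp)⟩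
    have hone : One A be := one_B2 h hA hτ hs.ind hR' hi h1
    obtain ⟨r, p, c⟩ := exists_cn h hA hτ (ind_swap hs.ind) hR hi hone
    have h3 : Module.finrank ℝ (rsp A al) = 1 := finrank_rsp hs.ha h1
    have h4 := c.iso
    rw [h3] at h4
    refine ⟨3, le_rfl, h4, ?_, Or.inr c.hB⟩
    rw [finrank_lev_one h hA hs.hb hone fun t ht => mult_B2 (ind_swap hs.ind) hR' ht]
  · exact Or.inr (Or.inl (Or.inl hR))
  · exact Or.inr (Or.inl (Or.inr hR))

end Pool.Agent.Helper77.ST
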