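import Pool.Agent.Helper77.ST.Defs

/-!
# Project OB, layer ST, block ST-A4: enumeration of the roots of rank two

`P m n`: `m al + n be` is a root. `hA`, `hB`: the reflections (`al` is not shorter than `be`; the Cartan integers are `1` and `q`).
PROOF. Let `P m n`. We show that `(m, n)` or `(-m, -n)` is in the list; by `hneg`, `hs` let `0 ≤ m`, `0 ≤ n`. If `n = 0`: `hal`. If `m = 0`: `hbe`. Let `0 < m`, `0 < n`. `hA` gives `P (n - m) n`, so `m ≤ n` by `hs`. `hB` gives `P m (q m - n)`,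
so `n ≤ q m`. [I]: `0 < m, n` imply `m ≤ n ≤ q m`. If `m = n`: `P 0 n`, so `n = 1` or (`n = 2`, `q = 2`). If `n = q m`: `P m 0`, so `m = 1`. So let `m < n < q m`; in particular `q ≥ 2`. [I] for `(n - m, n)`: `n ≤ q (n - m)`.
For `q = 2`: `2 m ≤ n`, a contradiction. For `q = 3`: `3 m ≤ 2 n`. [I] for `(m, 3 m - n)`: `m ≤ 3 m - n`, `n ≤ 2 m`. If `n = 2 m`: `P m m` by `hB`, `P 0 m` by `hA`, `m = 1`: `(1, 2)`. If `3 m = 2 n`: `(n - m, n) = (k, 3 k)`,
`P k 0` by `hB`, `k = 1`, `(m, n) = (2, 3)`. Otherwise `3 m < 2 n`, `n < 2 m`: `(m', n) = (n - m, n)` satisfies `m' < n < 3 m'`, so `n ≤ 2 m'` by the same argument, `2 m ≤ n`, a contradiction.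
The elements of the lists are roots by the reflections: `(1, 1) = s_al (0, 1)`, `(1, q) = s_be (1, 0)`, `(2, 3) = s_al (1, 3)`, `(1, 2) = s_be (1, 1)` (`q = 3`), `(2, 2) = s_al (0, 2)`. For `q = 2` the case distinction `lB2` / `lBC2` is
whether `P 0 2`.
-/

set_option autoImplicit false

namespace Pool.Agent.Helper77.ST

/-- `(m, n)` or `(-m, -n)` is in the list. -/
def InL (S : List (ℕ × ℕ)) (m n : ℤ) : Prop := ∃ p ∈ S, (m = p.1 ∧ n = p.2) ∨ (m = -(p.1 : ℤ) ∧ n = -(p.2 : ℤ))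

private lemma neg65 {S : List (ℕ × ℕ)} {m n : ℤ} (h : InL S (-m) (-n)) : InL S m n := by
  obtain ⟨p, hp, h⟩ := h
  exact ⟨p, hp, by omega⟩

private lemma inA65 {m n : ℤ} : InL lA2 m n ↔ (m = 1 ∧ n = 0) ∨ (m = -1 ∧ n = 0) ∨ (m = 0 ∧ n = 1) ∨
    (m = 0 ∧ n = -1) ∨ (m = 1 ∧ n = 1) ∨ (m = -1 ∧ n = -1) := by
  unfold InL lA2
  simp only [List.mem_cons, List.not_mem_nil, or_false, exists_eq_or_imp, exists_eq_left, Nat.cast_zero, Nat.cast_one,
    Nat.cast_ofNat, neg_zero, or_assoc]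

private lemma inB65 {m n : ℤ} : InL lB2 m n ↔ (m = 1 ∧ n = 0) ∨ (m = -1 ∧ n = 0) ∨ (m = 0 ∧ n = 1) ∨
    (m = 0 ∧ n = -1) ∨ (m = 1 ∧ n = 1) ∨ (m = -1 ∧ n = -1) ∨ (m = 1 ∧ n = 2) ∨ (m = -1 ∧ n = -2) := by
  unfold InL lB2
  simp only [List.mem_cons, List.not_mem_nil, or_false, exists_eq_or_imp, exists_eq_left, Nat.cast_zero, Nat.cast_one,
    Nat.cast_ofNat, neg_zero, or_assoc]

private lemma inC65 {m n : ℤ} : InL lBC2 m n ↔ (m = 1 ∧ n = 0) ∨ (m = -1 ∧ n = 0) ∨ (m = 0 ∧ n = 1) ∨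
    (m = 0 ∧ n = -1) ∨ (m = 1 ∧ n = 1) ∨ (m = -1 ∧ n = -1) ∨ (m = 1 ∧ n = 2) ∨ (m = -1 ∧ n = -2) ∨
    (m = 0 ∧ n = 2) ∨ (m = 0 ∧ n = -2) ∨ (m = 2 ∧ n = 2) ∨ (m = -2 ∧ n = -2) := by
  unfold InL lBC2
  simp only [List.mem_cons, List.not_mem_nil, or_false, exists_eq_or_imp, exists_eq_left, Nat.cast_zero, Nat.cast_one,
    Nat.cast_ofNat, neg_zero, or_assoc]

private lemma inG65 {m n : ℤ} : InL lG2 m n ↔ (m = 1 ∧ n = 0) ∨ (m = -1 ∧ n = 0) ∨ (m = 0 ∧ n = 1) ∨
    (m = 0 ∧ n = -1) ∨ (m = 1 ∧ n = 1) ∨ (m = -1 ∧ n = -1) ∨ (m = 1 ∧ n = 2) ∨ (m = -1 ∧ n = -2) ∨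
    (m = 1 ∧ n = 3) ∨ (m = -1 ∧ n = -3) ∨ (m = 2 ∧ n = 3) ∨ (m = -2 ∧ n = -3) := by
  unfold InL lG2
  simp only [List.mem_cons, List.not_mem_nil, or_false, exists_eq_or_imp, exists_eq_left, Nat.cast_zero, Nat.cast_one,
    Nat.cast_ofNat, neg_zero, or_assoc]

theorem enum {P : ℤ → ℤ → Prop} {q : ℤ} (hq : q = 1 ∨ q = 2 ∨ q = 3) (h10 : P 1 0) (h01 : P 0 1)
    (hneg : ∀ m n, P m n → P (-m) (-n)) (hs : ∀ m n, P m n → (0 ≤ m ∧ 0 ≤ n) ∨ (m ≤ 0 ∧ n ≤ 0))
    (hA : ∀ m n, P m n → P (n - m) n) (hB : ∀ m n, P m n → P m (q * m - n)) (h0 : ¬ P 0 0)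
    (hal : ∀ m, 0 < m → P m 0 → m = 1) (hbe : ∀ n, 0 < n → P 0 n → n = 1 ∨ (n = 2 ∧ q = 2)) :
    (q = 1 ∧ ∀ m n, P m n ↔ InL lA2 m n) ∨ (q = 2 ∧ ∀ m n, P m n ↔ InL lB2 m n) ∨ (q = 2 ∧ ∀ m n, P m n ↔ InL lBC2 m n) ∨
      (q = 3 ∧ ∀ m n, P m n ↔ InL lG2 m n) := by
  have I : ∀ m n, P m n → 0 < m → 0 < n → m ≤ n ∧ n ≤ q * m := by
    intro m n h hm hn
    have h1 := hs _ _ (hA m n h)
    have h2 := hs _ _ (hB m n h)
    refine ⟨by omega, ?_⟩
    rcases h2 with h2 | h2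
    · linarith [h2.2]
    · linarith [h2.1]
  have h11 : P 1 1 := by
    have h := hA 0 1 h01
    norm_num at h
    exact h
  have n10 := hneg _ _ h10
  have n01 := hneg _ _ h01
  have n11 := hneg _ _ h11
  have hD : ∀ m, 0 < m → P m m → P 0 m := by
    intro m _ h
    have h1 := hA m m h
    rwa [sub_self] at h1
  rcases hq with rfl | rfl | rfl
  · left
    refine ⟨rfl, fun m n => ?_⟩
    rw [neg_zero] at n10 n01
    have key : ∀ m n, P m n → 0 ≤ m → 0 ≤ n → (m = 1 ∧ n = 0) ∨ (m = 0 ∧ n = 1) ∨ (m = 1 ∧ n = 1) := by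
      intro m n h hm hn
      rcases hm.eq_or_lt with rfl | hm
      · rcases hn.eq_or_lt with rfl | hn
        · exact absurd h h0
        · have := hbe n hn h
          omega
      · rcases hn.eq_or_lt with rfl | hn
        · have := hal m hm h
          omega
        · have h1 := I m n h hm hn
          obtain rfl : m = n := by omega
          have := hbe m hm (hD m hm h)
          omega
    have key2 : ∀ m n, P m n → 0 ≤ m → 0 ≤ n → InL lA2 m n := by
      intro m n h hm hn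
      rw [inA65]
      rcases key m n h hm hn with ⟨rfl, rfl⟩ | ⟨rfl, rfl⟩ | ⟨rfl, rfl⟩ <;> simp
    constructor
    · intro h
      rcases hs m n h with h1 | h1
      · exact key2 m n h h1.1 h1.2
      · exact neg65 (key2 _ _ (hneg _ _ h) (by omega) (by omega))
    · rw [inA65]
      rintro (⟨rfl, rfl⟩ | ⟨rfl, rfl⟩ | ⟨rfl, rfl⟩ | ⟨rfl, rfl⟩ | ⟨rfl, rfl⟩ | ⟨rfl, rfl⟩) <;> assumption
  · have h12 : P 1 2 := by
      have h := hB 1 0 h10
      norm_num at h
      exact h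
    have n12 := hneg _ _ h12
    have key : ∀ m n, P m n → 0 ≤ m → 0 ≤ n → (m = 1 ∧ n = 0) ∨ (m = 0 ∧ n = 1) ∨ (m = 1 ∧ n = 1) ∨
        (m = 1 ∧ n = 2) ∨ (m = 0 ∧ n = 2) ∨ (m = 2 ∧ n = 2 ∧ P 0 2) := by
      intro m n h hm hn
      rcases hm.eq_or_lt with rfl | hm
      · rcases hn.eq_or_lt with rfl | hn
        · exact absurd h h0
        · have := hbe n hn h
          omega
      · rcases hn.eq_or_lt with rfl | hn
        · have := hal m hm h
          omega
        · have h1 := I m n h hm hn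
          rcases h1.1.eq_or_lt with rfl | h2
          · have h3 := hD m hm h
            rcases hbe m hm h3 with rfl | ⟨rfl, _⟩
            · omega
            · exact Or.inr (Or.inr (Or.inr (Or.inr (Or.inr ⟨rfl, rfl, h3⟩))))
          · rcases h1.2.eq_or_lt with rfl | h4
            · have h5 := hB m _ h
              rw [sub_self] at h5
              have := hal m hm h5
              omega
            · have h5 := I _ _ (hA m n h) (by omega) hn
              omega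
    right
    by_cases h02 : P 0 2
    · right; left
      have h22 : P 2 2 := by
        have h := hA 0 2 h02
        norm_num at h
        exact h
      have n02 := hneg _ _ h02
      have n22 := hneg _ _ h22
      rw [neg_zero] at n10 n01 n02
      refine ⟨rfl, fun m n => ?_⟩
      have key2 : ∀ m n, P m n → 0 ≤ m → 0 ≤ n → InL lBC2 m n := by
        intro m n h hm hn
        rw [inC65]
        rcases key m n h hm hn with ⟨rfl, rfl⟩ | ⟨rfl, rfl⟩ | ⟨rfl, rfl⟩ | ⟨rfl, rfl⟩ | ⟨rfl, rfl⟩ | ⟨rfl, rfl, _⟩ <;> simp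
      constructor
      · intro h
        rcases hs m n h with h1 | h1
        · exact key2 m n h h1.1 h1.2
        · exact neg65 (key2 _ _ (hneg _ _ h) (by omega) (by omega))
      · rw [inC65]
        rintro (⟨rfl, rfl⟩ | ⟨rfl, rfl⟩ | ⟨rfl, rfl⟩ | ⟨rfl, rfl⟩ | ⟨rfl, rfl⟩ | ⟨rfl, rfl⟩ | ⟨rfl, rfl⟩ |
          ⟨rfl, rfl⟩ | ⟨rfl, rfl⟩ | ⟨rfl, rfl⟩ | ⟨rfl, rfl⟩ | ⟨rfl, rfl⟩) <;> assumption
    · left
      rw [neg_zero] at n10 n01
      refine ⟨rfl, fun m n => ?_⟩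
      have key' : ∀ m n, P m n → 0 ≤ m → 0 ≤ n → (m = 1 ∧ n = 0) ∨ (m = 0 ∧ n = 1) ∨ (m = 1 ∧ n = 1) ∨
          (m = 1 ∧ n = 2) := by
        intro m n h hm hn
        rcases key m n h hm hn with h1 | h1 | h1 | h1 | ⟨rfl, rfl⟩ | ⟨_, _, h1⟩
        · omega
        · omega
        · omega
        · omega
        · exact absurd h h02
        · exact absurd h1 h02
      have key2 : ∀ m n, P m n → 0 ≤ m → 0 ≤ n → InL lB2 m n := by
        intro m n h hm hn
        rw [inB65]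
        rcases key' m n h hm hn with ⟨rfl, rfl⟩ | ⟨rfl, rfl⟩ | ⟨rfl, rfl⟩ | ⟨rfl, rfl⟩ <;> simp
      constructor
      · intro h
        rcases hs m n h with h1 | h1
        · exact key2 m n h h1.1 h1.2
        · exact neg65 (key2 _ _ (hneg _ _ h) (by omega) (by omega))
      · rw [inB65]
        rintro (⟨rfl, rfl⟩ | ⟨rfl, rfl⟩ | ⟨rfl, rfl⟩ | ⟨rfl, rfl⟩ | ⟨rfl, rfl⟩ | ⟨rfl, rfl⟩ | ⟨rfl, rfl⟩ |
          ⟨rfl, rfl⟩) <;> assumption
  · right; right; right
    have h13 : P 1 3 := by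
      have h := hB 1 0 h10
      norm_num at h
      exact h
    have h23 : P 2 3 := by
      have h := hA 1 3 h13
      norm_num at h
      exact h
    have h12 : P 1 2 := by
      have h := hB 1 1 h11
      norm_num at h
      exact h
    have n12 := hneg _ _ h12
    have n13 := hneg _ _ h13
    have n23 := hneg _ _ h23
    rw [neg_zero] at n10 n01
    have key : ∀ m n, P m n → 0 ≤ m → 0 ≤ n → (m = 1 ∧ n = 0) ∨ (m = 0 ∧ n = 1) ∨ (m = 1 ∧ n = 1) ∨
        (m = 1 ∧ n = 2) ∨ (m = 1 ∧ n = 3) ∨ (m = 2 ∧ n = 3) := by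
      intro m n h hm hn
      rcases hm.eq_or_lt with rfl | hm
      · rcases hn.eq_or_lt with rfl | hn
        · exact absurd h h0
        · have := hbe n hn h
          omega
      · rcases hn.eq_or_lt with rfl | hn
        · have := hal m hm h
          omega
        · have h1 := I m n h hm hn
          rcases h1.1.eq_or_lt with rfl | h2
          · have h3 := hD m hm h
            rcases hbe m hm h3 with rfl | ⟨rfl, h4⟩
            · omega
            · omega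
          · rcases h1.2.eq_or_lt with rfl | h4
            · have h5 := hB m _ h
              rw [sub_self] at h5
              have := hal m hm h5
              omega
            · have h5 := I _ _ (hA m n h) (by omega) hn
              have h6 := I _ _ (hB m n h) hm (by omega)
              by_cases h7 : n = 2 * m
              · have h8 := hB m n h
                have h9 : 3 * m - n = m := by omega
                rw [h9] at h8
                have := hbe m hm (hD m hm h8)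
                omega
              · by_cases h8 : 3 * m = 2 * n
                · have h9 := hB _ _ (hA m n h)
                  have h10' : 3 * (n - m) - n = 0 := by omega
                  rw [h10'] at h9
                  have := hal _ (by omega) h9
                  omega
                · have h9 := I _ _ (hB _ _ (hA m n h)) (by omega) (by omega)
                  omega
    refine ⟨rfl, fun m n => ?_⟩
    have key2 : ∀ m n, P m n → 0 ≤ m → 0 ≤ n → InL lG2 m n := by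
      intro m n h hm hn
      rw [inG65]
      rcases key m n h hm hn with ⟨rfl, rfl⟩ | ⟨rfl, rfl⟩ | ⟨rfl, rfl⟩ | ⟨rfl, rfl⟩ | ⟨rfl, rfl⟩ | ⟨rfl, rfl⟩ <;> simp
    constructor
    · intro h
      rcases hs m n h with h1 | h1
      · exact key2 m n h h1.1 h1.2
      · exact neg65 (key2 _ _ (hneg _ _ h) (by omega) (by omega))
    · rw [inG65]
      rintro (⟨rfl, rfl⟩ | ⟨rfl, rfl⟩ | ⟨rfl, rfl⟩ | ⟨rfl, rfl⟩ | ⟨rfl, rfl⟩ | ⟨rfl, rfl⟩ | ⟨rfl, rfl⟩ |
        ⟨rfl, rfl⟩ | ⟨rfl, rfl⟩ | ⟨rfl, rfl⟩ | ⟨rfl, rfl⟩ | ⟨rfl, rfl⟩) <;> assumption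

end Pool.Agent.Helper77.ST
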