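import Pool.Agent.Helper77.ST.AIrr
import Pool.Agent.Helper77.ST.AEnum

/-!
# Project OB, layer ST, block ST-A5: classification of the rank two root systems

`IP2 τ al be ν`: the scalar products of type `B_2`, `al` long.
PROOF. `refl` for `(al, be)`: `2 (al, be) = -q (be, be)`, `al + q be ∈ R`, `q` an integer; `q ≥ 0` because `al + q be` is `±(m al + n be)`, `m, n` natural (`hs.pos`, `hs.ind`). In the same way `2 (al, be) = -p (al, al)`, `p ≥ 0`. `not_orth`: `p, q ≥ 1`. Cauchy-Schwarz (strict,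
because `al, be` are independent: `(al, al) ((al, al) (be, be) - (al, be)^2) = (v, v) > 0` by `tau_pos` for `v = (al, al) be - (al, be) al ≠ 0`): `p q ≤ 3`. So `p = 1`, `q ∈ {1, 2, 3}` or `q = 1`, `p ∈ {2, 3}`. The second case is the first one with the roles
of `al, be` exchanged (`SimPair` is symmetric). Let `p = 1`. `P m n := m • al + n • be ∈ rootsL A` (`m n : ℤ`) satisfies the hypotheses of `enum`: `hneg` by `Wv.theta`; `hs` by `hs.pos`, `hs.ind`; `hA`: `refl` with `ψ = al`: `2 (φ, al) / (al, al) = 2 m - n`, so `φ - (2 m - n) al`; `hB`: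
`refl` with `ψ = be`: `2 (φ, be)/(be, be) = - q m + 2 n`; `hal`: `refl` for `(al, m al)`: `2 / m` is an integer, `m ∈ {1, 2}`, and `refl` for `(be, 2 al)`: `2 · 2 (be, al) / (4 (al, al)) = -1/2` would be an integer; `hbe`: `refl` for `(be, n be)`: `n ∈ {1, 2}`, and for `n = 2`
`refl` for `(al, 2 be)`: `-q/2` is an integer, `q = 2`. Every root is `m • al + n • be` with integers `m, n`, so `RL` follows. The scalar products: `ν = (be, be)`; `q = 2`, `p = 1`: `(al, be) = -ν`, `(al, al) = 2 ν`; `q = p = 1`: `(al, al) = (be, be) = -2 (al, be)`.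
-/

set_option autoImplicit false

namespace Pool.Agent.Helper77.ST

open Pool.Agent.Helper96.SA Pool.Agent.Helper96.TO Pool.Agent.Helper69.SLN Pool.Agent.Helper77.LA Pool.Agent.Helper77.TZ2

variable {L : Type} [LieRing L] [LieAlgebra ℝ L] {N : ℕ} {θ : L ≃ₗ⁅ℝ⁆ L} {b : Module.Basis (Fin N) ℝ L} {A : Submodule ℝ L}

/-- The scalar products of type `B_2`, `al` long. -/
structure IP2 (τ : Module.Dual ℝ A ≃ₗ[ℝ] A) (al be : Module.Dual ℝ A) (ν : ℝ) : Prop where
  pos : 0 < ν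
  bb : be (τ be) = ν
  ab : al (τ be) = -ν
  ba : be (τ al) = -ν
  aa : al (τ al) = 2 * ν

private theorem cl21_neg (hA : MaxFlat θ A) {φ : Module.Dual ℝ A} (hφ : φ ∈ rootsL A) : -φ ∈ rootsL A := by
  obtain ⟨h0, x, hx0, hx⟩ := hφ
  refine ⟨neg_ne_zero.2 h0, θ x, ?_, Wv.theta (θ := θ) hA hx⟩
  intro h1
  exact hx0 (θ.injective (show θ x = θ 0 by rw [h1, map_zero]))

private theorem cl21_symm {al be : Module.Dual ℝ A} (hs : SimPair A al be) : SimPair A be al where
  ha := hs.hb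
  hb := hs.ha
  ind s t h := by
    rw [add_comm] at h
    exact (hs.ind t s h).symm
  pos φ hφ := by
    obtain ⟨m, n, h⟩ := hs.pos φ hφ
    refine ⟨n, m, ?_⟩
    rw [add_comm ((n : ℝ) • be)]
    exact h

private theorem cl21_coef {al be : Module.Dual ℝ A} (hs : SimPair A al be) {s t s' t' : ℝ}
    (h : s • al + t • be = s' • al + t' • be) : s = s' ∧ t = t' := by
  have h1 := hs.ind (s - s') (t - t') (by
    have h2 : (s - s') • al + (t - t') • be = (s • al + t • be) - (s' • al + t' • be) := by module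
    rw [h2, h, sub_self])
  exact ⟨sub_eq_zero.1 h1.1, sub_eq_zero.1 h1.2⟩

private theorem cl21_sign {al be : Module.Dual ℝ A} (hs : SimPair A al be) {m n : ℤ}
    (h : (m : ℝ) • al + (n : ℝ) • be ∈ rootsL A) : (0 ≤ m ∧ 0 ≤ n) ∨ (m ≤ 0 ∧ n ≤ 0) := by
  obtain ⟨m', n', h1 | h1⟩ := hs.pos _ h
  · left
    obtain ⟨h2, h3⟩ := cl21_coef hs h1
    have h4 : m = (m' : ℤ) := by exact_mod_cast h2
    have h5 : n = (n' : ℤ) := by exact_mod_cast h3
    omega
  · right
    have h0 : -((m' : ℝ) • al + (n' : ℝ) • be) = (-(m' : ℝ)) • al + (-(n' : ℝ)) • be := by module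
    rw [h0] at h1
    obtain ⟨h2, h3⟩ := cl21_coef hs h1
    have h4 : m = -(m' : ℤ) := by exact_mod_cast h2
    have h5 : n = -(n' : ℤ) := by exact_mod_cast h3
    omega

private theorem cl21_RL (hA : MaxFlat θ A) {al be : Module.Dual ℝ A} (hs : SimPair A al be) {S : List (ℕ × ℕ)}
    (h : ∀ m n : ℤ, (m : ℝ) • al + (n : ℝ) • be ∈ rootsL A ↔ InL S m n) : RL A al be S := by
  have hpos : ∀ m n : ℕ, (m : ℝ) • al + (n : ℝ) • be ∈ rootsL A →
      ∃ p ∈ S, ((m : ℝ) = p.1 ∧ (n : ℝ) = p.2) := by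
    intro m n hmn
    have hmn' : ((m : ℤ) : ℝ) • al + ((n : ℤ) : ℝ) • be ∈ rootsL A := by
      rw [Int.cast_natCast, Int.cast_natCast]
      exact hmn
    obtain ⟨p, hp, ⟨h1, h2⟩ | ⟨h1, h2⟩⟩ := (h m n).1 hmn'
    · refine ⟨p, hp, ?_, ?_⟩
      · exact_mod_cast h1
      · exact_mod_cast h2
    · have h3 : m = p.1 := by omega
      have h4 : n = p.2 := by omega
      exact ⟨p, hp, by rw [h3], by rw [h4]⟩
  intro φ
  constructor
  · intro hφ
    obtain ⟨m, n, h1 | h1⟩ := hs.pos φ hφ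
    · rw [h1] at hφ
      obtain ⟨p, hp, h2, h3⟩ := hpos m n hφ
      exact ⟨p, hp, Or.inl (by rw [h1, h2, h3])⟩
    · have h2 := cl21_neg hA hφ
      rw [h1, neg_neg] at h2
      obtain ⟨p, hp, h3, h4⟩ := hpos m n h2
      exact ⟨p, hp, Or.inr (by rw [h1, h3, h4])⟩
  · rintro ⟨p, hp, h1⟩
    have h2 : (p.1 : ℝ) • al + (p.2 : ℝ) • be ∈ rootsL A := by
      have h3 := (h p.1 p.2).2 ⟨p, hp, Or.inl ⟨rfl, rfl⟩⟩
      rw [Int.cast_natCast, Int.cast_natCast] at h3
      exact h3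
    rcases h1 with h1 | h1
    · rw [h1]
      exact h2
    · rw [h1]
      exact cl21_neg hA h2

/-- The core: the Cartan integers are `1` and `q`. -/
private theorem cl21_core (h : CartanBasis θ b) (hA : MaxFlat θ A) {τ : Module.Dual ℝ A ≃ₗ[ℝ] A}
    (hτ : ∀ (φ : Module.Dual ℝ A) (a : A), killingForm ℝ L (τ φ : L) (a : L) = φ a) {al be : Module.Dual ℝ A}
    (hs : SimPair A al be) {q : ℤ} (hq : q = 1 ∨ q = 2 ∨ q = 3) (h1 : 2 * al (τ be) = -al (τ al))
    (h2 : 2 * al (τ be) = -(q * be (τ be))) :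
    (q = 1 ∧ RL A al be lA2) ∨ (q = 2 ∧ (RL A al be lB2 ∨ RL A al be lBC2)) ∨ (q = 3 ∧ RL A al be lG2) := by
  have haa : 0 < al (τ al) := tau_pos hτ h hA hs.ha.1
  have hbb : 0 < be (τ be) := tau_pos hτ h hA hs.hb.1
  have hba : be (τ al) = al (τ be) := tau_symm hτ be al
  have e1 : ∀ s t : ℝ, (s • al + t • be) (τ al) = s * al (τ al) + t * al (τ be) := by
    intro s t
    rw [LinearMap.add_apply, LinearMap.smul_apply, LinearMap.smul_apply, hba, smul_eq_mul, smul_eq_mul]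
  have e2 : ∀ s t : ℝ, (s • al + t • be) (τ be) = s * al (τ be) + t * be (τ be) := by
    intro s t
    rw [LinearMap.add_apply, LinearMap.smul_apply, LinearMap.smul_apply, smul_eq_mul, smul_eq_mul]
  have g10 : ((1 : ℤ) : ℝ) • al + ((0 : ℤ) : ℝ) • be ∈ rootsL A := by
    rw [Int.cast_one, Int.cast_zero, one_smul, zero_smul, add_zero]
    exact hs.ha
  have g01 : ((0 : ℤ) : ℝ) • al + ((1 : ℤ) : ℝ) • be ∈ rootsL A := by
    rw [Int.cast_one, Int.cast_zero, one_smul, zero_smul, zero_add]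
    exact hs.hb
  have gA : ∀ m n : ℤ, (m : ℝ) • al + (n : ℝ) • be ∈ rootsL A →
      ((n - m : ℤ) : ℝ) • al + (n : ℝ) • be ∈ rootsL A := by
    intro m n hmn
    obtain ⟨k, hk, hk2⟩ := refl h hA hτ hmn hs.ha
    rw [e1] at hk
    have h3 : ((k : ℝ) - (2 * m - n)) * al (τ al) = 0 := by
      have h4 : 2 * ((m : ℝ) * al (τ al) + n * al (τ be)) = 2 * m * al (τ al) + n * (2 * al (τ be)) := by ring
      rw [h4, h1] at hk
      linarith
    have h5 : (k : ℝ) = 2 * m - n := by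
      rcases mul_eq_zero.1 h3 with h6 | h6
      · linarith
      · exact absurd h6 haa.ne'
    have h6 : (m : ℝ) • al + (n : ℝ) • be - (k : ℝ) • al = ((n - m : ℤ) : ℝ) • al + (n : ℝ) • be := by
      rw [h5]
      push_cast
      module
    rw [← h6]
    exact hk2
  have gB : ∀ m n : ℤ, (m : ℝ) • al + (n : ℝ) • be ∈ rootsL A →
      (m : ℝ) • al + ((q * m - n : ℤ) : ℝ) • be ∈ rootsL A := by
    intro m n hmn
    obtain ⟨k, hk, hk2⟩ := refl h hA hτ hmn hs.hb
    rw [e2] at hk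
    have h3 : ((k : ℝ) - (2 * n - q * m)) * be (τ be) = 0 := by
      have h4 : 2 * ((m : ℝ) * al (τ be) + n * be (τ be)) = m * (2 * al (τ be)) + 2 * n * be (τ be) := by ring
      rw [h4, h2] at hk
      linarith
    have h5 : (k : ℝ) = 2 * n - q * m := by
      rcases mul_eq_zero.1 h3 with h6 | h6
      · linarith
      · exact absurd h6 hbb.ne'
    have h6 : (m : ℝ) • al + (n : ℝ) • be - (k : ℝ) • be = (m : ℝ) • al + ((q * m - n : ℤ) : ℝ) • be := by
      rw [h5]
      push_cast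
      module
    rw [← h6]
    exact hk2
  have gneg : ∀ m n : ℤ, (m : ℝ) • al + (n : ℝ) • be ∈ rootsL A →
      ((-m : ℤ) : ℝ) • al + ((-n : ℤ) : ℝ) • be ∈ rootsL A := by
    intro m n hmn
    have h3 := cl21_neg hA hmn
    have h4 : -((m : ℝ) • al + (n : ℝ) • be) = ((-m : ℤ) : ℝ) • al + ((-n : ℤ) : ℝ) • be := by
      push_cast
      module
    rwa [h4] at h3
  have g00 : ¬ (((0 : ℤ) : ℝ) • al + ((0 : ℤ) : ℝ) • be ∈ rootsL A) := by
    rw [Int.cast_zero, zero_smul, zero_smul, add_zero]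
    exact fun h3 => h3.1 rfl
  have gdiv : ∀ (γ : Module.Dual ℝ A), γ ∈ rootsL A → ∀ m : ℤ, 0 < m → (m : ℝ) • γ ∈ rootsL A → m = 1 ∨ m = 2 := by
    intro γ hγ m hm hmγ
    have hm0 : (0 : ℝ) < m := by exact_mod_cast hm
    have hgg : 0 < γ (τ γ) := tau_pos hτ h hA hγ.1
    obtain ⟨k, hk, -⟩ := refl h hA hτ hγ hmγ
    simp only [map_smul, LinearMap.smul_apply, smul_eq_mul] at hk
    have h3 : ((k : ℝ) * m - 2) * (m * γ (τ γ)) = 0 := by linarith
    have h4 : (k : ℝ) * m = 2 := by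
      rcases mul_eq_zero.1 h3 with h5 | h5
      · linarith
      · exact absurd h5 (mul_pos hm0 hgg).ne'
    have h5 : k * m = 2 := by exact_mod_cast h4
    have h6 : m ∣ 2 := Dvd.intro_left k h5
    have h7 := Int.le_of_dvd (by norm_num) h6
    omega
  have gal : ∀ m : ℤ, 0 < m → ((m : ℝ) • al + ((0 : ℤ) : ℝ) • be ∈ rootsL A) → m = 1 := by
    intro m hm hmr
    rw [Int.cast_zero, zero_smul, add_zero] at hmr
    rcases gdiv al hs.ha m hm hmr with h3 | h3
    · exact h3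
    · exfalso
      rw [h3] at hmr
      obtain ⟨k, hk, -⟩ := refl h hA hτ hs.hb hmr
      simp only [map_smul, LinearMap.smul_apply, smul_eq_mul, hba] at hk
      push_cast at hk
      have h4 : (2 * (k : ℝ) + 1) * al (τ al) = 0 := by linarith
      rcases mul_eq_zero.1 h4 with h5 | h5
      · have h6 : 2 * k + 1 = 0 := by exact_mod_cast h5
        omega
      · exact absurd h5 haa.ne'
  have gbe : ∀ n : ℤ, 0 < n → (((0 : ℤ) : ℝ) • al + (n : ℝ) • be ∈ rootsL A) → n = 1 ∨ (n = 2 ∧ q = 2) := by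
    intro n hn hnr
    rw [Int.cast_zero, zero_smul, zero_add] at hnr
    rcases gdiv be hs.hb n hn hnr with h3 | h3
    · exact Or.inl h3
    · right
      refine ⟨h3, ?_⟩
      rw [h3] at hnr
      obtain ⟨k, hk, -⟩ := refl h hA hτ hs.ha hnr
      simp only [map_smul, LinearMap.smul_apply, smul_eq_mul] at hk
      push_cast at hk
      have h4 : (2 * (k : ℝ) + q) * be (τ be) = 0 := by linarith
      rcases mul_eq_zero.1 h4 with h5 | h5
      · have h6 : 2 * k + q = 0 := by exact_mod_cast h5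
        omega
      · exact absurd h5 hbb.ne'
  rcases enum (P := fun m n : ℤ => (m : ℝ) • al + (n : ℝ) • be ∈ rootsL A) hq g10 g01 gneg
    (fun m n hmn => cl21_sign hs hmn) gA gB g00 gal gbe with ⟨h3, h4⟩ | ⟨h3, h4⟩ | ⟨h3, h4⟩ | ⟨h3, h4⟩
  · exact Or.inl ⟨h3, cl21_RL hA hs h4⟩
  · exact Or.inr (Or.inl ⟨h3, Or.inl (cl21_RL hA hs h4)⟩)
  · exact Or.inr (Or.inl ⟨h3, Or.inr (cl21_RL hA hs h4)⟩)
  · exact Or.inr (Or.inr ⟨h3, cl21_RL hA hs h4⟩)

/-- The Cartan integer of two simple roots. -/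
private theorem cl21_int (h : CartanBasis θ b) (hA : MaxFlat θ A) {τ : Module.Dual ℝ A ≃ₗ[ℝ] A}
    (hτ : ∀ (φ : Module.Dual ℝ A) (a : A), killingForm ℝ L (τ φ : L) (a : L) = φ a) {al be : Module.Dual ℝ A}
    (hs : SimPair A al be) (h0 : al (τ be) ≠ 0) : ∃ q : ℤ, 1 ≤ q ∧ 2 * al (τ be) = -(q * be (τ be)) := by
  obtain ⟨k, hk, hk2⟩ := refl h hA hτ hs.ha hs.hb
  have h1 : al - (k : ℝ) • be = ((1 : ℤ) : ℝ) • al + ((-k : ℤ) : ℝ) • be := by
    push_cast
    module
  rw [h1] at hk2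
  have h2 := cl21_sign hs hk2
  refine ⟨-k, ?_, by push_cast; linarith⟩
  have h3 : k ≠ 0 := by
    intro h4
    rw [h4, Int.cast_zero, zero_mul] at hk
    exact h0 (by linarith)
  omega

theorem classify [LieAlgebra.IsSimple ℝ L] (h : CartanBasis θ b) (hA : MaxFlat θ A) {τ : Module.Dual ℝ A ≃ₗ[ℝ] A}
    (hτ : ∀ (φ : Module.Dual ℝ A) (a : A), killingForm ℝ L (τ φ : L) (a : L) = φ a) {al be : Module.Dual ℝ A}
    (hs : SimPair A al be) :
    (RL A al be lA2 ∧ ∃ μ : ℝ, 0 < μ ∧ al (τ al) = 2 * μ ∧ be (τ be) = 2 * μ ∧ al (τ be) = -μ ∧ be (τ al) = -μ) ∨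
      ((RL A al be lB2 ∨ RL A al be lBC2) ∧ ∃ ν, IP2 τ al be ν) ∨ ((RL A be al lB2 ∨ RL A be al lBC2) ∧ ∃ ν, IP2 τ be al ν) ∨
      RL A al be lG2 ∨ RL A be al lG2 := by
  have h0 := not_orth h hA hτ hs
  have hba : be (τ al) = al (τ be) := tau_symm hτ be al
  have haa : 0 < al (τ al) := tau_pos hτ h hA hs.ha.1
  have hbb : 0 < be (τ be) := tau_pos hτ h hA hs.hb.1
  obtain ⟨q, hq1, hq⟩ := cl21_int h hA hτ hs h0
  obtain ⟨p, hp1, hp⟩ := cl21_int h hA hτ (cl21_symm hs) (by rw [hba]; exact h0)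
  rw [hba] at hp
  -- Cauchy-Schwarz
  have hv0 : (al (τ al)) • be - (al (τ be)) • al ≠ 0 := by
    intro h1
    have h2 := hs.ind (-(al (τ be))) (al (τ al)) (by
      rw [← h1]
      module)
    exact haa.ne' h2.2
  have hv := tau_pos hτ h hA hv0
  have hvv : ((al (τ al)) • be - (al (τ be)) • al) (τ ((al (τ al)) • be - (al (τ be)) • al)) =
      al (τ al) * (al (τ al) * be (τ be) - al (τ be) * al (τ be)) := by
    simp only [map_sub, map_smul, LinearMap.sub_apply, LinearMap.smul_apply, smul_eq_mul, hba]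
    ring
  rw [hvv] at hv
  have hcs : al (τ be) * al (τ be) < al (τ al) * be (τ be) := by
    have := pos_of_mul_pos_right hv haa.le
    linarith
  have hpq : p * q < 4 := by
    have h1 : (2 * al (τ be)) * (2 * al (τ be)) = (p * q) * (al (τ al) * be (τ be)) := by
      nth_rewrite 1 [hp]
      rw [hq]
      ring
    have h2 : ((p : ℝ) * q) * (al (τ al) * be (τ be)) < 4 * (al (τ al) * be (τ be)) := by
      rw [← h1]
      linarith
    have h3 : (p : ℝ) * q < 4 := lt_of_mul_lt_mul_right h2 (mul_pos haa hbb).le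
    exact_mod_cast h3
  have hp4 : p < 4 := by nlinarith
  have hq4 : q < 4 := by nlinarith
  have hcases : (p = 1 ∧ (q = 1 ∨ q = 2 ∨ q = 3)) ∨ (q = 1 ∧ (p = 2 ∨ p = 3)) := by
    interval_cases p <;> interval_cases q <;> simp_all
  rcases hcases with ⟨rfl, hq3⟩ | ⟨rfl, hp3⟩
  · have hp' : 2 * al (τ be) = -al (τ al) := by
      rw [hp]
      push_cast
      ring
    rcases cl21_core h hA hτ hs hq3 hp' hq with ⟨rfl, h1⟩ | ⟨rfl, h1⟩ | ⟨rfl, h1⟩
    · left
      push_cast at hq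
      refine ⟨h1, al (τ al) / 2, by linarith, by ring, by linarith, by linarith, by rw [hba]; linarith⟩
    · right; left
      push_cast at hq
      exact ⟨h1, be (τ be), hbb, rfl, by linarith, by rw [hba]; linarith, by linarith⟩
    · right; right; right; left
      exact h1
  · have hq' : 2 * be (τ al) = -be (τ be) := by
      rw [hba, hq]
      push_cast
      ring
    rcases cl21_core h hA hτ (cl21_symm hs) (q := p) (by omega) hq' (by rw [hba]; exact hp) with
      ⟨h2, h1⟩ | ⟨rfl, h1⟩ | ⟨rfl, h1⟩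
    · omega
    · right; right; left
      push_cast at hp hq
      exact ⟨h1, al (τ al), haa, rfl, by rw [hba]; linarith, by linarith, by linarith⟩
    · right; right; right; right
      exact h1

end Pool.Agent.Helper77.ST
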