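import Pool.Agent.Helper77.ST.ARefl

/-!
# Project OB, layer ST, block ST-A2: the two simple roots of a simple Lie algebra are not orthogonal

PROOF. Let `(al, be) = al (τ be) = 0`; `be (τ al) = 0` by `tau_symm`. (1) Every root is a multiple of `al` or of `be`: for a root `φ = m al + n be`, `m, n > 0` natural (or its negative) `refl` with `ψ = al` gives
`2 m (al, al) = k (al, al)`, `k = 2 m`, and the root `φ - 2 m al = - m al + n be`, which is not of the form `±(m' al + n' be)`, `m', n'` natural (`hs.pos`, `hs.ind`).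
(2) The set `S` of the roots which are multiples of `al` is orthogonal to the other roots. Either `irr_of_simple` (file `Helper96/TO/Irr.lean`, transported with `Helper77.LA.exists_cm` and
`(cm φ * cm ψ).trace = φ (τ ψ)`, see the block ST-A1), or directly: root vectors `x` of weight `c al`, `y` of weight `d be` (`c, d ≠ 0`) commute because `c al + d be` is not a root and not `0`. Let `I` be the set of the
`z` in the span of the root vectors of the roots in `S` and of the brackets `[x, x']`, `x` of weight `φ ∈ S`, `x'` of weight `-φ` (as in `gens_top`, file `Helper69/SLN/Root.lean`): it is an ideal (`span_weights`), not zero,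
so `I = L`; but a root vector `y` of weight `be` commutes with `I` (Jacobi), so `y = 0` by `center_zero`.
-/

set_option autoImplicit false

namespace Pool.Agent.Helper77.ST

open Pool.Agent.Helper96.SA Pool.Agent.Helper96.TO Pool.Agent.Helper69.SLN Pool.Agent.Helper77.LA Pool.Agent.Helper77.TZ2

variable {L : Type} [LieRing L] [LieAlgebra ℝ L] {N : ℕ} {θ : L ≃ₗ⁅ℝ⁆ L} {b : Module.Basis (Fin N) ℝ L} {A : Submodule ℝ L}

private theorem span_top38 [hs : LieAlgebra.IsSimple ℝ L] (h : CartanBasis θ b) (hA : MaxFlat θ A) {S : Set L}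
    (hS : ∀ (ψ : Module.Dual ℝ A) (u : L), Wv A ψ u → ∀ g ∈ S, ⁅u, g⁆ ∈ Submodule.span ℝ S) {x : L} (hx : x ∈ S)
    (hx0 : x ≠ 0) : Submodule.span ℝ S = ⊤ := by
  let I : LieIdeal ℝ L :=
    { Submodule.span ℝ S with
      lie_mem := fun {x m} hm => by
        change ⁅x, m⁆ ∈ Submodule.span ℝ S
        have hm' : m ∈ Submodule.span ℝ S := hm
        clear hm
        induction hm' using Submodule.span_induction with
        | mem m hm =>
          have hx : x ∈ Submodule.span ℝ {x : L | ∃ φ : Module.Dual ℝ A, Wv A φ x} := by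
            rw [span_weights h hA]
            exact Submodule.mem_top
          induction hx using Submodule.span_induction with
          | mem x hx =>
            obtain ⟨ψ, hψ⟩ := hx
            exact hS ψ x hψ m hm
          | zero =>
            rw [zero_lie]
            exact Submodule.zero_mem _
          | add x y _ _ h1 h2 =>
            rw [add_lie]
            exact Submodule.add_mem _ h1 h2
          | smul c x _ h1 =>
            rw [smul_lie]
            exact Submodule.smul_mem _ _ h1
        | zero =>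
          rw [lie_zero]
          exact Submodule.zero_mem _
        | add m m' _ _ h1 h2 =>
          rw [lie_add]
          exact Submodule.add_mem _ h1 h2
        | smul c m _ h1 =>
          rw [lie_smul]
          exact Submodule.smul_mem _ _ h1 }
  have hI : ∀ x, x ∈ I ↔ x ∈ Submodule.span ℝ S := fun x => Iff.rfl
  rcases hs.eq_bot_or_eq_top I with h1 | h1
  · exfalso
    have h2 : x ∈ I := Submodule.subset_span hx
    rw [h1, LieSubmodule.mem_bot] at h2
    exact hx0 h2
  · rw [eq_top_iff]
    intro x _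
    rw [← hI, h1]
    exact LieSubmodule.mem_top x

/-- Orthogonal simple roots: every root is a multiple of one of them. -/
private theorem mult38 (h : CartanBasis θ b) (hA : MaxFlat θ A) {τ : Module.Dual ℝ A ≃ₗ[ℝ] A}
    (hτ : ∀ (φ : Module.Dual ℝ A) (a : A), killingForm ℝ L (τ φ : L) (a : L) = φ a) {al be : Module.Dual ℝ A}
    (hs : SimPair A al be) (h0 : al (τ be) = 0) {φ : Module.Dual ℝ A} (hφ : φ ∈ rootsL A) :
    (∃ c : ℝ, c ≠ 0 ∧ φ = c • al) ∨ ∃ d : ℝ, d ≠ 0 ∧ φ = d • be := by
  have hba : be (τ al) = 0 := by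
    rw [tau_symm hτ]
    exact h0
  have haa : 0 < al (τ al) := tau_pos hτ h hA hs.ha.1
  -- general form with a sign
  obtain ⟨m, n, hmn⟩ := hs.pos φ hφ
  obtain ⟨s, hs2, hφs⟩ : ∃ s : ℝ, (s = 1 ∨ s = -1) ∧ φ = s • ((m : ℝ) • al + (n : ℝ) • be) := by
    rcases hmn with h1 | h1
    · exact ⟨1, Or.inl rfl, by rw [one_smul]; exact h1⟩
    · exact ⟨-1, Or.inr rfl, by rw [h1]; module⟩
  have hs0 : s ≠ 0 := by rcases hs2 with h1 | h1 <;> rw [h1] <;> norm_num
  rcases Nat.eq_zero_or_pos m with hm | hm
  · right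
    refine ⟨s * n, ?_, ?_⟩
    · intro h1
      apply hφ.1
      rw [hφs, hm, Nat.cast_zero, zero_smul, zero_add, smul_smul, h1, zero_smul]
    · rw [hφs, hm, Nat.cast_zero, zero_smul, zero_add, smul_smul]
  rcases Nat.eq_zero_or_pos n with hn | hn
  · left
    refine ⟨s * m, ?_, ?_⟩
    · intro h1
      apply hφ.1
      rw [hφs, hn, Nat.cast_zero, zero_smul, add_zero, smul_smul, h1, zero_smul]
    · rw [hφs, hn, Nat.cast_zero, zero_smul, add_zero, smul_smul]
  exfalso
  obtain ⟨k, hk, hk2⟩ := refl h hA hτ hφ hs.ha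
  have h1 : φ (τ al) = s * m * al (τ al) := by
    rw [hφs, LinearMap.smul_apply, LinearMap.add_apply, LinearMap.smul_apply, LinearMap.smul_apply, hba]
    simp only [smul_eq_mul, mul_zero, add_zero]
    ring
  have h2 : (k : ℝ) = 2 * (s * m) := by
    rw [h1] at hk
    have h3 : (2 * (s * m) - k) * al (τ al) = 0 := by linarith
    rcases mul_eq_zero.1 h3 with h4 | h4
    · linarith
    · exact absurd h4 haa.ne'
  have h3 : φ - (k : ℝ) • al = (-(s * m)) • al + (s * n) • be := by
    rw [h2, hφs]
    module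
  rw [h3] at hk2
  obtain ⟨m', n', hmn'⟩ := hs.pos _ hk2
  have hm' : (0 : ℝ) < m := by exact_mod_cast hm
  have hn' : (0 : ℝ) < n := by exact_mod_cast hn
  have hm2 : (0 : ℝ) ≤ m' := Nat.cast_nonneg _
  have hn2 : (0 : ℝ) ≤ n' := Nat.cast_nonneg _
  rcases hmn' with h4 | h4
  · have h5 := hs.ind (-(s * m) - m') (s * n - n') (by
      have h6 : (-(s * m) - m') • al + (s * n - n') • be = ((-(s * m)) • al + (s * n) • be) -
        ((m' : ℝ) • al + (n' : ℝ) • be) := by module
      rw [h6, h4, sub_self])
    rcases hs2 with h6 | h6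
    · rw [h6] at h5
      linarith [h5.1]
    · rw [h6] at h5
      linarith [h5.2]
  · have h5 := hs.ind (-(s * m) + m') (s * n + n') (by
      have h6 : (-(s * m) + m') • al + (s * n + n') • be = ((-(s * m)) • al + (s * n) • be) +
        ((m' : ℝ) • al + (n' : ℝ) • be) := by module
      rw [h6, h4, neg_add_cancel])
    rcases hs2 with h6 | h6
    · rw [h6] at h5
      linarith [h5.2]
    · rw [h6] at h5
      linarith [h5.1]

theorem not_orth [LieAlgebra.IsSimple ℝ L] (h : CartanBasis θ b) (hA : MaxFlat θ A) {τ : Module.Dual ℝ A ≃ₗ[ℝ] A}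
    (hτ : ∀ (φ : Module.Dual ℝ A) (a : A), killingForm ℝ L (τ φ : L) (a : L) = φ a) {al be : Module.Dual ℝ A}
    (hs : SimPair A al be) : al (τ be) ≠ 0 := by
  intro h0
  have hmult := fun {φ : Module.Dual ℝ A} (hφ : φ ∈ rootsL A) => mult38 h hA hτ hs h0 hφ
  -- sums of nonzero multiples are not roots
  have hnr : ∀ c d : ℝ, c ≠ 0 → d ≠ 0 → c • al + d • be ∉ rootsL A ∧ c • al + d • be ≠ 0 := by
    intro c d hc hd
    refine ⟨fun h1 => ?_, fun h1 => hc (hs.ind c d h1).1⟩
    rcases hmult h1 with ⟨e, he, h2⟩ | ⟨e, he, h2⟩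
    · have h3 := hs.ind (c - e) d (by
        have h4 : (c - e) • al + d • be = (c • al + d • be) - e • al := by module
        rw [h4, h2, sub_self])
      exact hd h3.2
    · have h3 := hs.ind c (d - e) (by
        have h4 : c • al + (d - e) • be = (c • al + d • be) - e • be := by module
        rw [h4, h2, sub_self])
      exact hc h3.1
  have hcomm : ∀ (c d : ℝ) (x y : L), c ≠ 0 → d ≠ 0 → Wv A (c • al) x → Wv A (d • be) y → ⁅y, x⁆ = 0 := by
    intro c d x y hc hd hx hy
    have h1 := hy.lie hx
    rw [add_comm] at h1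
    exact h1.eq_zero (hnr c d hc hd).1 (hnr c d hc hd).2
  -- the generators of the ideal
  let S : Set L := {z | ∃ c : ℝ, c ≠ 0 ∧ Wv A (c • al) z} ∪
    {w | ∃ c : ℝ, c ≠ 0 ∧ ∃ y z, Wv A (c • al) y ∧ Wv A (-(c • al)) z ∧ w = ⁅y, z⁆}
  have hneg : ∀ c : ℝ, -(c • al) = (-c) • al := fun c => (neg_smul c al).symm
  have hbe : ∀ (d : ℝ) (u : L), d ≠ 0 → Wv A (d • be) u → ∀ g ∈ S, ⁅u, g⁆ = 0 := by
    intro d u hd hu g hg
    rcases hg with ⟨c, hc, hg⟩ | ⟨c, hc, y, z, hy, hz, rfl⟩
    · exact hcomm c d g u hc hd hg hu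
    · rw [hneg] at hz
      rw [leibniz_lie, hcomm c d y u hc hd hy hu, hcomm (-c) d z u (neg_ne_zero.2 hc) hd hz hu, zero_lie,
        lie_zero, add_zero]
  obtain ⟨hal0, x, hx0, hx⟩ := id hs.ha
  obtain ⟨hbe0, y, hy0, hy⟩ := id hs.hb
  have hxS : x ∈ S := Or.inl ⟨1, one_ne_zero, by rw [one_smul]; exact hx⟩
  have htop : Submodule.span ℝ S = ⊤ := by
    refine span_top38 h hA (fun ψ u hu g hg => ?_) hxS hx0
    by_cases hψ0 : ψ = 0
    · -- weight zero
      rcases hg with ⟨c, hc, hg⟩ | ⟨c, hc, y, z, hy, hz, rfl⟩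
      · refine Submodule.subset_span (Or.inl ⟨c, hc, ?_⟩)
        have := hu.lie hg
        rwa [hψ0, zero_add] at this
      · rw [leibniz_lie]
        refine Submodule.add_mem _ ?_ ?_
        · refine Submodule.subset_span (Or.inr ⟨c, hc, ⁅u, y⁆, z, ?_, hz, rfl⟩)
          have := hu.lie hy
          rwa [hψ0, zero_add] at this
        · refine Submodule.subset_span (Or.inr ⟨c, hc, y, ⁅u, z⁆, hy, ?_, rfl⟩)
          have := hu.lie hz
          rwa [hψ0, zero_add] at this
    · by_cases hψ : ψ ∈ rootsL A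
      · rcases hmult hψ with ⟨e, he, rfl⟩ | ⟨e, he, rfl⟩
        · rcases hg with ⟨c, hc, hg⟩ | ⟨c, hc, y, z, hy, hz, rfl⟩
          · by_cases hec : e + c = 0
            · have h2 : e = -c := eq_neg_of_add_eq_zero_left hec
              rw [h2, ← hneg] at hu
              rw [← lie_skew]
              exact Submodule.neg_mem _ (Submodule.subset_span (Or.inr ⟨c, hc, g, u, hg, hu, rfl⟩))
            · refine Submodule.subset_span (Or.inl ⟨e + c, hec, ?_⟩)
              have := hu.lie hg
              rwa [← add_smul] at this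
          · refine Submodule.subset_span (Or.inl ⟨e, he, ?_⟩)
            have := hu.lie (hy.lie hz)
            rwa [add_neg_cancel, add_zero] at this
        · rw [hbe e u he hu g hg]
          exact Submodule.zero_mem _
      · rw [hu.eq_zero hψ hψ0, zero_lie]
        exact Submodule.zero_mem _
  apply hy0
  refine center_zero h fun z => ?_
  have hy1 : Wv A ((1 : ℝ) • be) y := by rw [one_smul]; exact hy
  have hz : z ∈ Submodule.span ℝ S := by
    rw [htop]
    exact Submodule.mem_top
  induction hz using Submodule.span_induction with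
  | mem z hz => exact hbe 1 y one_ne_zero hy1 z hz
  | zero => exact lie_zero _
  | add z w _ _ h1 h2 => rw [lie_add, h1, h2, add_zero]
  | smul c z _ h1 => rw [lie_smul, h1, smul_zero]

end Pool.Agent.Helper77.ST
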