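import Pool.Agent.Helper77.ST.BSym

/-!
# Project OB, layer ST, block ST-B4: type `BC_2` is impossible

PROOF. `be` and `2 be` are roots in the list `lBC2`: let `u, z ≠ 0` be of weight `be`, `2 be`; `p = [u, [u, r]] ≠ 0` (`CB.f4'`) has weight `al + 2 be`. `w = [θ u, z]` has weight `be`. `[u, w] = [[u, θ u], z] + [θ u, [u, z]] = κ(u, θ u) 2 be(τ be) z + 0 = 2 ν κ(u, θ u) z`
(`lie_theta_self`; `[u, z]` has weight `3 be`, `CB.eq_zero_of`). `CB.sym` (with `s = 1`) gives `[u, [w, r]] = [w, [u, r]]` (`ip_comm`), so `[[u, w], r] = 0` by Jacobi, `[z, r] = 0` (`2 ν κ(u, θ u) ≠ 0`). But `[θ r, z] = 0` (weight `2 be - al`) and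
`0 = [θ r, [r, z]] = [[θ r, r], z] + [r, [θ r, z]] = -κ(r, θ r) 2 be (τ al) z = 2 ν κ(r, θ r) z ≠ 0`.
-/

set_option autoImplicit false

namespace Pool.Agent.Helper77.ST

open Pool.Agent.Helper96.SA Pool.Agent.Helper96.TO Pool.Agent.Helper69.SLN Pool.Agent.Helper77.LA Pool.Agent.Helper77.TZ2

variable {L : Type} [LieRing L] [LieAlgebra ℝ L] {N : ℕ} {θ : L ≃ₗ⁅ℝ⁆ L} {b : Module.Basis (Fin N) ℝ L} {A : Submodule ℝ L}
  {τ : Module.Dual ℝ A ≃ₗ[ℝ] A} {al be : Module.Dual ℝ A} {r p : L} {ν : ℝ}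

theorem CB.not_bc (c : CB θ b A τ al be r ν) : ¬ RL A al be lBC2 := by
  intro hR
  have hbe : be ∈ rootsL A := (hR be).2 ⟨(0, 1), by simp [lBC2], Or.inl (by simp)⟩
  have hbe2 : (2 : ℝ) • be ∈ rootsL A := (hR _).2 ⟨(0, 2), by simp [lBC2], Or.inl (by simp)⟩
  obtain ⟨-, u, hu0, hu⟩ := hbe
  obtain ⟨-, z, hz0, hz⟩ := hbe2
  change Wv A be u at hu
  change Wv A ((2 : ℝ) • be) z at hz
  -- the vector `p`
  have hp0 := c.f4' hu hu0
  have hp : Wv A (al + (2 : ℝ) • be) ⁅u, ⁅u, r⁆⁆ := by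
    have h1 := hu.lie (hu.lie c.hr)
    have e : be + (be + al) = al + (2 : ℝ) • be := by module
    rwa [e] at h1
  -- the vector `w`
  obtain ⟨w, hw⟩ : ∃ w, w = ⁅θ u, z⁆ := ⟨_, rfl⟩
  have hww : Wv A be w := by
    have h1 := (hu.theta c.hA).lie hz
    have e : -be + (2 : ℝ) • be = be := by module
    rwa [e, ← hw] at h1
  have huz : ⁅u, z⁆ = 0 := by
    have h1 := hu.lie hz
    have e : be + (2 : ℝ) • be = (((0 : ℤ) : ℝ) • al + ((3 : ℤ) : ℝ) • be) := by push_cast; module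
    rw [e] at h1
    refine c.eq_zero_of h1 (by decide) ?_
    decide
  have huw : ⁅u, w⁆ = (killingForm ℝ L u (θ u) * (2 * ν)) • z := by
    rw [hw, leibniz_lie, huz, lie_zero, add_zero, lie_theta_self c.hτ c.h c.hA hu, smul_lie, hz (τ be), LinearMap.smul_apply,
      c.bb, smul_smul, smul_eq_mul]
  -- symmetry
  have hs : ⁅u, ⁅u, r⁆⁆ = (1 : ℝ) • ⁅u, ⁅u, r⁆⁆ := (one_smul _ _).symm
  have h1 := c.sym hp hp0 hu hu0 hs hu hww
  have h2 := c.sym hp hp0 hu hu0 hs hww hu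
  rw [c.ip_comm w u, ← h1] at h2
  have h3 : ⁅w, ⁅u, r⁆⁆ = ⁅u, ⁅w, r⁆⁆ := smul_right_injective L (c.ip_pos hu0).ne' h2
  have h4 : ⁅⁅u, w⁆, r⁆ = 0 := by
    rw [lie_lie, h3, sub_self]
  have hκu := pos c.h hu0
  have hκr := pos c.h c.hr0
  have hν := c.νpos
  have h5 : ⁅z, r⁆ = 0 := by
    rw [huw, smul_lie] at h4
    refine (smul_eq_zero.1 h4).resolve_left (mul_ne_zero ?_ (by positivity))
    intro h6
    rw [h6] at hκu
    norm_num at hκu
  -- the contradiction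
  have htz : ⁅θ r, z⁆ = 0 := by
    have h6 := (c.hr.theta c.hA).lie hz
    have e : -al + (2 : ℝ) • be = (((-1 : ℤ) : ℝ) • al + ((2 : ℤ) : ℝ) • be) := by push_cast; module
    rw [e] at h6
    refine c.eq_zero_of h6 (by decide) ?_
    decide
  have h7 : ⁅r, z⁆ = 0 := by rw [← lie_skew, h5, neg_zero]
  have h8 : ⁅⁅r, θ r⁆, z⁆ = 0 := by rw [lie_lie, h7, htz, lie_zero, lie_zero, sub_zero]
  rw [lie_theta_self c.hτ c.h c.hA c.hr, smul_lie, hz (τ al), LinearMap.smul_apply, c.ba, smul_smul] at h8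
  rcases mul_eq_zero.1 ((smul_eq_zero.1 h8).resolve_right hz0) with h9 | h9
  · rw [h9] at hκr
    norm_num at hκr
  · rw [smul_eq_mul] at h9
    linarith

end Pool.Agent.Helper77.ST
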