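import Mathlib

/-!
# Project OB, layer ST, block ST-B2: a bilinear form which is pointwise proportional to a scalar product

PROOF. For `x ≠ 0` put `c x = f x x / g x x`; then `f x y = c x g x y` for all `y`. It suffices that `c x = c x0` for `x ≠ 0`. If `x = t x0`: `f x x = t² f x0 x0`, `g x x = t² g x0 x0`. Otherwise `x, x0` are independent; `x + x0 ≠ 0` and
`c (x + x0) g (x + x0) w = c x g x w + c x0 g x0 w` for all `w`, so `g v w = 0` with `v = (c (x + x0) - c x) x + (c (x + x0) - c x0) x0`; `w = v`: `v = 0`, `c x = c (x + x0) = c x0`. For `x = 0` the statement is trivial. Finally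
`f x y = c x g x y = c x0 g x y`.
-/

set_option autoImplicit false

namespace Pool.Agent.Helper77.ST

theorem bil_scalar {U : Type*} [AddCommGroup U] [Module ℝ U] (f g : U →ₗ[ℝ] U →ₗ[ℝ] ℝ) (hp : ∀ x, x ≠ 0 → 0 < g x x)
    (h : ∀ x y, f x y * g x x = f x x * g x y) {x0 : U} (h0 : x0 ≠ 0) (x y : U) : f x y * g x0 x0 = f x0 x0 * g x y := by
  have key : ∀ z : U, z ≠ 0 → ∀ w, f z w = f z z / g z z * g z w := by
    intro z hz w
    have h1 := h z w
    have h2 := (hp z hz).ne'
    field_simp
    linarith
  by_cases hx : x = 0
  · subst hx
    simp
  have hgx := hp x hx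
  have hgx0 := hp x0 h0
  have hab : f x x / g x x = f x0 x0 / g x0 x0 := by
    by_cases hs : x + x0 = 0
    · have hxe : x = -x0 := by
        rw [← add_eq_zero_iff_eq_neg]; exact hs
      subst hxe
      simp
    · set a := f x x / g x x with ha
      set b := f x0 x0 / g x0 x0 with hb
      set c := f (x + x0) (x + x0) / g (x + x0) (x + x0) with hc
      have e : ∀ w, (c - a) * g x w + (c - b) * g x0 w = 0 := by
        intro w
        have e1 := key (x + x0) hs w
        have e2 := key x hx w
        have e3 := key x0 h0 w
        rw [← hc] at e1
        rw [← ha] at e2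
        rw [← hb] at e3
        have e4 : f (x + x0) w = f x w + f x0 w := by simp
        have e5 : g (x + x0) w = g x w + g x0 w := by simp
        rw [e4, e5, e2, e3] at e1
        linarith
      have hv : (c - a) • x + (c - b) • x0 = 0 := by
        by_contra hne
        have h1 := hp _ hne
        have h2 := e ((c - a) • x + (c - b) • x0)
        have h3 : g ((c - a) • x + (c - b) • x0) ((c - a) • x + (c - b) • x0)
            = (c - a) * g x ((c - a) • x + (c - b) • x0)
              + (c - b) * g x0 ((c - a) • x + (c - b) • x0) := by
          have h4 : ∀ w : U, g ((c - a) • x + (c - b) • x0) w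
              = (c - a) * g x w + (c - b) * g x0 w := by
            intro w
            rw [map_add, map_smul, map_smul, LinearMap.add_apply, LinearMap.smul_apply,
              LinearMap.smul_apply, smul_eq_mul, smul_eq_mul]
          exact h4 _
        rw [h3, h2] at h1
        exact lt_irrefl _ h1
      by_cases hca : c - a = 0
      · rw [hca, zero_smul, zero_add] at hv
        rcases smul_eq_zero.mp hv with h1 | h1
        · linarith
        · exact absurd h1 h0
      · have hxt : x = (-(c - b) / (c - a)) • x0 := by
          have h1 : (c - a) • x = (-(c - b)) • x0 := by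
            rw [neg_smul]
            exact eq_neg_of_add_eq_zero_left hv
          calc x = (c - a)⁻¹ • ((c - a) • x) := by rw [smul_smul, inv_mul_cancel₀ hca, one_smul]
            _ = (-(c - b) / (c - a)) • x0 := by
              rw [h1, smul_smul]
              congr 1
              field_simp
        have ht : (-(c - b) / (c - a)) ≠ 0 := by
          intro h1
          rw [h1, zero_smul] at hxt
          exact hx hxt
        have hfx : f x x = (-(c - b) / (c - a)) * ((-(c - b) / (c - a)) * f x0 x0) := by
          conv_lhs => rw [hxt]
          simp
        have hgx' : g x x = (-(c - b) / (c - a)) * ((-(c - b) / (c - a)) * g x0 x0) := by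
          conv_lhs => rw [hxt]
          simp
        rw [ha, hb, hfx, hgx']
        rw [mul_div_mul_left _ _ ht, mul_div_mul_left _ _ ht]
  rw [key x hx y, hab]
  field_simp

end Pool.Agent.Helper77.ST
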