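import Pool.Agent.Helper77.ST.Defs

/-!
# Project OB, layer ST, block ST-B1: the first relations (types `B_2`, `BC_2`)

`κ` the Killing form, `⟪u, v⟫ = ip θ ν u v = -ν κ(u, θ v)`. Weights: `e_1 - e_2 = al`, `e_2 = be`, `e_1 = al + be`, `e_1 + e_2 = al + 2 be`.
(1) `eq_zero_of`: a vector of weight `m al + n be` (integers) which is not in the list of type `BC_2` and not `0` is zero. Both lists are contained in `lBC2`; use `Wv.eq_zero`, `ind` (the coefficients are unique: `m = ±p.1`, `n = ±p.2`, casts).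
(2) `th_r`: `[θ u, r] = 0`, weight `al - be`. (3) `f2`: `[θ v, [u, r]] = -⟪u, v⟫ r`. Proof: `[θ v, [u, r]] = [[θ v, u], r] = -[[u, θ v], r]` (Jacobi, (2)). `lie_theta_add` (file `Helper77/TZ2/Rel.lean`):
`[u, θ v] + [v, θ u] = 2 κ(u, θ v) τ be`, which acts on `r` by `2 κ(u, θ v) al (τ be) = -2 ν κ(u, θ v) = 2 ⟪u, v⟫`. `M = [u, θ v] - [v, θ u]` has weight `0`, so `[M, r]` has weight `al`, `[M, r] = c r` (`one`); `θ M = M`
(`h.invol`); `κ([M, r], θ r) = -κ(r, [M, θ r]) = -κ(r, θ [M, r])`, so `c κ(r, θ r) = -c κ(r, θ r)`, `c = 0` (`pos`). So `[[u, θ v], r] = ⟪u, v⟫ r` (this is `f2'`).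
(4) `f4`: `[θ u, [u, [u, r]]] = [[θ u, u], [u, r]] + [u, [θ u, [u, r]]] = 0 - ⟪u, u⟫ [u, r]`, because `[θ u, u] = -κ(u, θ u) τ be` (`lie_theta_self`) and `(al + be)(τ be) = 0`.
(5) `f4'`: `[u, [u, r]] ≠ 0` for `u ≠ 0`: otherwise `⟪u, u⟫ [u, r] = 0`, so `[u, r] = 0`, and `0 = [θ u, [u, r]] = -⟪u, u⟫ r`; `⟪u, u⟫ > 0` by `pos`.
(6) `onep`: the root space of `al + 2 be` has dimension one. `be` is a root; let `u ≠ 0` be a root vector, `κ = κ(u, θ u) < 0`. For `z` of weight `al + 2 be`: `[u, z] = 0` (weight `al + 3 be`), `[u, [θ u, z]] = [[u, θ u], z] = κ (al + 2 be)(τ be) z = κ ν z`;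
`[u, [θ u, [θ u, z]]] = κ (al + be)(τ be) [θ u, z] + [θ u, κ ν z] = κ ν [θ u, z]`. So `[θ u, [θ u, z]] = 0` implies `z = 0`. `[θ u, [θ u, z]]` has weight `al`, so it is a multiple of `r`; for `z, p` with `p ≠ 0`: `[θ u, [θ u, p]] = s r`, `s ≠ 0`,
`[θ u, [θ u, z]] = s' r`, so `z - (s'/s) p = 0`.
-/

set_option autoImplicit false

namespace Pool.Agent.Helper77.ST

open Pool.Agent.Helper96.SA Pool.Agent.Helper96.TO Pool.Agent.Helper69.SLN Pool.Agent.Helper77.LA Pool.Agent.Helper77.TZ2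

variable {L : Type} [LieRing L] [LieAlgebra ℝ L] {N : ℕ} {θ : L ≃ₗ⁅ℝ⁆ L} {b : Module.Basis (Fin N) ℝ L} {A : Submodule ℝ L}
  {τ : Module.Dual ℝ A ≃ₗ[ℝ] A} {al be : Module.Dual ℝ A} {r p : L} {ν : ℝ}

theorem CB.eq_zero_of (c : CB θ b A τ al be r ν) {m n : ℤ} {x : L} (hx : Wv A ((m : ℝ) • al + (n : ℝ) • be) x)
    (h0 : (m, n) ≠ (0, 0)) (h1 : ∀ p ∈ lBC2, ¬ (m = (p.1 : ℤ) ∧ n = (p.2 : ℤ)) ∧ ¬ (m = -(p.1 : ℤ) ∧ n = -(p.2 : ℤ))) : x = 0 := by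
  have hsub : ∀ p ∈ lB2, p ∈ lBC2 := by decide
  have key : ∀ p ∈ lBC2, ¬ ((m : ℝ) • al + (n : ℝ) • be = (p.1 : ℝ) • al + (p.2 : ℝ) • be ∨
      (m : ℝ) • al + (n : ℝ) • be = -((p.1 : ℝ) • al + (p.2 : ℝ) • be)) := by
    rintro p hp (h | h)
    · obtain ⟨e1, e2⟩ := c.ind ((m : ℝ) - (p.1 : ℝ)) ((n : ℝ) - (p.2 : ℝ)) (by
        rw [← sub_eq_zero] at h
        rw [← h]
        module)
      apply (h1 p hp).1
      constructor
      · have : (m : ℝ) = (p.1 : ℝ) := by linarith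
        exact_mod_cast this
      · have : (n : ℝ) = (p.2 : ℝ) := by linarith
        exact_mod_cast this
    · obtain ⟨e1, e2⟩ := c.ind ((m : ℝ) + (p.1 : ℝ)) ((n : ℝ) + (p.2 : ℝ)) (by
        rw [← sub_eq_zero] at h
        rw [← h]
        module)
      apply (h1 p hp).2
      constructor
      · have : (m : ℝ) = -(p.1 : ℝ) := by linarith
        exact_mod_cast this
      · have : (n : ℝ) = -(p.2 : ℝ) := by linarith
        exact_mod_cast this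
  refine hx.eq_zero ?_ ?_
  · intro hr
    rcases c.hR with h | h
    · obtain ⟨p, hp, hh⟩ := (h _).1 hr
      exact key p (hsub p hp) hh
    · obtain ⟨p, hp, hh⟩ := (h _).1 hr
      exact key p hp hh
  · intro h
    obtain ⟨e1, e2⟩ := c.ind _ _ h
    apply h0
    have e3 : m = 0 := by exact_mod_cast e1
    have e4 : n = 0 := by exact_mod_cast e2
    rw [e3, e4]

theorem CB.th_r (c : CB θ b A τ al be r ν) {u : L} (hu : Wv A be u) : ⁅θ u, r⁆ = 0 := by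
  have h1 := (hu.theta c.hA).lie c.hr
  have h2 : -be + al = ((1 : ℤ) : ℝ) • al + ((-1 : ℤ) : ℝ) • be := by
    push_cast
    module
  rw [h2] at h1
  exact c.eq_zero_of h1 (by decide) (by decide)

theorem CB.f2' (c : CB θ b A τ al be r ν) {u v : L} (hu : Wv A be u) (hv : Wv A be v) : ⁅⁅u, θ v⁆, r⁆ = ip θ ν u v • r := by
  have h1 : ⁅⁅u, θ v⁆ + ⁅v, θ u⁆, r⁆ = (2 * ip θ ν u v) • r := by
    rw [lie_theta_add c.hτ c.h c.hA hu hv, smul_lie, c.hr (τ be), c.ab, smul_smul]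
    congr 1
    unfold ip
    ring
  have hM : θ (⁅u, θ v⁆ - ⁅v, θ u⁆) = ⁅u, θ v⁆ - ⁅v, θ u⁆ := by
    rw [map_sub, LieEquiv.map_lie, LieEquiv.map_lie, c.h.invol, c.h.invol, ← lie_skew (θ u) v, ← lie_skew (θ v) u]
    abel
  have w1 : Wv A 0 ⁅u, θ v⁆ := by
    have := hu.lie (hv.theta c.hA)
    rwa [add_neg_cancel] at this
  have w2 : Wv A 0 ⁅v, θ u⁆ := by
    have := hv.lie (hu.theta c.hA)
    rwa [add_neg_cancel] at this
  have w3 : Wv A al ⁅⁅u, θ v⁆ - ⁅v, θ u⁆, r⁆ := by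
    have e1 := w1.lie c.hr
    have e2 := w2.lie c.hr
    rw [zero_add] at e1 e2
    intro a
    rw [_root_.sub_lie, _root_.lie_sub, e1 a, e2 a, smul_sub]
  obtain ⟨s, hs⟩ := c.one _ w3
  have hpos := pos c.h c.hr0
  have h2 : s * killingForm ℝ L r (θ r) = -(s * killingForm ℝ L r (θ r)) := by
    have e1 : killingForm ℝ L ⁅⁅u, θ v⁆ - ⁅v, θ u⁆, r⁆ (θ r) = -killingForm ℝ L r ⁅⁅u, θ v⁆ - ⁅v, θ u⁆, θ r⁆ := by
      rw [← lie_skew, map_neg, LinearMap.neg_apply, kf_inv]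
    have e2 : ⁅⁅u, θ v⁆ - ⁅v, θ u⁆, θ r⁆ = θ ⁅⁅u, θ v⁆ - ⁅v, θ u⁆, r⁆ := by
      rw [LieEquiv.map_lie, hM]
    rw [e2, hs, map_smul, map_smul, map_smul, LinearMap.smul_apply, smul_eq_mul] at e1
    exact e1
  have hs0 : s = 0 := by
    have h3 : s * killingForm ℝ L r (θ r) = 0 := by linarith
    rcases mul_eq_zero.1 h3 with h | h
    · exact h
    · exfalso
      rw [h, neg_zero] at hpos
      exact lt_irrefl _ hpos
  have h4 : ⁅⁅u, θ v⁆, r⁆ - ⁅⁅v, θ u⁆, r⁆ = 0 := by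
    rw [← _root_.sub_lie, hs, hs0, zero_smul]
  have h5 : ⁅⁅u, θ v⁆, r⁆ + ⁅⁅v, θ u⁆, r⁆ = (2 * ip θ ν u v) • r := by
    rw [← add_lie, h1]
  have h6 : (2 : ℝ) • ⁅⁅u, θ v⁆, r⁆ = (2 : ℝ) • (ip θ ν u v • r) := by
    rw [smul_smul, ← h5, two_smul]
    rw [sub_eq_zero] at h4
    rw [h4]
  exact smul_right_injective L (two_ne_zero' ℝ) h6

theorem CB.f2 (c : CB θ b A τ al be r ν) {u v : L} (hu : Wv A be u) (hv : Wv A be v) : ⁅θ v, ⁅u, r⁆⁆ = -(ip θ ν u v • r) := by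
  rw [leibniz_lie, c.th_r hv, lie_zero, add_zero, ← lie_skew (θ v) u, neg_lie, c.f2' hu hv]

theorem CB.f4 (c : CB θ b A τ al be r ν) {u : L} (hu : Wv A be u) : ⁅θ u, ⁅u, ⁅u, r⁆⁆⁆ = -(ip θ ν u u • ⁅u, r⁆) := by
  have h1 : ⁅⁅θ u, u⁆, ⁅u, r⁆⁆ = 0 := by
    rw [← lie_skew (θ u) u, lie_theta_self c.hτ c.h c.hA hu, neg_lie, smul_lie, (hu.lie c.hr) (τ be), LinearMap.add_apply, c.bb, c.ab,
      add_neg_cancel, zero_smul, smul_zero, neg_zero]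
  rw [leibniz_lie, h1, zero_add, c.f2 hu hu, lie_neg, lie_smul]

private theorem CB.ip_ne (c : CB θ b A τ al be r ν) {u : L} (hu0 : u ≠ 0) : ip θ ν u u ≠ 0 := by
  have h1 := mul_pos c.νpos (pos c.h hu0)
  unfold ip
  intro h2
  rw [mul_neg, h2] at h1
  exact lt_irrefl _ h1

theorem CB.f4' (c : CB θ b A τ al be r ν) {u : L} (hu : Wv A be u) (hu0 : u ≠ 0) : ⁅u, ⁅u, r⁆⁆ ≠ 0 := by
  intro h
  have h1 := c.f4 hu
  rw [h, lie_zero, eq_comm, neg_eq_zero] at h1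
  have h2 := (smul_eq_zero.1 h1).resolve_left (c.ip_ne hu0)
  have h3 := c.f2 hu hu
  rw [h2, lie_zero, eq_comm, neg_eq_zero] at h3
  exact c.hr0 ((smul_eq_zero.1 h3).resolve_left (c.ip_ne hu0))

theorem CB.onep (c : CB θ b A τ al be r ν) (hp : Wv A (al + (2 : ℝ) • be) p) (hp0 : p ≠ 0) {z : L}
    (hz : Wv A (al + (2 : ℝ) • be) z) : ∃ t : ℝ, z = t • p := by
  have hbe : be ∈ rootsL A := by
    have e1 : be = ((0, 1) : ℕ × ℕ).1 • al + ((0, 1) : ℕ × ℕ).2 • be := by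
      simp
    rcases c.hR with h | h
    · rw [h]
      exact ⟨(0, 1), by decide, Or.inl (by simp)⟩
    · rw [h]
      exact ⟨(0, 1), by decide, Or.inl (by simp)⟩
  obtain ⟨-, u, hu0, hu⟩ := hbe
  change Wv A be u at hu
  obtain ⟨κ, hκ⟩ : ∃ κ, κ = killingForm ℝ L u (θ u) := ⟨_, rfl⟩
  have hκ0 : κ ≠ 0 := by
    intro h
    have := pos c.h hu0
    rw [← hκ, h, neg_zero] at this
    exact lt_irrefl _ this
  have hn0 : κ * ν ≠ 0 := mul_ne_zero hκ0 c.νpos.ne'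
  have huu : ⁅u, θ u⁆ = κ • (τ be : L) := by
    rw [hκ, lie_theta_self c.hτ c.h c.hA hu]
  have ht := hu.theta c.hA
  have hw2 : ∀ z : L, Wv A (al + (2 : ℝ) • be) z → Wv A (al + be) ⁅θ u, z⁆ := by
    intro z hz
    have := ht.lie hz
    have e : -be + (al + (2 : ℝ) • be) = al + be := by module
    rwa [e] at this
  have hw3 : ∀ z : L, Wv A (al + (2 : ℝ) • be) z → Wv A al ⁅θ u, ⁅θ u, z⁆⁆ := by
    intro z hz
    have := ht.lie (hw2 z hz)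
    have e : -be + (al + be) = al := by module
    rwa [e] at this
  have h1 : ∀ z : L, Wv A (al + (2 : ℝ) • be) z → ⁅u, ⁅θ u, z⁆⁆ = (κ * ν) • z := by
    intro z hz
    have e1 : ⁅u, z⁆ = 0 := by
      have h2 := hu.lie hz
      have e : be + (al + (2 : ℝ) • be) = ((1 : ℤ) : ℝ) • al + ((3 : ℤ) : ℝ) • be := by
        push_cast
        module
      rw [e] at h2
      exact c.eq_zero_of h2 (by decide) (by decide)
    rw [leibniz_lie, e1, lie_zero, add_zero, huu, smul_lie, hz (τ be), LinearMap.add_apply, LinearMap.smul_apply, c.ab, c.bb, smul_smul,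
      smul_eq_mul]
    congr 1
    ring
  have h2 : ∀ z : L, Wv A (al + (2 : ℝ) • be) z → ⁅u, ⁅θ u, ⁅θ u, z⁆⁆⁆ = (κ * ν) • ⁅θ u, z⁆ := by
    intro z hz
    rw [leibniz_lie u (θ u) ⁅θ u, z⁆, h1 z hz, huu, smul_lie, (hw2 z hz) (τ be), LinearMap.add_apply, c.ab, c.bb, neg_add_cancel, zero_smul,
      smul_zero, zero_add, lie_smul]
  have h3 : ∀ z : L, Wv A (al + (2 : ℝ) • be) z → ⁅θ u, ⁅θ u, z⁆⁆ = 0 → z = 0 := by
    intro z hz h4
    have h5 := h2 z hz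
    rw [h4, lie_zero, eq_comm] at h5
    have h6 := (smul_eq_zero.1 h5).resolve_left hn0
    have h7 := h1 z hz
    rw [h6, lie_zero, eq_comm] at h7
    exact (smul_eq_zero.1 h7).resolve_left hn0
  obtain ⟨s, hs⟩ := c.one _ (hw3 p hp)
  obtain ⟨s', hs'⟩ := c.one _ (hw3 z hz)
  have hs0 : s ≠ 0 := by
    intro h
    rw [h, zero_smul] at hs
    exact hp0 (h3 p hp hs)
  refine ⟨s' / s, ?_⟩
  have hzp : Wv A (al + (2 : ℝ) • be) (z - (s' / s) • p) := by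
    intro a
    rw [_root_.lie_sub, hz a, (hp.smul (s' / s)) a, smul_sub]
  have h8 : ⁅θ u, ⁅θ u, z - (s' / s) • p⁆⁆ = 0 := by
    rw [_root_.lie_sub, _root_.lie_sub, lie_smul, lie_smul, hs, hs', smul_smul, div_mul_cancel₀ _ hs0, sub_self]
  exact sub_eq_zero.1 (h3 _ hzp h8)

end Pool.Agent.Helper77.ST
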