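import Pool.Agent.Helper77.ST.BBC
import Pool.Agent.Helper77.ST.ACls

/-!
# Project OB, layer ST, block ST-B5: normalisation

PROOF. `al`, `be` are roots (they are in the lists). Let `r' ≠ 0` be of weight `al`, `k = -ν κ(r', θ r') > 0`, `r = k^(-1/2) r'`: `ν κ(r, θ r) = -1`; `CB` holds for `r` (`one` from `One`). Let `u' ≠ 0` be of weight `be`, `u = ⟪u', u'⟫^(-1/2) u'`, `⟪u, u⟫ = 1` and
`p = -[u, [u, r]] ≠ 0` (`CB.f4'`), weight `al + 2 be`. `hB`: `CB.not_bc`. `onep`: `CB.onep`. `uur`: `CB.sym` with `s = -1`. `tup`: for `y = 0` trivial, otherwise `[y, [y, r]] = -⟪y, y⟫ p`, `CB.f5`: `-⟪y, y⟫ [θ y, p] = -⟪y, y⟫ [y, r]`. `pp`: `CB.f6'` with `y = u`, `s = -1`: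
`κ(p, θ p) = κ(r, θ r)`.
-/

set_option autoImplicit false

namespace Pool.Agent.Helper77.ST

open Pool.Agent.Helper96.SA Pool.Agent.Helper96.TO Pool.Agent.Helper69.SLN Pool.Agent.Helper77.LA Pool.Agent.Helper77.TZ2

variable {L : Type} [LieRing L] [LieAlgebra ℝ L] {N : ℕ} {θ : L ≃ₗ⁅ℝ⁆ L} {b : Module.Basis (Fin N) ℝ L} {A : Submodule ℝ L}
  {τ : Module.Dual ℝ A ≃ₗ[ℝ] A} {al be : Module.Dual ℝ A} {r p : L} {ν : ℝ}

private theorem ip_smul75 (θ : L ≃ₗ⁅ℝ⁆ L) (ν t : ℝ) (x : L) : ip θ ν (t • x) (t • x) = t ^ 2 * ip θ ν x x := by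
  unfold ip
  rw [map_smul, map_smul, map_smul, LinearMap.smul_apply, smul_eq_mul, smul_eq_mul]
  ring

private theorem norm75 {k : ℝ} (hk : 0 < k) : ((Real.sqrt k)⁻¹) ^ 2 * k = 1 := by
  rw [inv_pow, Real.sq_sqrt hk.le, inv_mul_cancel₀ hk.ne']

theorem exists_cn (h : CartanBasis θ b) (hA : MaxFlat θ A)
    (hτ : ∀ (φ : Module.Dual ℝ A) (a : A), killingForm ℝ L (τ φ : L) (a : L) = φ a)
    (ind : ∀ s t : ℝ, s • al + t • be = 0 → s = 0 ∧ t = 0) (hR : RL A al be lB2 ∨ RL A al be lBC2) (hi : IP2 τ al be ν)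
    (h1 : One A al) : ∃ r p : L, CN θ b A τ al be r p ν := by
  have hal : al ∈ rootsL A := by
    rcases hR with h2 | h2
    · exact (h2 al).2 ⟨(1, 0), by simp [lB2], Or.inl (by simp)⟩
    · exact (h2 al).2 ⟨(1, 0), by simp [lBC2], Or.inl (by simp)⟩
  have hbe : be ∈ rootsL A := by
    rcases hR with h2 | h2
    · exact (h2 be).2 ⟨(0, 1), by simp [lB2], Or.inl (by simp)⟩
    · exact (h2 be).2 ⟨(0, 1), by simp [lBC2], Or.inl (by simp)⟩
  obtain ⟨-, r', hr'0, hr'⟩ := hal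
  obtain ⟨-, u', hu'0, hu'⟩ := hbe
  have hr'' : Wv A al r' := hr'
  have hu'' : Wv A be u' := hu'
  have hk : 0 < ip θ ν r' r' := by
    unfold ip
    have := mul_pos hi.pos (pos h hr'0)
    linarith
  set k := ip θ ν r' r' with hkdef
  have hsk : (Real.sqrt k)⁻¹ ≠ 0 := inv_ne_zero (Real.sqrt_pos.2 hk).ne'
  set r := (Real.sqrt k)⁻¹ • r' with hrdef
  have hr : Wv A al r := hr''.smul _
  have hr0 : r ≠ 0 := smul_ne_zero hsk hr'0
  have hrr : ip θ ν r r = 1 := by rw [hrdef, ip_smul75, ← hkdef, norm75 hk]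
  have c : CB θ b A τ al be r ν :=
    { h := h
      hA := hA
      hτ := hτ
      ind := ind
      hR := hR
      νpos := hi.pos
      bb := hi.bb
      ab := hi.ab
      ba := hi.ba
      aa := hi.aa
      hr := hr
      hr0 := hr0
      one := fun z hz => h1 r z hr hz hr0 }
  have hk2 : 0 < ip θ ν u' u' := c.ip_pos hu'0
  set k2 := ip θ ν u' u' with hk2def
  have hsk2 : (Real.sqrt k2)⁻¹ ≠ 0 := inv_ne_zero (Real.sqrt_pos.2 hk2).ne'
  set u := (Real.sqrt k2)⁻¹ • u' with hudef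
  have hu : Wv A be u := hu''.smul _
  have hu0 : u ≠ 0 := smul_ne_zero hsk2 hu'0
  have huu : ip θ ν u u = 1 := by rw [hudef, ip_smul75, ← hk2def, norm75 hk2]
  set p := -⁅u, ⁅u, r⁆⁆ with hpdef
  have hp : Wv A (al + (2 : ℝ) • be) p := by
    have h2 : al + (2 : ℝ) • be = be + (be + al) := by module
    rw [h2]
    exact (hu.lie (hu.lie hr)).neg
  have hp0 : p ≠ 0 := neg_ne_zero.2 (c.f4' hu hu0)
  have hs : ⁅u, ⁅u, r⁆⁆ = (-1 : ℝ) • p := by rw [hpdef, neg_smul, one_smul, neg_neg]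
  have hrr' : ν * killingForm ℝ L r (θ r) = -1 := by
    unfold ip at hrr
    linarith
  have huur : ∀ x y : L, Wv A be x → Wv A be y → ⁅x, ⁅y, r⁆⁆ = -(ip θ ν x y • p) := by
    intro x y hx hy
    have h2 := c.sym hp hp0 hu hu0 hs hx hy
    rw [huu, one_smul] at h2
    rw [h2, neg_one_mul, neg_smul]
  refine ⟨r, p, { c with
    hB := hR.resolve_right c.not_bc
    hp := hp
    hp0 := hp0
    onep := fun z hz => c.onep hp hp0 hz
    rr := hrr'
    pp := ?_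
    uur := huur
    tup := ?_ }⟩
  · have h2 := c.f6' hp hu hs
    rw [huu] at h2
    have h3 : killingForm ℝ L p (θ p) = killingForm ℝ L r (θ r) := by linarith
    rw [h3, hrr']
  · intro y hy
    rcases eq_or_ne y 0 with h0 | h0
    · rw [h0, map_zero, zero_lie, zero_lie]
    · have h2 := c.f5 (p := p) hy (s := -ip θ ν y y) (by rw [huur y y hy hy, neg_smul])
      rw [neg_smul, neg_inj] at h2
      exact smul_right_injective L (c.ip_pos h0).ne' h2

end Pool.Agent.Helper77.ST
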