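import Pool.Agent.Helper77.ST.BTri

/-!
# Project OB, layer ST, block ST-B8: `L` is spanned by the `x`, `θ x`, `[x, θ x]`

Let `M` be the span, `X` the span of the `xv i`, so `X, θ X ⊆ M` and `[x, θ y] ∈ M` for `x, y ∈ X`. PROOF. `θ M ⊆ M` (`θ [x, θ y] = -[y, θ x]`). By `gens_top` (file `Helper69/SLN/Root.lean`; `rootsL A` is not empty) it suffices that `M` contains the root vectors and the `[y, z]`, `y` of weight `φ`, `z` of weight
`-φ`, `φ` a root (`z = θ (θ z)`, `θ z` of weight `φ`). By `θ` the root `φ` is one of `al, be, al + be, al + 2 be` (`hB`). Weight `al`, `al + 2 be`: multiples of `r`, `p` (`one`, `onep`). Weight `be`: `u ∈ span w`,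
so `[u, r] ∈ X` and `u = [p, θ [u, r]] ∈ M` (`t8`). Weight `al + be`: `v = [[θ r, v], r]` (`sur`), `[θ r, v]` has weight `be`, so `v ∈ X`. Brackets: for `φ = al, al + be, al + 2 be` both vectors are in `X`, `θ X`. For `φ = be`: `[u, θ w] = [[u, r], θ [w, r]] - ⟪u, w⟫ [r, θ r] ∈ M` (`t10`).
-/

set_option autoImplicit false

namespace Pool.Agent.Helper77.ST

open Pool.Agent.Helper96.SA Pool.Agent.Helper96.TO Pool.Agent.Helper69.SLN Pool.Agent.Helper77.LA Pool.Agent.Helper77.TZ2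

variable {L : Type} [LieRing L] [LieAlgebra ℝ L] {N : ℕ} {θ : L ≃ₗ⁅ℝ⁆ L} {b : Module.Basis (Fin N) ℝ L} {A : Submodule ℝ L}
  {τ : Module.Dual ℝ A ≃ₗ[ℝ] A} {al be : Module.Dual ℝ A} {r p : L} {ν : ℝ}

private theorem rl_cases52 (c : CN θ b A τ al be r p ν) {φ : Module.Dual ℝ A} (h : φ ∈ rootsL A) :
    ∃ ψ : Module.Dual ℝ A, (ψ = al ∨ ψ = be ∨ ψ = al + be ∨ ψ = al + (2 : ℝ) • be) ∧ (φ = ψ ∨ φ = -ψ) := by
  obtain ⟨q, hq, h1⟩ := (c.hB φ).1 h
  refine ⟨(q.1 : ℝ) • al + (q.2 : ℝ) • be, ?_, h1⟩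
  simp only [lB2, List.mem_cons, List.not_mem_nil, or_false] at hq
  rcases hq with rfl | rfl | rfl | rfl
  · left; simp
  · right; left; simp
  · right; right; left; simp
  · right; right; right; simp

private theorem al_root52 (c : CN θ b A τ al be r p ν) : al ∈ rootsL A := by
  refine (c.hB al).2 ⟨(1, 0), by simp [lB2], Or.inl ?_⟩
  simp

theorem CN.span [LieAlgebra.IsSimple ℝ L] (c : CN θ b A τ al be r p ν) {m : ℕ} {w : Fin m → L} (hw : ∀ i, Wv A be (w i))
    (hs : ∀ u : L, Wv A be u → u ∈ Submodule.span ℝ (Set.range w)) :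
    Submodule.span ℝ (Set.range (xv r p w) ∪ (Set.range fun i => θ (xv r p w i)) ∪
      Set.range fun ij : VI m × VI m => ⁅xv r p w ij.1, θ (xv r p w ij.2)⁆) = ⊤ := by
  obtain ⟨M, hM⟩ : ∃ M : Submodule ℝ L, M = Submodule.span ℝ (Set.range (xv r p w) ∪ (Set.range fun i => θ (xv r p w i)) ∪
      Set.range fun ij : VI m × VI m => ⁅xv r p w ij.1, θ (xv r p w ij.2)⁆) := ⟨_, rfl⟩
  rw [← hM]
  have g1 : ∀ i, xv r p w i ∈ M := fun i => by
    rw [hM]
    exact Submodule.subset_span (Or.inl (Or.inl ⟨i, rfl⟩))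
  have g2 : ∀ i, θ (xv r p w i) ∈ M := fun i => by
    rw [hM]
    exact Submodule.subset_span (Or.inl (Or.inr ⟨i, rfl⟩))
  have g3 : ∀ i j, ⁅xv r p w i, θ (xv r p w j)⁆ ∈ M := fun i j => by
    rw [hM]
    exact Submodule.subset_span (Or.inr ⟨(i, j), rfl⟩)
  obtain ⟨X, hX⟩ : ∃ X : Submodule ℝ L, X = Submodule.span ℝ (Set.range (xv r p w)) := ⟨_, rfl⟩
  have x1 : ∀ i, xv r p w i ∈ X := fun i => by
    rw [hX]
    exact Submodule.subset_span ⟨i, rfl⟩
  have hXM : ∀ x ∈ X, x ∈ M := by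
    intro x hx
    rw [hX] at hx
    refine Submodule.span_le.2 ?_ hx
    rintro _ ⟨i, rfl⟩
    exact g1 i
  have hXt : ∀ x ∈ X, θ x ∈ M := by
    intro x hx
    rw [hX] at hx
    induction hx using Submodule.span_induction with
    | mem x hx =>
      obtain ⟨i, rfl⟩ := hx
      exact g2 i
    | zero => rw [map_zero]; exact M.zero_mem
    | add x y _ _ h1 h2 => rw [map_add]; exact M.add_mem h1 h2
    | smul a x _ h1 => rw [map_smul]; exact M.smul_mem _ h1
  have hXX : ∀ x ∈ X, ∀ y ∈ X, ⁅x, θ y⁆ ∈ M := by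
    intro x hx y hy
    rw [hX] at hx hy
    induction hx using Submodule.span_induction with
    | mem x hx =>
      obtain ⟨i, rfl⟩ := hx
      induction hy using Submodule.span_induction with
      | mem y hy =>
        obtain ⟨j, rfl⟩ := hy
        exact g3 i j
      | zero => rw [map_zero, lie_zero]; exact M.zero_mem
      | add x y _ _ h1 h2 => rw [map_add, lie_add]; exact M.add_mem h1 h2
      | smul a x _ h1 => rw [map_smul, lie_smul]; exact M.smul_mem _ h1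
    | zero => rw [zero_lie]; exact M.zero_mem
    | add x y _ _ h1 h2 => rw [add_lie]; exact M.add_mem h1 h2
    | smul a x _ h1 => rw [smul_lie]; exact M.smul_mem _ h1
  have hMt : ∀ z ∈ M, θ z ∈ M := by
    intro z hz
    rw [hM] at hz
    induction hz using Submodule.span_induction with
    | mem z hz =>
      rcases hz with (⟨i, rfl⟩ | ⟨i, rfl⟩) | ⟨⟨i, j⟩, rfl⟩
      · exact g2 i
      · change θ (θ (xv r p w i)) ∈ M
        rw [c.h.invol]
        exact g1 i
      · change θ ⁅xv r p w i, θ (xv r p w j)⁆ ∈ M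
        rw [LieEquiv.map_lie, c.h.invol, ← lie_skew]
        exact M.neg_mem (g3 j i)
    | zero => rw [map_zero]; exact M.zero_mem
    | add x y _ _ h1 h2 => rw [map_add]; exact M.add_mem h1 h2
    | smul a x _ h1 => rw [map_smul]; exact M.smul_mem _ h1
  have xr : r ∈ X := x1 (Sum.inr false)
  have xp : p ∈ X := x1 (Sum.inr true)
  have xu : ∀ u : L, Wv A be u → ⁅u, r⁆ ∈ X := by
    intro u hu
    have hu' := hs u hu
    clear hu
    induction hu' using Submodule.span_induction with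
    | mem u hu =>
      obtain ⟨i, rfl⟩ := hu
      exact x1 (Sum.inl i)
    | zero => rw [zero_lie]; exact X.zero_mem
    | add x y _ _ h1 h2 => rw [add_lie]; exact X.add_mem h1 h2
    | smul a x _ h1 => rw [smul_lie]; exact X.smul_mem _ h1
  -- the weights `al`, `al + be`, `al + 2 be`
  have p1 : ∀ z, Wv A al z → z ∈ X := by
    intro z hz
    obtain ⟨t, rfl⟩ := c.one z hz
    exact X.smul_mem _ xr
  have p2 : ∀ z, Wv A (al + (2 : ℝ) • be) z → z ∈ X := by
    intro z hz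
    obtain ⟨t, rfl⟩ := c.onep z hz
    exact X.smul_mem _ xp
  have p3 : ∀ z, Wv A (al + be) z → z ∈ X := by
    intro z hz
    have h1 : Wv A be ⁅θ r, z⁆ := by
      have h2 := (c.hr.theta c.hA).lie hz
      rwa [neg_add_cancel_left] at h2
    rw [← c.sur hz]
    exact xu _ h1
  have p4 : ∀ z, Wv A be z → z ∈ M := by
    intro z hz
    rw [← c.t8 hz]
    exact hXX _ xp _ (xu z hz)
  have hpos : ∀ ψ : Module.Dual ℝ A, (ψ = al ∨ ψ = be ∨ ψ = al + be ∨ ψ = al + (2 : ℝ) • be) → ∀ z, Wv A ψ z → z ∈ M := by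
    rintro ψ (rfl | rfl | rfl | rfl) z hz
    · exact hXM _ (p1 z hz)
    · exact p4 z hz
    · exact hXM _ (p3 z hz)
    · exact hXM _ (p2 z hz)
  have hbr : ∀ ψ : Module.Dual ℝ A, (ψ = al ∨ ψ = be ∨ ψ = al + be ∨ ψ = al + (2 : ℝ) • be) →
      ∀ y z, Wv A ψ y → Wv A ψ z → ⁅y, θ z⁆ ∈ M := by
    rintro ψ (rfl | rfl | rfl | rfl) y z hy hz
    · exact hXX _ (p1 y hy) _ (p1 z hz)
    · have h1 := c.t10 hy hz
      have h2 : ⁅y, θ z⁆ = ⁅⁅y, r⁆, θ ⁅z, r⁆⁆ - ip θ ν y z • ⁅r, θ r⁆ := by rw [h1]; abel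
      rw [h2]
      exact M.sub_mem (hXX _ (xu y hy) _ (xu z hz)) (M.smul_mem _ (hXX _ xr _ xr))
    · exact hXX _ (p3 y hy) _ (p3 z hz)
    · exact hXX _ (p2 y hy) _ (p2 z hz)
  have htop := gens_top c.h c.hA ⟨al, al_root52 c⟩
  rw [eq_top_iff, ← htop, Submodule.span_le]
  rintro x (⟨φ, hφ, hx⟩ | ⟨φ, hφ, y, z, hy, hz, rfl⟩)
  · change x ∈ M
    obtain ⟨ψ, hψ, rfl | rfl⟩ := rl_cases52 c hφ
    · exact hpos _ hψ x hx
    · have h1 := hx.theta c.hA
      rw [neg_neg] at h1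
      have h2 := hMt _ (hpos _ hψ _ h1)
      rwa [c.h.invol] at h2
  · change ⁅y, z⁆ ∈ M
    obtain ⟨ψ, hψ, rfl | rfl⟩ := rl_cases52 c hφ
    · have h1 := hz.theta c.hA
      rw [neg_neg] at h1
      have h2 := hbr _ hψ _ _ hy h1
      rwa [c.h.invol] at h2
    · rw [neg_neg] at hz
      have h1 := hy.theta c.hA
      rw [neg_neg] at h1
      have h2 := hbr _ hψ _ _ hz h1
      rw [c.h.invol] at h2
      rw [← lie_skew]
      exact M.neg_mem h2

end Pool.Agent.Helper77.ST
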