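import Pool.Agent.Helper77.ST.BF
import Pool.Agent.Helper77.ST.BBil

/-!
# Project OB, layer ST, block ST-B3: the form `[x, [y, r]] = b(x, y) p` is a multiple of the scalar product

`p ≠ 0` of weight `al + 2 be`, `κ` the Killing form, `⟪u, v⟫ = ip θ ν u v` (symmetric by `kf_theta`, `kf_comm`, `h.invol`; positive definite by `pos`).
(1) `f5`: if `[y, [y, r]] = s p`, then `s [θ y, p] = [θ y, [y, [y, r]]] = -⟪y, y⟫ [y, r]` (`CB.f4`).
(2) `f6`: let `[y, [y, r]] = s p`, `[y, [w, r]] = t p`. `κ([θ y, p], θ [w, r]) = -κ(p, [θ y, θ [w, r]]) = -κ(p, θ [y, [w, r]]) = -t κ(p, θ p)` (invariance `kf_inv`, skew symmetry), and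
`κ([y, r], θ [w, r]) = -κ(r, [y, θ [w, r]]) = -κ(r, θ [θ y, [w, r]]) = ⟪w, y⟫ κ(r, θ r)` (`CB.f2`, `h.invol`). Pair (1) with `θ [w, r]`: `s t κ(p, θ p) = ⟪y, y⟫ ⟪y, w⟫ κ(r, θ r)`. In particular (`w = y`) `s² κ(p, θ p) = ⟪y, y⟫² κ(r, θ r)`.
So for `y ≠ 0`: `s ≠ 0` and `t ⟪y, y⟫ s κ(p, θ p) = ⟪y, y⟫² ⟪y, w⟫ κ(r, θ r) = s² κ(p, θ p) ⟪y, w⟫`, `t ⟪y, y⟫ = s ⟪y, w⟫`; for `y = 0` trivial.
(3) `sym`: for `x, y` of weight `be` let `b(x, y) = κ([x, [y, r]], θ p) / κ(p, θ p)`; `[x, [y, r]] = b(x, y) p` because `[x, [y, r]]` has weight `al + 2 be` (`CB.onep`). `bil_scalar` on `U = rsp A be` (`Helper77.LA.rsp`; `f = b`, `g = ⟪ , ⟫` as bilinear maps, `LinearMap.mk₂`)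
with (2): `b(x, y) ⟪u, u⟫ = b(u, u) ⟪x, y⟫`.
-/

set_option autoImplicit false

namespace Pool.Agent.Helper77.ST

open Pool.Agent.Helper96.SA Pool.Agent.Helper96.TO Pool.Agent.Helper69.SLN Pool.Agent.Helper77.LA Pool.Agent.Helper77.TZ2

variable {L : Type} [LieRing L] [LieAlgebra ℝ L] {N : ℕ} {θ : L ≃ₗ⁅ℝ⁆ L} {b : Module.Basis (Fin N) ℝ L} {A : Submodule ℝ L}
  {τ : Module.Dual ℝ A ≃ₗ[ℝ] A} {al be : Module.Dual ℝ A} {r p : L} {ν : ℝ}

theorem CB.ip_comm (c : CB θ b A τ al be r ν) (u v : L) : ip θ ν u v = ip θ ν v u := by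
  unfold ip
  rw [kf_comm u (θ v), ← kf_theta θ (θ v) u, c.h.invol]

theorem CB.ip_pos (c : CB θ b A τ al be r ν) {u : L} (hu : u ≠ 0) : 0 < ip θ ν u u := by
  have h1 := pos c.h hu
  have h2 := c.νpos
  unfold ip
  nlinarith

theorem CB.f5 (c : CB θ b A τ al be r ν) {y : L} (hy : Wv A be y) {s : ℝ} (hs : ⁅y, ⁅y, r⁆⁆ = s • p) :
    s • ⁅θ y, p⁆ = -(ip θ ν y y • ⁅y, r⁆) := by
  rw [← lie_smul, ← hs]
  exact c.f4 hy

theorem CB.phi_phi (c : CB θ b A τ al be r ν) {y w : L} (hy : Wv A be y) (hw : Wv A be w) :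
    killingForm ℝ L ⁅y, r⁆ (θ ⁅w, r⁆) = ip θ ν y w * killingForm ℝ L r (θ r) := by
  have h1 : ⁅y, θ ⁅w, r⁆⁆ = -(ip θ ν w y • θ r) := by
    have h2 : ⁅y, θ ⁅w, r⁆⁆ = θ ⁅θ y, ⁅w, r⁆⁆ := by
      rw [LieEquiv.map_lie θ (θ y) ⁅w, r⁆, c.h.invol]
    rw [h2, c.f2 hw hy, map_neg, map_smul]
  rw [← lie_skew, map_neg, LinearMap.neg_apply, kf_inv, h1, map_neg, map_smul, smul_eq_mul, neg_neg, c.ip_comm w y]

private lemma gen26 (c : CB θ b A τ al be r ν) {y w : L} (hy : Wv A be y) (hw : Wv A be w)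
    {s t : ℝ} (hs : ⁅y, ⁅y, r⁆⁆ = s • p) (ht : ⁅y, ⁅w, r⁆⁆ = t • p) :
    s * t * killingForm ℝ L p (θ p) = ip θ ν y y * ip θ ν y w * killingForm ℝ L r (θ r) := by
  have h1 := congrArg (fun z => killingForm ℝ L z (θ ⁅w, r⁆)) (c.f5 hy hs)
  simp only [map_neg, LinearMap.neg_apply, map_smul, LinearMap.smul_apply, smul_eq_mul] at h1
  rw [c.phi_phi hy hw] at h1
  have h2 : killingForm ℝ L ⁅θ y, p⁆ (θ ⁅w, r⁆) = -(t * killingForm ℝ L p (θ p)) := by
    rw [← lie_skew, map_neg, LinearMap.neg_apply, kf_inv, ← LieEquiv.map_lie, ht, map_smul, map_smul, smul_eq_mul]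
  rw [h2] at h1
  linarith

theorem CB.f6 (c : CB θ b A τ al be r ν) (hp : Wv A (al + (2 : ℝ) • be) p) (hp0 : p ≠ 0) {y w : L} (hy : Wv A be y) (hw : Wv A be w)
    {s t : ℝ} (hs : ⁅y, ⁅y, r⁆⁆ = s • p) (ht : ⁅y, ⁅w, r⁆⁆ = t • p) : t * ip θ ν y y = s * ip θ ν y w := by
  have hG := gen26 c hy hw hs ht
  have hS := gen26 c hy hy hs hs
  by_cases hy0 : y = 0
  · subst hy0
    unfold ip
    simp
  · have h1 := c.ip_pos hy0
    have h2 := pos c.h hp0
    have h3 := pos c.h c.hr0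
    have hs0 : s ≠ 0 := by
      rintro rfl
      have : ip θ ν y y * ip θ ν y y * killingForm ℝ L r (θ r) < 0 := by
        have : 0 < ip θ ν y y * ip θ ν y y := by positivity
        nlinarith
      rw [← hS] at this
      simp at this
    have hp1 : killingForm ℝ L p (θ p) ≠ 0 := by
      intro h
      rw [h] at h2
      simp at h2
    have h4 : s * killingForm ℝ L p (θ p) ≠ 0 := mul_ne_zero hs0 hp1
    apply mul_right_cancel₀ h4
    calc t * ip θ ν y y * (s * killingForm ℝ L p (θ p)) = ip θ ν y y * (s * t * killingForm ℝ L p (θ p)) := by ring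
      _ = ip θ ν y y * (ip θ ν y y * ip θ ν y w * killingForm ℝ L r (θ r)) := by rw [hG]
      _ = ip θ ν y w * (ip θ ν y y * ip θ ν y y * killingForm ℝ L r (θ r)) := by ring
      _ = ip θ ν y w * (s * s * killingForm ℝ L p (θ p)) := by rw [hS]
      _ = s * ip θ ν y w * (s * killingForm ℝ L p (θ p)) := by ring

theorem CB.f6' (c : CB θ b A τ al be r ν) (hp : Wv A (al + (2 : ℝ) • be) p) {y : L} (hy : Wv A be y) {s : ℝ}
    (hs : ⁅y, ⁅y, r⁆⁆ = s • p) : s ^ 2 * killingForm ℝ L p (θ p) = ip θ ν y y ^ 2 * killingForm ℝ L r (θ r) := by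
  have hS := gen26 c hy hy hs hs
  rw [pow_two, pow_two]
  exact hS

theorem CB.sym (c : CB θ b A τ al be r ν) (hp : Wv A (al + (2 : ℝ) • be) p) (hp0 : p ≠ 0) {u x y : L} (hu : Wv A be u) (hu0 : u ≠ 0)
    {s : ℝ} (hs : ⁅u, ⁅u, r⁆⁆ = s • p) (hx : Wv A be x) (hy : Wv A be y) :
    ip θ ν u u • ⁅x, ⁅y, r⁆⁆ = (s * ip θ ν x y) • p := by
  have h2 := pos c.h hp0
  have hp1 : killingForm ℝ L p (θ p) ≠ 0 := by
    intro h
    rw [h] at h2
    simp at h2
  -- the coefficient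
  have hco : ∀ x y : L, Wv A be x → Wv A be y →
      ⁅x, ⁅y, r⁆⁆ = (killingForm ℝ L ⁅x, ⁅y, r⁆⁆ (θ p) / killingForm ℝ L p (θ p)) • p := by
    intro x y hx hy
    have hw : Wv A (al + (2 : ℝ) • be) ⁅x, ⁅y, r⁆⁆ := by
      have h3 := hx.lie (hy.lie c.hr)
      have h4 : be + (be + al) = al + (2 : ℝ) • be := by
        rw [two_smul]
        abel
      rwa [h4] at h3
    obtain ⟨t, ht⟩ := c.onep hp hp0 hw
    rw [ht, map_smul, LinearMap.smul_apply, smul_eq_mul, mul_div_assoc, div_self hp1, mul_one]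
  let f : rsp A be →ₗ[ℝ] rsp A be →ₗ[ℝ] ℝ :=
    LinearMap.mk₂ ℝ (fun x y => killingForm ℝ L ⁅(x : L), ⁅(y : L), r⁆⁆ (θ p) / killingForm ℝ L p (θ p))
      (by
        intro x x' y
        simp only [Submodule.coe_add, add_lie, map_add, LinearMap.add_apply, add_div])
      (by
        intro a x y
        simp only [Submodule.coe_smul, smul_lie, map_smul, LinearMap.smul_apply, smul_eq_mul, mul_div_assoc])
      (by
        intro x y y'
        simp only [Submodule.coe_add, add_lie, lie_add, map_add, LinearMap.add_apply, add_div])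
      (by
        intro a x y
        simp only [Submodule.coe_smul, smul_lie, lie_smul, map_smul, LinearMap.smul_apply, smul_eq_mul, mul_div_assoc])
  let g : rsp A be →ₗ[ℝ] rsp A be →ₗ[ℝ] ℝ :=
    LinearMap.mk₂ ℝ (fun x y => ip θ ν (x : L) (y : L))
      (by
        intro x x' y
        simp only [ip, Submodule.coe_add, map_add, LinearMap.add_apply]
        ring)
      (by
        intro a x y
        simp only [ip, Submodule.coe_smul, map_smul, LinearMap.smul_apply, smul_eq_mul]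
        ring)
      (by
        intro x y y'
        simp only [ip, Submodule.coe_add, map_add, LinearMap.add_apply]
        ring)
      (by
        intro a x y
        simp only [ip, Submodule.coe_smul, map_smul, LinearMap.smul_apply, smul_eq_mul]
        ring)
  have hf : ∀ x y : rsp A be, f x y = killingForm ℝ L ⁅(x : L), ⁅(y : L), r⁆⁆ (θ p) / killingForm ℝ L p (θ p) := fun x y => rfl
  have hg : ∀ x y : rsp A be, g x y = ip θ ν (x : L) (y : L) := fun x y => rfl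
  have hpos : ∀ x : rsp A be, x ≠ 0 → 0 < g x x := by
    intro x hx
    rw [hg]
    exact c.ip_pos fun h => hx (Subtype.ext h)
  have hfg : ∀ x y : rsp A be, f x y * g x x = f x x * g x y := by
    intro x y
    rw [hf, hf, hg, hg]
    exact c.f6 hp hp0 x.2 y.2 (hco x x x.2 x.2) (hco x y x.2 y.2)
  have h0 : (⟨u, hu⟩ : rsp A be) ≠ 0 := fun h => hu0 (congrArg Subtype.val h)
  have h5 := bil_scalar f g hpos hfg h0 (⟨x, hx⟩ : rsp A be) (⟨y, hy⟩ : rsp A be)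
  rw [hf, hf, hg, hg] at h5
  have h6 : killingForm ℝ L ⁅u, ⁅u, r⁆⁆ (θ p) / killingForm ℝ L p (θ p) = s := by
    rw [hs, map_smul, LinearMap.smul_apply, smul_eq_mul, mul_div_assoc, div_self hp1, mul_one]
  rw [hco x y hx hy, smul_smul]
  congr 1
  have h7 : killingForm ℝ L ⁅x, ⁅y, r⁆⁆ (θ p) / killingForm ℝ L p (θ p) * ip θ ν u u =
      killingForm ℝ L ⁅u, ⁅u, r⁆⁆ (θ p) / killingForm ℝ L p (θ p) * ip θ ν x y := h5
  rw [h6] at h7
  rw [mul_comm]
  exact h7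

end Pool.Agent.Helper77.ST
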