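import Pool.Agent.Helper77.ST.BSym

/-!
# Project OB, layer ST, block ST-B6: the table of the brackets (type `B_2`, normalised)

`φ u = [u, r]` for `u` of weight `be`; `⟪u, v⟫ = ip θ ν u v`; `Wv.lie`, `Wv.theta` for the weights; `c.toCB` for the theorems of `BF.lean`.
`t1` = `uur`. `t2`: weight `al + 3 be`. `t3` = `CB.f2`. `t4` = `tup`. `t5`: `[[u, r], θ r] = [u, [r, θ r]] + [[u, θ r], r]`; `[u, θ r] = 0` (weight `be - al`); `[r, θ r] = κ(r, θ r) τ al` (`lie_theta_self`), `[τ al, u] = be (τ al) u = -ν u`, so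
`[u, [r, θ r]] = κ(r, θ r) ν u = -u` (`rr`). `t6`: `θ` of `t5`. `t7`: `[[u, r], θ p] = [u, [r, θ p]] + [[u, θ p], r]`, `[r, θ p] = 0` (weight `-2 be`, which is no root by `hB`: `Wv.eq_zero`), `[u, θ p] = θ [θ u, p] = θ [u, r]` (`tup`), `[θ [u, r], r] = -[r, θ [u, r]] = -θ u` (`t6`).
`t8`: `θ` of `t7`. `t9`, `t9'`: weights `-2 be`, `2 be`. `t10`: `[[u, r], θ [w, r]] = [u, [r, θ [w, r]]] - [r, [u, θ [w, r]]] = [u, θ w] - [r, [u, θ [w, r]]]` (`t6`), `[u, θ [w, r]] = θ [θ u, [w, r]] = -⟪w, u⟫ θ r` (`t3`).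
`hm`: `[r, θ r] = κ(r, θ r) τ al`, `κ(r, θ r) = -1/ν`; a vector of weight `m al + n be` is multiplied by `-(m · 2 ν + n · (-ν)) / ν = n - 2 m`. `hpl`: `[p, θ p] = κ(p, θ p) τ (al + 2 be)`, `τ (al + 2 be) = τ al + 2 τ be`;
`(m al + n be)(τ al + 2 τ be) = 2 ν m - ν n + 2 (-ν m + ν n) = ν n`: multiplied by `-n`. `sur`: `[v, r] = 0` (weight `2 al + be`), `[[θ r, v], r] = [θ r, [v, r]] - [v, [θ r, r]] = [v, [r, θ r]] = -[[r, θ r], v] = v` (`hm` with `m = n = 1`).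
`ud`: `[[u, θ w], φ z] = [u, [θ w, φ z]] - [θ w, [u, φ z]] = -⟪z, w⟫ φ u + ⟪u, z⟫ [θ w, p] = -⟪z, w⟫ φ u + ⟪u, z⟫ φ w`. `up`: `[[u, θ w], p] = [u, [θ w, p]] - [θ w, [u, p]] = [u, φ w] = -⟪u, w⟫ p`.
`xx`: sums of two of the weights `al, al + be, al + 2 be` are not roots and not `0`.
-/

set_option autoImplicit false

namespace Pool.Agent.Helper77.ST

open Pool.Agent.Helper96.SA Pool.Agent.Helper96.TO Pool.Agent.Helper69.SLN Pool.Agent.Helper77.LA Pool.Agent.Helper77.TZ2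

variable {L : Type} [LieRing L] [LieAlgebra ℝ L] {N : ℕ} {θ : L ≃ₗ⁅ℝ⁆ L} {b : Module.Basis (Fin N) ℝ L} {A : Submodule ℝ L}
  {τ : Module.Dual ℝ A ≃ₗ[ℝ] A} {al be : Module.Dual ℝ A} {r p : L} {ν : ℝ}

private theorem zero24 (c : CN θ b A τ al be r p ν) {φ : Module.Dual ℝ A} {x : L} (hx : Wv A φ x) (m n : ℝ)
    (hφ : φ = m • al + n • be) (h0 : ¬ (m = 0 ∧ n = 0))
    (h1 : ∀ q ∈ lB2, ¬ (m = (q.1 : ℝ) ∧ n = (q.2 : ℝ)) ∧ ¬ (m = -(q.1 : ℝ) ∧ n = -(q.2 : ℝ))) : x = 0 := by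
  subst hφ
  refine hx.eq_zero ?_ ?_
  · intro hr
    obtain ⟨q, hq, h | h⟩ := (c.hB _).1 hr
    · have h2 : (m - q.1) • al + (n - q.2) • be = 0 := by
        have h3 : m • al + n • be - ((q.1 : ℝ) • al + (q.2 : ℝ) • be) = 0 := sub_eq_zero.2 h
        rw [← h3]
        module
      obtain ⟨h3, h4⟩ := c.ind _ _ h2
      exact (h1 q hq).1 ⟨sub_eq_zero.1 h3, sub_eq_zero.1 h4⟩
    · have h2 : (m + q.1) • al + (n + q.2) • be = 0 := by
        have h3 : m • al + n • be - (-((q.1 : ℝ) • al + (q.2 : ℝ) • be)) = 0 := sub_eq_zero.2 h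
        rw [← h3]
        module
      obtain ⟨h3, h4⟩ := c.ind _ _ h2
      exact (h1 q hq).2 ⟨eq_neg_of_add_eq_zero_left h3, eq_neg_of_add_eq_zero_left h4⟩
  · intro h
    exact h0 (c.ind _ _ h)

private theorem hm24 (c : CN θ b A τ al be r p ν) {m n : ℝ} {x : L} (hx : Wv A (m • al + n • be) x) :
    ⁅⁅r, θ r⁆, x⁆ = (n - 2 * m) • x := by
  rw [lie_theta_self c.hτ c.h c.hA c.hr, smul_lie, hx (τ al), smul_smul]
  congr 1
  rw [LinearMap.add_apply, LinearMap.smul_apply, LinearMap.smul_apply, smul_eq_mul, smul_eq_mul, c.aa, c.ba]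
  have h := c.rr
  linear_combination (2 * m - n) * h

private theorem inv24 (c : CN θ b A τ al be r p ν) (x : L) : θ (θ x) = x := c.h.invol x

private theorem wu24 {u : L} (hu : Wv A be u) : Wv A ((0 : ℝ) • al + (1 : ℝ) • be) u := by
  rw [zero_smul, one_smul, zero_add]
  exact hu

private theorem rp24 (c : CN θ b A τ al be r p ν) : ⁅r, θ p⁆ = 0 := by
  refine zero24 c (c.hr.lie (c.hp.theta c.hA)) 0 (-2) (by module) (by norm_num) ?_
  intro q hq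
  simp only [lB2, List.mem_cons, List.not_mem_nil, or_false] at hq
  rcases hq with rfl | rfl | rfl | rfl <;> norm_num

theorem CN.t2 (c : CN θ b A τ al be r p ν) {u : L} (hu : Wv A be u) : ⁅u, p⁆ = 0 := by
  refine zero24 c (hu.lie c.hp) 1 3 (by module) (by norm_num) ?_
  intro q hq
  simp only [lB2, List.mem_cons, List.not_mem_nil, or_false] at hq
  rcases hq with rfl | rfl | rfl | rfl <;> norm_num

theorem CN.t5 (c : CN θ b A τ al be r p ν) {u : L} (hu : Wv A be u) : ⁅⁅u, r⁆, θ r⁆ = -u := by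
  have h1 : ⁅u, θ r⁆ = 0 := by
    refine zero24 c (hu.lie (c.hr.theta c.hA)) (-1) 1 (by module) (by norm_num) ?_
    intro q hq
    simp only [lB2, List.mem_cons, List.not_mem_nil, or_false] at hq
    rcases hq with rfl | rfl | rfl | rfl <;> norm_num
  have h2 := hm24 c (wu24 (al := al) hu)
  rw [lie_lie, h1, lie_zero, sub_zero, ← lie_skew, h2]
  norm_num

theorem CN.t6 (c : CN θ b A τ al be r p ν) {u : L} (hu : Wv A be u) : ⁅r, θ ⁅u, r⁆⁆ = θ u := by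
  have h1 := congrArg θ (c.t5 hu)
  rw [LieEquiv.map_lie, inv24 c, map_neg] at h1
  rw [← lie_skew, h1, neg_neg]

theorem CN.t7 (c : CN θ b A τ al be r p ν) {u : L} (hu : Wv A be u) : ⁅⁅u, r⁆, θ p⁆ = -θ u := by
  have h1 : ⁅u, θ p⁆ = θ ⁅u, r⁆ := by
    rw [← c.tup u hu, LieEquiv.map_lie, inv24 c]
  rw [lie_lie, rp24 c, lie_zero, zero_sub, h1, c.t6 hu]

theorem CN.t8 (c : CN θ b A τ al be r p ν) {u : L} (hu : Wv A be u) : ⁅p, θ ⁅u, r⁆⁆ = u := by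
  have h1 := congrArg θ (c.t7 hu)
  rw [LieEquiv.map_lie, inv24 c, map_neg, inv24 c] at h1
  rw [← lie_skew, h1, neg_neg]

theorem CN.t9 (c : CN θ b A τ al be r p ν) : ⁅r, θ p⁆ = 0 := by
  exact rp24 c

theorem CN.t9' (c : CN θ b A τ al be r p ν) : ⁅p, θ r⁆ = 0 := by
  refine zero24 c (c.hp.lie (c.hr.theta c.hA)) 0 2 (by module) (by norm_num) ?_
  intro q hq
  simp only [lB2, List.mem_cons, List.not_mem_nil, or_false] at hq
  rcases hq with rfl | rfl | rfl | rfl <;> norm_num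

theorem CN.t10 (c : CN θ b A τ al be r p ν) {u w : L} (hu : Wv A be u) (hw : Wv A be w) :
    ⁅⁅u, r⁆, θ ⁅w, r⁆⁆ = ⁅u, θ w⁆ + ip θ ν u w • ⁅r, θ r⁆ := by
  have h1 : ⁅u, θ ⁅w, r⁆⁆ = -(ip θ ν w u • θ r) := by
    have h2 := congrArg θ (c.toCB.f2 hw hu)
    rw [LieEquiv.map_lie, inv24 c, map_neg, map_smul] at h2
    exact h2
  rw [lie_lie, c.t6 hw, h1, lie_neg, lie_smul, sub_neg_eq_add, c.toCB.ip_comm w u]

theorem CN.hm (c : CN θ b A τ al be r p ν) {m n : ℝ} {x : L} (hx : Wv A (m • al + n • be) x) : ⁅⁅r, θ r⁆, x⁆ = (n - 2 * m) • x := by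
  exact hm24 c hx

theorem CN.hpl (c : CN θ b A τ al be r p ν) {m n : ℝ} {x : L} (hx : Wv A (m • al + n • be) x) : ⁅⁅p, θ p⁆, x⁆ = (-n) • x := by
  rw [lie_theta_self c.hτ c.h c.hA c.hp, smul_lie, hx (τ (al + (2 : ℝ) • be)), smul_smul]
  congr 1
  have h1 : ((m • al + n • be : Module.Dual ℝ A) (τ (al + (2 : ℝ) • be))) = ν * n := by
    rw [map_add τ, map_smul τ, map_add, map_smul]
    simp only [LinearMap.add_apply, LinearMap.smul_apply, smul_eq_mul, c.aa, c.ba, c.ab, c.bb]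
    ring
  rw [h1]
  have h := c.pp
  linear_combination n * h

theorem CN.sur (c : CN θ b A τ al be r p ν) {v : L} (hv : Wv A (al + be) v) : ⁅⁅θ r, v⁆, r⁆ = v := by
  have h1 : ⁅v, r⁆ = 0 := by
    refine zero24 c (hv.lie c.hr) 2 1 (by module) (by norm_num) ?_
    intro q hq
    simp only [lB2, List.mem_cons, List.not_mem_nil, or_false] at hq
    rcases hq with rfl | rfl | rfl | rfl <;> norm_num
  have hv' : Wv A ((1 : ℝ) • al + (1 : ℝ) • be) v := by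
    rw [one_smul, one_smul]
    exact hv
  have h2 := hm24 c hv'
  rw [lie_lie, h1, lie_zero, zero_sub, ← lie_skew (θ r) r, lie_neg, neg_neg, ← lie_skew, h2]
  norm_num

theorem CN.ud (c : CN θ b A τ al be r p ν) {u w z : L} (hu : Wv A be u) (hw : Wv A be w) (hz : Wv A be z) :
    ⁅⁅u, θ w⁆, ⁅z, r⁆⁆ = ip θ ν u z • ⁅w, r⁆ - ip θ ν w z • ⁅u, r⁆ := by
  rw [lie_lie, c.toCB.f2 hz hw, c.uur u z hu hz, lie_neg, lie_neg, lie_smul, lie_smul, c.tup w hw, c.toCB.ip_comm z w]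
  abel

theorem CN.up (c : CN θ b A τ al be r p ν) {u w : L} (hu : Wv A be u) (hw : Wv A be w) : ⁅⁅u, θ w⁆, p⁆ = -(ip θ ν u w • p) := by
  rw [lie_lie, c.tup w hw, c.t2 hu, lie_zero, sub_zero, c.uur u w hu hw]

theorem CN.xx (c : CN θ b A τ al be r p ν) {s t : ℝ} (hs : s = 0 ∨ s = 1 ∨ s = 2) (ht : t = 0 ∨ t = 1 ∨ t = 2) {x y : L}
    (hx : Wv A (al + s • be) x) (hy : Wv A (al + t • be) y) : ⁅x, y⁆ = 0 := by
  refine zero24 c (hx.lie hy) 2 (s + t) (by module) (by norm_num) ?_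
  intro q hq
  simp only [lB2, List.mem_cons, List.not_mem_nil, or_false] at hq
  rcases hq with rfl | rfl | rfl | rfl <;> norm_num

end Pool.Agent.Helper77.ST
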