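import Pool.Agent.Helper77.ST.BTab

/-!
# Project OB, layer ST, block ST-B7: the triple product

`xv`: the basis of the degree one part (with respect to `e_1`): `[w i, r]` (weight `e_1`), `r` (weight `e_1 - e_2`), `p` (weight `e_1 + e_2`), `w i` orthonormal of weight `be`. PROOF of `tri`: 27 cases (`rcases` on `i, j, k`; the sum over `l` is
`Fintype.sum_sum_type`, `Finset.sum_ite_eq`, or first prove `∑ l, TT m i j k l • X l = -(if j = k then X i else 0) - (if i = j then X k else 0) + (if k = sg i then X (sg j) else 0)`, this is `sum_TT`).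
The operators `[xv i, θ (xv j)]`: `(r, r)`: `[r, θ r]`, `hm`; `(r, w)`: `θ w` (`t6`); `(r, p)`: `0` (`t9`); `(w, r)`: `-w` (`t5`); `(u, w)`: `[u, θ w] + ⟪u, w⟫ [r, θ r]` (`t10`); `(w, p)`: `-θ w` (`t7`); `(p, r)`: `0` (`t9'`); `(p, w)`: `w` (`t8`); `(p, p)`: `hpl`.
Their action: `w`: `r ↦ [w, r]`, `[z, r] ↦ -⟪w, z⟫ p` (`uur`), `p ↦ 0` (`t2`); `θ w`: `r ↦ 0` (`th_r`), `[z, r] ↦ -⟪z, w⟫ r` (`f2`), `p ↦ [w, r]` (`tup`); `[u, θ w]`: `r ↦ ⟪u, w⟫ r` (`f2'`), `ud`, `up`; `[r, θ r]`: `-2, -1, 0` on `r, [z, r], p`;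
`[p, θ p]`: `0, -1, -2` on `r, [z, r], p`. All the 27 identities are then immediate (`ip` is symmetric and `ip θ ν (w i) (w j) = if i = j then 1 else 0`).
-/

set_option autoImplicit false

namespace Pool.Agent.Helper77.ST

open Pool.Agent.Helper96.SA Pool.Agent.Helper96.TO Pool.Agent.Helper69.SLN Pool.Agent.Helper77.LA Pool.Agent.Helper77.TZ2

variable {L : Type} [LieRing L] [LieAlgebra ℝ L] {N : ℕ} {θ : L ≃ₗ⁅ℝ⁆ L} {b : Module.Basis (Fin N) ℝ L} {A : Submodule ℝ L}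
  {τ : Module.Dual ℝ A ≃ₗ[ℝ] A} {al be : Module.Dual ℝ A} {r p : L} {ν : ℝ}

/-- The basis of the degree one part. -/
def xv {m : ℕ} (r p : L) (w : Fin m → L) : VI m → L
  | Sum.inl i => ⁅w i, r⁆
  | Sum.inr false => r
  | Sum.inr true => p

theorem sum_TT {m : ℕ} (i j k : VI m) (X : VI m → L) : ∑ l, TT m i j k l • X l =
    -(if j = k then X i else 0) - (if i = j then X k else 0) + (if k = sg i then X (sg j) else 0) := by
  have h1 : ∑ l, (if j = k ∧ i = l then (1 : ℝ) else 0) • X l = if j = k then X i else 0 := by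
    by_cases h : j = k
    · simp [h]
    · simp [h]
  have h2 : ∑ l, (if i = j ∧ k = l then (1 : ℝ) else 0) • X l = if i = j then X k else 0 := by
    by_cases h : i = j
    · simp [h]
    · simp [h]
  have h3 : ∑ l, (if k = sg i ∧ l = sg j then (1 : ℝ) else 0) • X l = if k = sg i then X (sg j) else 0 := by
    by_cases h : k = sg i
    · simp [h]
    · simp [h]
  unfold TT
  simp only [add_smul, sub_smul, neg_smul, Finset.sum_add_distrib, Finset.sum_sub_distrib, Finset.sum_neg_distrib]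
  rw [h1, h2, h3]

theorem CN.tri (c : CN θ b A τ al be r p ν) {m : ℕ} {w : Fin m → L} (hw : ∀ i, Wv A be (w i))
    (ho : ∀ i j, ip θ ν (w i) (w j) = if i = j then 1 else 0) (i j k : VI m) :
    ⁅⁅xv r p w i, θ (xv r p w j)⁆, xv r p w k⁆ = ∑ l, TT m i j k l • xv r p w l := by
  have wr : Wv A ((1 : ℝ) • al + (0 : ℝ) • be) r := by simpa using c.hr
  have wp : Wv A ((1 : ℝ) • al + (2 : ℝ) • be) p := by simpa using c.hp
  have ww : ∀ i, Wv A ((1 : ℝ) • al + (1 : ℝ) • be) ⁅w i, r⁆ := fun i => by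
    have := (hw i).lie c.hr
    rw [add_comm] at this
    simpa using this
  have m1 : ⁅⁅r, θ r⁆, r⁆ = -r - r := by
    rw [c.hm wr]
    module
  have m2 : ∀ i, ⁅⁅r, θ r⁆, ⁅w i, r⁆⁆ = -⁅w i, r⁆ := fun i => by
    rw [c.hm (ww i)]
    module
  have m3 : ⁅⁅r, θ r⁆, p⁆ = 0 := by
    rw [c.hm wp]
    module
  have q1 : ⁅⁅p, θ p⁆, r⁆ = 0 := by
    rw [c.hpl wr]
    module
  have q2 : ∀ i, ⁅⁅p, θ p⁆, ⁅w i, r⁆⁆ = -⁅w i, r⁆ := fun i => by
    rw [c.hpl (ww i)]
    module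
  have q3 : ⁅⁅p, θ p⁆, p⁆ = -p - p := by
    rw [c.hpl wp]
    module
  have s1 : ∀ i j, ⁅w i, ⁅w j, r⁆⁆ = -(if i = j then p else 0) := fun i j => by
    rw [c.uur _ _ (hw i) (hw j), ho, ite_smul, one_smul, zero_smul]
  have s2 : ∀ i, ⁅w i, p⁆ = 0 := fun i => c.t2 (hw i)
  have s3 : ∀ i, ⁅θ (w i), r⁆ = 0 := fun i => c.toCB.th_r (hw i)
  have s4 : ∀ i j, ⁅θ (w i), ⁅w j, r⁆⁆ = -(if i = j then r else 0) := fun i j => by
    rw [c.toCB.f2 (hw j) (hw i), ho, ite_smul, one_smul, zero_smul]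
    simp only [eq_comm]
  have s5 : ∀ i, ⁅θ (w i), p⁆ = ⁅w i, r⁆ := fun i => c.tup _ (hw i)
  have s6 : ∀ i j, ⁅⁅w i, θ (w j)⁆, r⁆ = if i = j then r else 0 := fun i j => by
    rw [c.toCB.f2' (hw i) (hw j), ho, ite_smul, one_smul, zero_smul]
  have s7 : ∀ i j k, ⁅⁅w i, θ (w j)⁆, ⁅w k, r⁆⁆ =
      (if i = k then ⁅w j, r⁆ else 0) - (if j = k then ⁅w i, r⁆ else 0) := fun i j k => by
    rw [c.ud (hw i) (hw j) (hw k), ho, ho, ite_smul, ite_smul, one_smul, one_smul, zero_smul, zero_smul]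
  have s8 : ∀ i j, ⁅⁅w i, θ (w j)⁆, p⁆ = -(if i = j then p else 0) := fun i j => by
    rw [c.up (hw i) (hw j), ho, ite_smul, one_smul, zero_smul]
  have t10 : ∀ i j, ⁅⁅w i, r⁆, θ ⁅w j, r⁆⁆ = ⁅w i, θ (w j)⁆ + if i = j then ⁅r, θ r⁆ else 0 := fun i j => by
    rw [c.t10 (hw i) (hw j), ho, ite_smul, one_smul, zero_smul]
  rw [sum_TT]
  rcases i with i | (_ | _) <;> rcases j with j | (_ | _) <;> rcases k with k | (_ | _) <;>
    simp only [xv, sg, Sum.inl.injEq, Sum.inr.injEq, reduceCtorEq, Bool.not_false, Bool.not_true, if_true, if_false,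
      c.t9, c.t9', c.t5 (hw _), c.t6 (hw _), c.t7 (hw _), c.t8 (hw _), t10, zero_lie, neg_lie, add_lie, m1, m2, m3, q1, q2, q3,
      s1, s2, s3, s4, s5, s6, s7, s8, neg_zero, sub_zero, add_zero, zero_add, neg_neg, neg_add_cancel, zero_sub]
  · by_cases h1 : i = j
    · by_cases h2 : i = k
      · simp only [← h1, ← h2, if_true, m2, sub_self, zero_add]
        abel
      · simp only [← h1, h2, Ne.symm h2, if_true, if_false, m2]
        abel
    · by_cases h2 : i = k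
      · simp only [h1, ← h2, Ne.symm h1, if_true, if_false, zero_lie]
        abel
      · simp only [h1, h2, Ne.symm h2, if_false, zero_lie]
        abel
  · by_cases h1 : i = j
    · simp only [h1, if_true, m1]
      abel
    · simp only [h1, if_false, zero_lie]
      abel
  · by_cases h1 : i = j
    · simp only [h1, if_true, m3, add_zero]
    · simp only [h1, if_false, zero_lie, add_zero]
  · simp only [eq_comm]
  · simp only [eq_comm]

end Pool.Agent.Helper77.ST
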