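import Pool.Agent.Helper77.ST.Main
import Pool.Agent.Helper43.TZ.SLie
import Pool.Agent.Helper42.TZ.C.SlR

/-!
# Project OB (MP_0f6f3f_an), layer ST: the form of the theorem which is used in the assembly (`Helper55/OB/Iface.lean`, `layerST`)
-/

set_option autoImplicit false

namespace Pool.Agent.Helper77.ST

open Pool.Agent.Helper96.SA Pool.Agent.Helper96.TO Pool.Agent.Helper69.SLN Pool.Agent.Helper77.LA Pool.Agent.Helper77.TZ2
open Pool.Agent.Helper55.OB Pool.Agent.Helper43.TZ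

attribute [local instance 100] LieRing.ofAssociativeRing

variable {L : Type} [LieRing L] [LieAlgebra ℝ L] {N : ℕ} {θ : L ≃ₗ⁅ℝ⁆ L} {b : Module.Basis (Fin N) ℝ L} {A : Submodule ℝ L}
  {al be : Module.Dual ℝ A}

theorem SimPair.symm (hs : SimPair A al be) : SimPair A be al where
  ha := hs.hb
  hb := hs.ha
  ind := ind_swap hs.ind
  pos := fun φ hφ => by
    obtain ⟨m, n, h1⟩ := hs.pos φ hφ
    exact ⟨n, m, by rw [add_comm]; exact h1⟩

/-- The multiples of a simple root. -/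
theorem SimPair.mult (hs : SimPair A al be) (h : CartanBasis θ b) (hA : MaxFlat θ A) {c : ℝ} (hc : c • al ∈ rootsL A) :
    c = 1 ∨ c = -1 ∨ c = 2 ∨ c = -2 := by
  have hF : Module.Finite ℝ L := Module.Finite.of_basis b
  obtain ⟨τ, hτ⟩ := exists_tau h hA
  have hc0 : c ≠ 0 := fun h0 => hc.1 (by rw [h0, zero_smul])
  have hpos := tau_pos hτ h hA hs.ha.1
  obtain ⟨n', h1, -⟩ := refl h hA hτ hs.ha hc
  simp only [map_smul, LinearMap.smul_apply, smul_eq_mul] at h1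
  have h2 : (n' : ℝ) * c = 2 := by
    have h3 : (c * al (τ al)) * ((n' : ℝ) * c - 2) = 0 := by linarith
    rcases mul_eq_zero.1 h3 with h4 | h4
    · exfalso
      rcases mul_eq_zero.1 h4 with h5 | h5
      · exact hc0 h5
      · exact hpos.ne' h5
    · linarith
  obtain ⟨m, n, h3⟩ := hs.pos _ hc
  have h4 : c = (m : ℝ) ∨ c = -(m : ℝ) := by
    rcases h3 with h3 | h3
    · left
      have h5 : (c - (m : ℝ)) • al + (-(n : ℝ)) • be = 0 := by
        rw [← sub_eq_zero.2 h3]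
        module
      exact sub_eq_zero.1 (hs.ind _ _ h5).1
    · right
      have h5 : (c + (m : ℝ)) • al + (n : ℝ) • be = 0 := by
        rw [← sub_eq_zero.2 h3]
        module
      exact eq_neg_of_add_eq_zero_left (hs.ind _ _ h5).1
  have h5 : (m : ℤ) ∣ 2 := by
    rcases h4 with h4 | h4
    · refine ⟨n', ?_⟩
      rw [h4] at h2
      have h6 : n' * (m : ℤ) = 2 := by exact_mod_cast h2
      rw [← h6, mul_comm]
    · refine ⟨-n', ?_⟩
      rw [h4] at h2
      have h6 : -(n' * (m : ℤ)) = 2 := by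
        have h7 : -((n' : ℝ) * (m : ℝ)) = 2 := by linarith
        exact_mod_cast h7
      rw [← h6]
      ring
  have h6 : m ∣ 2 := by exact_mod_cast h5
  have h7 : m ≤ 2 := Nat.le_of_dvd (by norm_num) h6
  have h8 : m ≠ 0 := by
    rintro rfl
    rcases h4 with h4 | h4
    · exact hc0 (by rw [h4]; norm_num)
    · exact hc0 (by rw [h4]; norm_num)
  have h9 : m = 1 ∨ m = 2 := by omega
  rcases h9 with rfl | rfl <;> rcases h4 with h4 | h4 <;> norm_num at h4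
  · exact Or.inl h4
  · exact Or.inr (Or.inl h4)
  · exact Or.inr (Or.inr (Or.inl h4))
  · exact Or.inr (Or.inr (Or.inr h4))

theorem SimPair.lev_eq (hs : SimPair A al be) (h : CartanBasis θ b) (hA : MaxFlat θ A) :
    LieSubalgebra.lieSpan ℝ L {x | ∃ c : ℝ, (c = 1 ∨ c = -1 ∨ c = 2 ∨ c = -2) ∧ x ∈ rootSp A (c • al)} = lev A al := by
  apply le_antisymm
  · apply LieSubalgebra.lieSpan_mono
    rintro x ⟨c, hc, hx⟩
    refine ⟨c, ?_, hx⟩
    rcases hc with rfl | rfl | rfl | rfl <;> norm_num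
  · apply LieSubalgebra.lieSpan_le.2
    rintro x ⟨c, hc, hx⟩
    by_cases hx0 : x = 0
    · rw [hx0]
      exact LieSubalgebra.zero_mem _
    · have h1 : c • al ∈ rootsL A := ⟨smul_ne_zero hc hs.ha.1, x, hx0, hx⟩
      exact LieSubalgebra.subset_lieSpan ⟨c, hs.mult h hA h1, hx⟩

/-- **Layer ST**, the form used in the assembly. -/
theorem layerST_bri [LieAlgebra.IsSimple ℝ L] (h : CartanBasis θ b) (hA : MaxFlat θ A) (h2 : Module.finrank ℝ A = 2)
    (memα : al ∈ rootsL A) (memβ : be ∈ rootsL A) (ind : LinearIndependent ℝ ![al, be])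
    (span : ∀ φ ∈ rootsL A, ∃ m n : ℕ, φ = (m : ℝ) • al + (n : ℝ) • be ∨ φ = -((m : ℝ) • al + (n : ℝ) • be))
    (hd : Module.finrank ℝ (LieSubalgebra.lieSpan ℝ L {x | ∃ c : ℝ, (c = 1 ∨ c = -1 ∨ c = 2 ∨ c = -2) ∧ x ∈ rootSp A (c • al)}) ≤ 3) :
    Nonempty (L ≃ₗ⁅ℝ⁆ Pool.Agent.Helper42.TZ.slR 3 ℝ) ∨ (al + (3 : ℝ) • be ∈ rootsL A ∨ (3 : ℝ) • al + be ∈ rootsL A) ∨
      ∃ n : ℕ, 5 ≤ n ∧ Nonempty (L ≃ₗ⁅ℝ⁆ so2 n) ∧
        Module.finrank ℝ (LieSubalgebra.lieSpan ℝ L {x | ∃ c : ℝ, (c = 1 ∨ c = -1 ∨ c = 2 ∨ c = -2) ∧ x ∈ rootSp A (c • be)}) =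
          (n - 2) * (n - 3) / 2 := by
  have hs : SimPair A al be := ⟨memα, memβ, fun s t hst => LinearIndependent.pair_iff.1 ind s t hst, span⟩
  rw [hs.lev_eq h hA] at hd
  obtain ⟨h1, h3⟩ := one_of_lev h hA memα hd
  rcases st_main h hA h2 hs h1 h3 with ⟨⟨e⟩⟩ | hG | ⟨n, hn, ⟨e⟩, hdim, -⟩
  · left
    exact ⟨e.trans (Pool.Agent.Helper42.TZ.slR_equiv 3).symm⟩
  · right; left
    rcases hG with hG | hG
    · left
      rw [hG]
      exact ⟨(1, 3), by simp [lG2], Or.inl (by norm_num)⟩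
    · right
      rw [hG]
      exact ⟨(1, 3), by simp [lG2], Or.inl (by rw [add_comm]; norm_num)⟩
  · right; right
    refine ⟨n + 2, by omega, ⟨e⟩, ?_⟩
    rw [hs.symm.lev_eq h hA, hdim]
    congr 2

end Pool.Agent.Helper77.ST
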