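import Pool.Agent.Helper77.ST.CDef

/-!
# Project OB, layer ST, block ST-C3: the centralizer of the `Ex`, `Ey` in the model is zero; linear independence

`cen_so2`. Let `Z ∈ so2 (m + 4)` commute with all `Ex a`, `Ey a`. Compare entries. `Z * Ex a = Ex a * Z`, `Ex a = single (ix a) la 1 - single 0 (ix (sg a)) 1`: the column `la` of the left side is the column `ix a` of `Z`, the column `ix (sg a)` is `-`(column `0` of `Z`), the other columns are `0`; the row `ix a` of the
right side is the row `la` of `Z`, the row `0` is `-`(row `ix (sg a)` of `Z`), the other rows are `0`. So: (i) the entries `(ix a, k)`, `k` different from `la`, `ix (sg a)`: `0 = Z la k`; with `a = inr false` and `a = inr true`: `Z la k = 0` for all `k ≠ la`. (ii) the entry `(ix a, la)`: `Z (ix a) (ix a) = Z la la`.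
(iii) the entries `(k, la)`, `k ≠ ix a, 0`: `Z k (ix a) = 0`. (iv) the entry `(k, ix (sg a))`, `k ≠ 0, ix a`: `Z k 0 = 0`; so `Z k 0 = 0` for `k ≠ 0`. With `Ey` (the transposed equations, `Ey a = single (ix (sg a)) 0 1 - single la (ix a) 1`): `Z (ix a) (ix a) = Z 0 0`, `Z 0 k = 0` for `k ≠ 0`, `Z k la = 0` for `k ≠ la`.
So `Z = c • 1` with `c = Z 0 0 = Z la la`. The entry `(0, la)` of `Zᵀ J + J Z = 0` is `c + c = 0` (`J` exchanges `0` and `la`, `jj_zero`): `c = 0`. (`idx_cases` for the indices.)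
`lin_Ex`: the entry `(ix a, la)` of `∑ t_b Ex b` is `t_a`. `lin_Ey`: the entry `(la, ix a)` of `∑ t_b Ey b` is `-t_a` (`Fintype.linearIndependent_iff`).
-/

set_option autoImplicit false

namespace Pool.Agent.Helper77.ST

open Matrix Pool.Agent.Helper55.OB

private theorem ms63 {n : ℕ} (Z : Matrix (Fin n) (Fin n) ℝ) (i j k l : Fin n) :
    (Z * single i j (1 : ℝ)) k l = if l = j then Z k i else 0 := by
  rw [Matrix.mul_apply, Finset.sum_eq_single i]
  · simp only [Matrix.single_apply]
    by_cases h : l = j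
    · subst h
      simp
    · simp [h, Ne.symm h]
  · intro t _ ht
    simp only [Matrix.single_apply]
    rw [if_neg (fun h3 => ht h3.1.symm), mul_zero]
  · intro h1
    exact absurd (Finset.mem_univ i) h1

private theorem sm63 {n : ℕ} (Z : Matrix (Fin n) (Fin n) ℝ) (i j k l : Fin n) :
    (single i j (1 : ℝ) * Z) k l = if k = i then Z j l else 0 := by
  rw [Matrix.mul_apply, Finset.sum_eq_single j]
  · simp only [Matrix.single_apply]
    by_cases h : k = i
    · subst h
      simp
    · simp [h, Ne.symm h]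
  · intro t _ ht
    simp only [Matrix.single_apply]
    rw [if_neg (fun h3 => ht h3.2.symm), zero_mul]
  · intro h1
    exact absurd (Finset.mem_univ j) h1

private theorem eE63 {m : ℕ} {Z : Matrix (Fin (m + 4)) (Fin (m + 4)) ℝ}
    (h1 : ∀ a : VI m, Z * Ex a - Ex a * Z = 0) (a : VI m) (k l : Fin (m + 4)) :
    ((if l = la m then Z k (ix a) else 0) - (if l = ix (sg a) then Z k 0 else 0)) -
      ((if k = ix a then Z (la m) l else 0) - (if k = 0 then Z (ix (sg a)) l else 0)) = 0 := by
  have h := congrFun (congrFun (h1 a) k) l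
  rw [Ex, Matrix.mul_sub, Matrix.sub_mul] at h
  simp only [Matrix.sub_apply, Matrix.zero_apply, ms63, sm63] at h
  exact h

private theorem eF63 {m : ℕ} {Z : Matrix (Fin (m + 4)) (Fin (m + 4)) ℝ}
    (h2 : ∀ a : VI m, Z * Ey a - Ey a * Z = 0) (a : VI m) (k l : Fin (m + 4)) :
    ((if l = 0 then Z k (ix (sg a)) else 0) - (if l = ix a then Z k (la m) else 0)) -
      ((if k = ix (sg a) then Z 0 l else 0) - (if k = la m then Z (ix a) l else 0)) = 0 := by
  have h := congrFun (congrFun (h2 a) k) l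
  rw [Ey, Matrix.mul_sub, Matrix.sub_mul] at h
  simp only [Matrix.sub_apply, Matrix.zero_apply, ms63, sm63] at h
  exact h

private theorem pick63 {m : ℕ} (k : Fin (m + 4)) : ∃ a : VI m, k ≠ ix a := by
  by_cases h : k = ix (Sum.inr false : VI m)
  · refine ⟨Sum.inr true, fun h' => ?_⟩
    rw [h] at h'
    have := ix_inj h'
    simp at this
  · exact ⟨Sum.inr false, h⟩

theorem cen_so2 {m : ℕ} {Z : Matrix (Fin (m + 4)) (Fin (m + 4)) ℝ} (hZ : Z ∈ so2 (m + 4)) (h1 : ∀ a : VI m, Z * Ex a - Ex a * Z = 0)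
    (h2 : ∀ a : VI m, Z * Ey a - Ey a * Z = 0) : Z = 0 := by
  have hla0 : la m ≠ 0 := (zero_ne_la m).symm
  -- the diagonal
  have hd1 : ∀ a : VI m, Z (ix a) (ix a) = Z (la m) (la m) := by
    intro a
    have h := eE63 h1 a (ix a) (la m)
    rw [if_pos rfl, if_neg (ix_ne_la (sg a)).symm, if_pos rfl, if_neg (ix_ne_zero a)] at h
    linarith
  have hd2 : ∀ a : VI m, Z (ix a) (ix a) = Z 0 0 := by
    intro a
    have h := eF63 h2 (sg a) (ix a) 0
    rw [sg_sg, if_pos rfl, if_neg (ix_ne_zero (sg a)).symm, if_pos rfl, if_neg (ix_ne_la a)] at h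
    linarith
  -- off-diagonal entries
  have hk0 : ∀ k : Fin (m + 4), k ≠ 0 → Z k 0 = 0 := by
    intro k hk
    obtain ⟨a, ha⟩ := pick63 k
    have h := eE63 h1 a k (ix (sg a))
    rw [if_neg (ix_ne_la (sg a)), if_pos rfl, if_neg ha, if_neg hk] at h
    linarith
  have hkla : ∀ k : Fin (m + 4), k ≠ la m → Z k (la m) = 0 := by
    intro k hk
    obtain ⟨a, ha⟩ := pick63 k
    have h := eF63 h2 (sg a) k (ix (sg a))
    rw [sg_sg, if_neg (ix_ne_zero (sg a)), if_pos rfl, if_neg ha, if_neg hk] at h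
    linarith
  have h0l : ∀ l : Fin (m + 4), l ≠ 0 → Z 0 l = 0 := by
    intro l hl
    obtain ⟨a, ha⟩ := pick63 l
    have h := eF63 h2 a (ix (sg a)) l
    rw [if_neg hl, if_neg ha, if_pos rfl, if_neg (ix_ne_la (sg a))] at h
    linarith
  have hki : ∀ (k : Fin (m + 4)) (a : VI m), k ≠ ix a → k ≠ 0 → Z k (ix a) = 0 := by
    intro k a hka hk
    have h := eE63 h1 a k (la m)
    rw [if_pos rfl, if_neg (ix_ne_la (sg a)).symm, if_neg hka, if_neg hk] at h
    linarith
  have hoff : ∀ k l : Fin (m + 4), k ≠ l → Z k l = 0 := by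
    intro k l hkl
    rcases idx_cases l with rfl | rfl | ⟨a, rfl⟩
    · exact hk0 k hkl
    · exact hkla k hkl
    · by_cases hk : k = 0
      · subst hk
        exact h0l _ (ix_ne_zero a)
      · exact hki k a hkl hk
  have hdd : Z 0 0 = Z (la m) (la m) := by
    rw [← hd2 (Sum.inr false), hd1]
  -- the form
  have h3 := congrFun (congrFun ((mem_so2).1 hZ) 0) (la m)
  rw [Matrix.add_apply, Matrix.mul_apply, Matrix.mul_apply, Matrix.zero_apply] at h3
  have e1 : ∑ j, Zᵀ 0 j * JR (m + 4) j (la m) = Z 0 0 := by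
    rw [Finset.sum_eq_single 0]
    · simp only [JR, Matrix.of_apply, Matrix.transpose_apply]
      rw [jj_zero, if_pos rfl, mul_one]
    · intro t _ ht
      rw [Matrix.transpose_apply, hk0 t ht, zero_mul]
    · intro h
      exact absurd (Finset.mem_univ _) h
  have e2 : ∑ j, JR (m + 4) 0 j * Z j (la m) = Z (la m) (la m) := by
    rw [Finset.sum_eq_single (la m)]
    · simp only [JR, Matrix.of_apply]
      rw [jj_zero, if_pos rfl, one_mul]
    · intro t _ ht
      rw [hkla t ht, mul_zero]
    · intro h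
      exact absurd (Finset.mem_univ _) h
  rw [e1, e2] at h3
  have hc : Z 0 0 = 0 := by linarith
  have hc' : Z (la m) (la m) = 0 := by linarith
  ext k l
  rw [Matrix.zero_apply]
  by_cases hkl : k = l
  · subst hkl
    rcases idx_cases k with rfl | rfl | ⟨a, rfl⟩
    · exact hc
    · exact hc'
    · rw [hd1, hc']
  · exact hoff k l hkl

theorem lin_Ex (m : ℕ) : LinearIndependent ℝ (Ex (m := m)) := by
  rw [Fintype.linearIndependent_iff]
  intro g hg a
  have h := congrFun (congrFun hg (ix a)) (la m)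
  rw [Matrix.sum_apply] at h
  simp only [Matrix.smul_apply, Matrix.zero_apply, smul_eq_mul] at h
  rw [Finset.sum_eq_single a] at h
  · rw [Ex, Matrix.sub_apply, Matrix.single_apply, Matrix.single_apply, if_pos ⟨rfl, rfl⟩,
      if_neg (fun h' => (ix_ne_zero a) h'.1.symm)] at h
    linarith
  · intro c _ hc
    rw [Ex, Matrix.sub_apply, Matrix.single_apply, Matrix.single_apply,
      if_neg (fun h' => hc (ix_inj h'.1)), if_neg (fun h' => (ix_ne_zero a) h'.1.symm)]
    ring
  · intro h'
    exact absurd (Finset.mem_univ _) h'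

theorem lin_Ey (m : ℕ) : LinearIndependent ℝ (Ey (m := m)) := by
  rw [Fintype.linearIndependent_iff]
  intro g hg a
  have h := congrFun (congrFun hg (la m)) (ix a)
  rw [Matrix.sum_apply] at h
  simp only [Matrix.smul_apply, Matrix.zero_apply, smul_eq_mul] at h
  rw [Finset.sum_eq_single a] at h
  · rw [Ey, Matrix.sub_apply, Matrix.single_apply, Matrix.single_apply,
      if_neg (fun h' => (ix_ne_la (sg a)) h'.1), if_pos ⟨rfl, rfl⟩] at h
    linarith
  · intro c _ hc
    rw [Ey, Matrix.sub_apply, Matrix.single_apply, Matrix.single_apply,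
      if_neg (fun h' => (ix_ne_la (sg c)) h'.1), if_neg (fun h' => hc (ix_inj h'.2))]
    ring
  · intro h'
    exact absurd (Finset.mem_univ _) h'

end Pool.Agent.Helper77.ST
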