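import Pool.Agent.Helper77.ST.Defs
import Pool.Agent.Helper55.OB.Defs

/-!
# Project OB, layer ST: the model `so2 (m + 4)`

`ix`: the coordinates `1, …, m + 2`. `Ex i = E(e_i)`, `Ey i = -(Ex i)ᵀ`, `Eh` the grading element.
-/

set_option autoImplicit false

namespace Pool.Agent.Helper77.ST

open Matrix Pool.Agent.Helper55.OB

attribute [local instance 100] LieRing.ofAssociativeRing

/-- The coordinate of an index. -/
def ix {m : ℕ} : VI m → Fin (m + 4)
  | Sum.inl i => ⟨i + 2, by omega⟩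
  | Sum.inr false => ⟨1, by omega⟩
  | Sum.inr true => ⟨m + 2, by omega⟩

/-- The last coordinate. -/
def la (m : ℕ) : Fin (m + 4) := Fin.last (m + 3)

/-- `Ex i : e_last ↦ e_i`, `e_(sg i) ↦ -e_0`. -/
def Ex {m : ℕ} (i : VI m) : Matrix (Fin (m + 4)) (Fin (m + 4)) ℝ := single (ix i) (la m) 1 - single 0 (ix (sg i)) 1

/-- `Ey i = -(Ex i)ᵀ`. -/
def Ey {m : ℕ} (i : VI m) : Matrix (Fin (m + 4)) (Fin (m + 4)) ℝ := single (ix (sg i)) 0 1 - single (la m) (ix i) 1

/-- The grading element. -/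
def Eh (m : ℕ) : Matrix (Fin (m + 4)) (Fin (m + 4)) ℝ := single 0 0 1 - single (la m) (la m) 1

theorem ix_inj {m : ℕ} {i j : VI m} (h : ix i = ix j) : i = j := by
  rcases i with i | (_ | _) <;> rcases j with j | (_ | _) <;> simp [ix, Fin.ext_iff] at h ⊢ <;> omega

theorem ix_ne_zero {m : ℕ} (i : VI m) : ix i ≠ 0 := by
  rcases i with i | (_ | _) <;> simp [ix, Fin.ext_iff]

theorem ix_ne_la {m : ℕ} (i : VI m) : ix i ≠ la m := by
  rcases i with i | (_ | _) <;> simp [ix, la, Fin.ext_iff] <;> omega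

theorem zero_ne_la (m : ℕ) : (0 : Fin (m + 4)) ≠ la m := by
  simp [la, Fin.ext_iff]

theorem sg_sg {m : ℕ} (i : VI m) : sg (sg i) = i := by
  rcases i with i | (_ | _) <;> rfl

theorem jj_ix {m : ℕ} (i : VI m) : jj (m + 4) (ix i) = ix (sg i) := by
  rcases i with i | (_ | _)
  · have h1 : ¬ ((i : ℕ) + 2 < 2 ∨ m + 4 ≤ (i : ℕ) + 2 + 2) := by omega
    simp only [jj, ix, sg]
    rw [if_neg h1]
  · simp only [jj, ix, sg]
    rw [if_pos (Or.inl (by norm_num))]
    ext
    simp [Fin.rev]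
  · simp only [jj, ix, sg]
    rw [if_pos (Or.inr (by omega))]
    ext
    simp [Fin.rev]

theorem jj_zero (m : ℕ) : jj (m + 4) 0 = la m := by
  simp only [jj]
  rw [if_pos (Or.inl (by norm_num))]
  ext
  simp [Fin.rev, la]

theorem jj_la (m : ℕ) : jj (m + 4) (la m) = 0 := by
  simp only [jj]
  rw [if_pos (Or.inr (by simp [la]))]
  ext
  simp [Fin.rev, la]

theorem idx_cases {m : ℕ} (k : Fin (m + 4)) : k = 0 ∨ k = la m ∨ ∃ i : VI m, k = ix i := by
  by_cases h0 : (k : ℕ) = 0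
  · left
    exact Fin.ext h0
  by_cases h1 : (k : ℕ) = 1
  · exact Or.inr (Or.inr ⟨Sum.inr false, Fin.ext (by simp [ix, h1])⟩)
  by_cases h2 : (k : ℕ) = m + 3
  · exact Or.inr (Or.inl (Fin.ext (by simp [la, h2])))
  by_cases h3 : (k : ℕ) = m + 2
  · exact Or.inr (Or.inr ⟨Sum.inr true, Fin.ext (by simp [ix, h3])⟩)
  · refine Or.inr (Or.inr ⟨Sum.inl ⟨(k : ℕ) - 2, by have := k.isLt; omega⟩, Fin.ext ?_⟩)
    simp only [ix]
    omega

theorem jj_jj {m : ℕ} (k : Fin (m + 4)) : jj (m + 4) (jj (m + 4) k) = k := by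
  rcases idx_cases k with rfl | rfl | ⟨i, rfl⟩
  · rw [jj_zero, jj_la]
  · rw [jj_la, jj_zero]
  · rw [jj_ix, jj_ix, sg_sg]

theorem JR_mul_single {m : ℕ} (i j : Fin (m + 4)) (a : ℝ) : JR (m + 4) * single i j a = single (jj (m + 4) i) j a := by
  ext k l
  rw [Matrix.mul_apply, Finset.sum_eq_single i]
  · simp only [JR, Matrix.of_apply, Matrix.single_apply]
    by_cases h1 : jj (m + 4) i = k
    · subst h1
      simp [jj_jj]
    · have h2 : ¬ i = jj (m + 4) k := fun h3 => h1 (by rw [h3, jj_jj])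
      simp [h1, h2]
  · intro t _ ht
    simp only [Matrix.single_apply]
    rw [if_neg (fun h3 => ht h3.1.symm), mul_zero]
  · intro h1
    exact absurd (Finset.mem_univ i) h1

theorem single_mul_JR {m : ℕ} (i j : Fin (m + 4)) (a : ℝ) : single i j a * JR (m + 4) = single i (jj (m + 4) j) a := by
  ext k l
  rw [Matrix.mul_apply, Finset.sum_eq_single j]
  · simp only [JR, Matrix.of_apply, Matrix.single_apply]
    by_cases h1 : l = jj (m + 4) j
    · subst h1
      simp
    · simp [h1, Ne.symm h1]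
  · intro t _ ht
    simp only [Matrix.single_apply]
    rw [if_neg (fun h3 => ht h3.2.symm), zero_mul]
  · intro h1
    exact absurd (Finset.mem_univ j) h1

theorem Ex_mem {m : ℕ} (i : VI m) : Ex i ∈ so2 (m + 4) := by
  rw [mem_so2, Ex, transpose_sub, transpose_single, transpose_single, Matrix.sub_mul, Matrix.mul_sub, single_mul_JR, single_mul_JR,
    JR_mul_single, JR_mul_single]
  simp only [jj_ix, jj_zero]
  abel

theorem Ey_mem {m : ℕ} (i : VI m) : Ey i ∈ so2 (m + 4) := by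
  rw [mem_so2, Ey, transpose_sub, transpose_single, transpose_single, Matrix.sub_mul, Matrix.mul_sub, single_mul_JR, single_mul_JR,
    JR_mul_single, JR_mul_single]
  simp only [jj_ix, jj_la, sg_sg]
  abel

theorem Eh_mem (m : ℕ) : Eh m ∈ so2 (m + 4) := by
  rw [mem_so2, Eh, transpose_sub, transpose_single, transpose_single, Matrix.sub_mul, Matrix.mul_sub, single_mul_JR, single_mul_JR,
    JR_mul_single, JR_mul_single]
  simp only [jj_zero, jj_la]
  abel

end Pool.Agent.Helper77.ST
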