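import Pool.Agent.Helper77.ST.CDef

/-!
# Project OB, layer ST, block ST-C1: the relations of the model

`δ_ab` are Kronecker symbols, `0`, `la` the first and the last index; `single_mul_single`: `single i j 1 * single k l 1 = if j = k then single i l 1 else 0` (`Matrix.single_mul_single_same`, `Matrix.single_mul_single_of_ne`).
The indices `0`, `la m`, `ix a` are different (`zero_ne_la`, `ix_ne_zero`, `ix_ne_la`, `ix_inj`, `sg_sg`). `Ex a * Ex b = -single 0 (ix (sg a)) * single (ix b) la = -δ_{sg a, b} single 0 la`, symmetric in `a, b`: `xx`. `yy`: the same (transposes).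
`Ex a * Ey b = -single (ix a) (ix b) 1 - δ_ab single 0 0 1`, `Ey b * Ex a = -δ_ab single la la 1 - single (ix (sg b)) (ix (sg a)) 1`. So `D = [Ex a, Ey b] = single (ix (sg b)) (ix (sg a)) 1 - single (ix a) (ix b) 1 - δ_ab (single 0 0 1 - single la la 1)`.
`[D, Ex c] = -δ_bc Ex a - δ_ab Ex c + δ_{c, sg a} Ex (sg b)`; `[D, Ey c] = δ_ac Ey b + δ_ab Ey c - δ_{c, sg b} Ey (sg a)`.
-/

set_option autoImplicit false

namespace Pool.Agent.Helper77.ST

open Matrix Pool.Agent.Helper55.OB

theorem single_mul_single {n : ℕ} (i j k l : Fin n) :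
    (single i j (1 : ℝ) * single k l 1 : Matrix (Fin n) (Fin n) ℝ) = if j = k then single i l 1 else 0 := by
  by_cases h : j = k
  · subst h
    simp
  · rw [if_neg h, Matrix.single_mul_single_of_ne (h := h)]

private theorem ix_eq {m : ℕ} (a b : VI m) : ix a = ix b ↔ a = b := ⟨ix_inj, fun h => by rw [h]⟩

private theorem zero_eq_ix {m : ℕ} (a : VI m) : (0 : Fin (m + 4)) = ix a ↔ False :=
  ⟨fun h => ix_ne_zero a h.symm, False.elim⟩

private theorem ix_eq_zero {m : ℕ} (a : VI m) : ix a = (0 : Fin (m + 4)) ↔ False :=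
  ⟨fun h => ix_ne_zero a h, False.elim⟩

private theorem la_eq_ix {m : ℕ} (a : VI m) : la m = ix a ↔ False :=
  ⟨fun h => ix_ne_la a h.symm, False.elim⟩

private theorem ix_eq_la {m : ℕ} (a : VI m) : ix a = la m ↔ False :=
  ⟨fun h => ix_ne_la a h, False.elim⟩

private theorem zero_eq_la (m : ℕ) : (0 : Fin (m + 4)) = la m ↔ False :=
  ⟨fun h => zero_ne_la m h, False.elim⟩

private theorem la_eq_zero (m : ℕ) : la m = (0 : Fin (m + 4)) ↔ False :=
  ⟨fun h => zero_ne_la m h.symm, False.elim⟩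

private theorem sg_inj {m : ℕ} (a b : VI m) : sg a = sg b ↔ a = b :=
  ⟨fun h => by rw [← sg_sg a, h, sg_sg], fun h => by rw [h]⟩

private theorem sg_eq {m : ℕ} (a b : VI m) : sg a = b ↔ b = sg a := eq_comm

private theorem sg_eq' {m : ℕ} (a b : VI m) : a = sg b ↔ b = sg a :=
  ⟨fun h => by rw [h, sg_sg], fun h => by rw [h, sg_sg]⟩

theorem Eh_Ex {m : ℕ} (a : VI m) : Eh m * Ex a - Ex a * Eh m = Ex a := by
  simp only [Eh, Ex, Matrix.sub_mul, Matrix.mul_sub, single_mul_single, ix_eq_zero, zero_eq_ix, la_eq_ix, ix_eq_la, zero_eq_la,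
    la_eq_zero, if_false, if_true]
  abel

theorem Eh_Ey {m : ℕ} (a : VI m) : Eh m * Ey a - Ey a * Eh m = -Ey a := by
  simp only [Eh, Ey, Matrix.sub_mul, Matrix.mul_sub, single_mul_single, ix_eq_zero, zero_eq_ix, la_eq_ix, ix_eq_la, zero_eq_la,
    la_eq_zero, if_false, if_true]
  abel

theorem Ex_Ex {m : ℕ} (a b : VI m) : Ex a * Ex b - Ex b * Ex a = 0 := by
  simp only [Ex, Matrix.sub_mul, Matrix.mul_sub, single_mul_single, ix_eq_zero, zero_eq_ix, la_eq_ix, ix_eq_la, zero_eq_la,
    la_eq_zero, if_false, ix_eq]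
  rw [if_congr (sg_eq b a) rfl rfl, if_congr (sg_eq a b) rfl rfl, if_congr (sg_eq' a b) rfl rfl]
  abel

theorem Ey_Ey {m : ℕ} (a b : VI m) : Ey a * Ey b - Ey b * Ey a = 0 := by
  simp only [Ey, Matrix.sub_mul, Matrix.mul_sub, single_mul_single, ix_eq_zero, zero_eq_ix, la_eq_ix, ix_eq_la, zero_eq_la,
    la_eq_zero, if_false, ix_eq]
  rw [if_congr (sg_eq' a b) rfl rfl]
  abel

theorem Ex_Ey {m : ℕ} (a b : VI m) : Ex a * Ey b - Ey b * Ex a =
    single (ix (sg b)) (ix (sg a)) 1 - single (ix a) (ix b) 1 - (if a = b then Eh m else 0) := by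
  simp only [Ex, Ey, Eh, Matrix.sub_mul, Matrix.mul_sub, single_mul_single, ix_eq_zero, zero_eq_ix, la_eq_ix, ix_eq_la, zero_eq_la,
    la_eq_zero, if_false, if_true, ix_eq, sg_inj]
  rw [if_congr (eq_comm (a := b) (b := a)) rfl rfl]
  by_cases h : a = b
  · simp only [h, if_true]
    abel
  · simp only [h, if_false]
    abel

theorem D_Ex {m : ℕ} (a b c : VI m) : (Ex a * Ey b - Ey b * Ex a) * Ex c - Ex c * (Ex a * Ey b - Ey b * Ex a) =
    -(if b = c then Ex a else 0) - (if a = b then Ex c else 0) + (if c = sg a then Ex (sg b) else 0) := by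
  have h1 : (if a = b then Eh m else 0) * Ex c - Ex c * (if a = b then Eh m else 0) = if a = b then Ex c else 0 := by
    by_cases h : a = b
    · simp only [h, if_true]
      exact Eh_Ex c
    · simp [h]
  have h2 : single (ix (sg b)) (ix (sg a)) 1 * Ex c - Ex c * single (ix (sg b)) (ix (sg a)) 1 =
      (if c = sg a then single (ix (sg b)) (la m) (1 : ℝ) else 0) + (if b = c then single 0 (ix (sg a)) (1 : ℝ) else 0) := by
    simp only [Ex, Matrix.sub_mul, Matrix.mul_sub, single_mul_single, ix_eq_zero, zero_eq_ix, la_eq_ix, ix_eq_la, zero_eq_la,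
      la_eq_zero, if_false, if_true, ix_eq, sg_inj]
    rw [if_congr (eq_comm (a := c) (b := b)) rfl rfl, if_congr (sg_eq a c) rfl rfl]
    abel
  have h3 : single (ix a) (ix b) 1 * Ex c - Ex c * single (ix a) (ix b) 1 =
      (if b = c then single (ix a) (la m) (1 : ℝ) else 0) + (if c = sg a then single 0 (ix b) (1 : ℝ) else 0) := by
    simp only [Ex, Matrix.sub_mul, Matrix.mul_sub, single_mul_single, ix_eq_zero, zero_eq_ix, la_eq_ix, ix_eq_la, zero_eq_la,
      la_eq_zero, if_false, if_true, ix_eq, sg_inj]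
    rw [if_congr ((sg_eq c a).trans (sg_eq' a c)) rfl rfl]
    abel
  have h4 : (Ex a * Ey b - Ey b * Ex a) * Ex c - Ex c * (Ex a * Ey b - Ey b * Ex a) =
      (single (ix (sg b)) (ix (sg a)) 1 * Ex c - Ex c * single (ix (sg b)) (ix (sg a)) 1) -
      (single (ix a) (ix b) 1 * Ex c - Ex c * single (ix a) (ix b) 1) -
      ((if a = b then Eh m else 0) * Ex c - Ex c * (if a = b then Eh m else 0)) := by
    rw [Ex_Ey]
    simp only [Matrix.sub_mul, Matrix.mul_sub]
    abel
  rw [h4, h1, h2, h3]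
  have h5 : (if b = c then Ex a else 0) = (if b = c then single (ix a) (la m) (1 : ℝ) else 0) -
      (if b = c then single 0 (ix (sg a)) (1 : ℝ) else 0) := by
    by_cases h : b = c <;> simp [h, Ex]
  have h6 : (if c = sg a then Ex (sg b) else 0) = (if c = sg a then single (ix (sg b)) (la m) (1 : ℝ) else 0) -
      (if c = sg a then single 0 (ix b) (1 : ℝ) else 0) := by
    by_cases h : c = sg a <;> simp [h, Ex, sg_sg]
  rw [h5, h6]
  abel

theorem D_Ey {m : ℕ} (a b c : VI m) : (Ex a * Ey b - Ey b * Ex a) * Ey c - Ey c * (Ex a * Ey b - Ey b * Ex a) =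
    -(-(if a = c then Ey b else 0) - (if a = b then Ey c else 0) + (if c = sg b then Ey (sg a) else 0)) := by
  have h1 : (if a = b then Eh m else 0) * Ey c - Ey c * (if a = b then Eh m else 0) = -(if a = b then Ey c else 0) := by
    by_cases h : a = b
    · simp only [h, if_true]
      exact Eh_Ey c
    · simp [h]
  have h2 : single (ix (sg b)) (ix (sg a)) 1 * Ey c - Ey c * single (ix (sg b)) (ix (sg a)) 1 =
      (if a = c then single (ix (sg b)) 0 (1 : ℝ) else 0) + (if c = sg b then single (la m) (ix (sg a)) (1 : ℝ) else 0) := by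
    simp only [Ey, Matrix.sub_mul, Matrix.mul_sub, single_mul_single, ix_eq_zero, zero_eq_ix, la_eq_ix, ix_eq_la, zero_eq_la,
      la_eq_zero, if_false, if_true, ix_eq, sg_inj]
    abel
  have h3 : single (ix a) (ix b) 1 * Ey c - Ey c * single (ix a) (ix b) 1 =
      (if c = sg b then single (ix a) 0 (1 : ℝ) else 0) + (if a = c then single (la m) (ix b) (1 : ℝ) else 0) := by
    simp only [Ey, Matrix.sub_mul, Matrix.mul_sub, single_mul_single, ix_eq_zero, zero_eq_ix, la_eq_ix, ix_eq_la, zero_eq_la,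
      la_eq_zero, if_false, if_true, ix_eq, sg_inj]
    rw [if_congr (sg_eq' b c) rfl rfl, if_congr (eq_comm (a := c) (b := a)) rfl rfl]
    abel
  have h4 : (Ex a * Ey b - Ey b * Ex a) * Ey c - Ey c * (Ex a * Ey b - Ey b * Ex a) =
      (single (ix (sg b)) (ix (sg a)) 1 * Ey c - Ey c * single (ix (sg b)) (ix (sg a)) 1) -
      (single (ix a) (ix b) 1 * Ey c - Ey c * single (ix a) (ix b) 1) -
      ((if a = b then Eh m else 0) * Ey c - Ey c * (if a = b then Eh m else 0)) := by
    rw [Ex_Ey]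
    simp only [Matrix.sub_mul, Matrix.mul_sub]
    abel
  rw [h4, h1, h2, h3]
  have h5 : (if a = c then Ey b else 0) = (if a = c then single (ix (sg b)) 0 (1 : ℝ) else 0) -
      (if a = c then single (la m) (ix b) (1 : ℝ) else 0) := by
    by_cases h : a = c <;> simp [h, Ey]
  have h6 : (if c = sg b then Ey (sg a) else 0) = (if c = sg b then single (ix a) 0 (1 : ℝ) else 0) -
      (if c = sg b then single (la m) (ix (sg a)) (1 : ℝ) else 0) := by
    by_cases h : c = sg b <;> simp [h, Ey, sg_sg]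
  rw [h5, h6]
  abel

end Pool.Agent.Helper77.ST
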