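import Pool.Agent.Helper77.ST.CRel

/-!
# Project OB, layer ST, block ST-C2: the model is spanned by the `Ex`, `Ey`, `[Ex, Ey]`

PROOF. Let `X ∈ so2 (m + 4)`, `σ = jj (m + 4)` (an involution, `jj_jj`). The entries of `Xᵀ J + J X = 0` are `X (σ j) i + X (σ i) j = 0` (`JR` is the matrix of `σ`). So `X = ∑ i j, X (σ i) j • single (σ i) j 1` (reindexing the rows by `σ`)
`= 1/2 ∑ i j, X (σ i) j • G i j`, `G i j = single (σ i) j 1 - single (σ j) i 1` (exchange `i, j` in one half of the sum). `G i j = -G j i`, `G i i = 0`. So it suffices that all `G i j` are in the span `M`. `idx_cases`: `G la (ix a) = single 0 (ix a) - single (ix (sg a)) la = -Ex (sg a)`;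
`G 0 (ix a) = single la (ix a) - single (ix (sg a)) 0 = -Ey a`; `G la 0 = single 0 0 - single la la = Eh m`; `G (ix (sg a)) (ix b) = single (ix a) (ix b) - single (ix (sg b)) (ix (sg a))` and
`[Ex a, Ey b] = single (ix (sg b)) (ix (sg a)) 1 - single (ix a) (ix b) 1 - δ_ab Eh m` (direct computation, or `Ex_Ey` of the block ST-C1, file `CRel.lean`, which may be imported). `[Ex a, Ey a] + [Ex (sg a), Ey (sg a)] = -2 Eh m` for `a = inr false` gives `Eh m ∈ M`, and then all
`G (ix a) (ix b) ∈ M`.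
-/

set_option autoImplicit false

namespace Pool.Agent.Helper77.ST

open Matrix Pool.Agent.Helper55.OB

private def MM (m : ℕ) : Submodule ℝ (Matrix (Fin (m + 4)) (Fin (m + 4)) ℝ) :=
  Submodule.span ℝ (Set.range (Ex (m := m)) ∪ Set.range (Ey (m := m)) ∪
      Set.range fun ij : VI m × VI m => Ex ij.1 * Ey ij.2 - Ey ij.2 * Ex ij.1)

private theorem Ex_MM {m : ℕ} (a : VI m) : Ex a ∈ MM m :=
  Submodule.subset_span (Or.inl (Or.inl ⟨a, rfl⟩))

private theorem Ey_MM {m : ℕ} (a : VI m) : Ey a ∈ MM m :=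
  Submodule.subset_span (Or.inl (Or.inr ⟨a, rfl⟩))

private theorem D_MM {m : ℕ} (a b : VI m) : Ex a * Ey b - Ey b * Ex a ∈ MM m :=
  Submodule.subset_span (Or.inr ⟨(a, b), rfl⟩)

private theorem Eh_MM (m : ℕ) : Eh m ∈ MM m := by
  have h1 := (MM m).add_mem (D_MM (m := m) (Sum.inr false) (Sum.inr false)) (D_MM (m := m) (Sum.inr true) (Sum.inr true))
  have h2 : (Ex (m := m) (Sum.inr false) * Ey (Sum.inr false) - Ey (Sum.inr false) * Ex (Sum.inr false)) +
      (Ex (m := m) (Sum.inr true) * Ey (Sum.inr true) - Ey (Sum.inr true) * Ex (Sum.inr true)) = (-2 : ℝ) • Eh m := by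
    rw [Ex_Ey, Ex_Ey]
    simp only [sg, if_true, Bool.not_false, Bool.not_true]
    rw [neg_smul, two_smul]
    abel
  rw [h2] at h1
  have h3 := (MM m).smul_mem (-1 / 2 : ℝ) h1
  rw [smul_smul] at h3
  norm_num at h3
  exact h3

private theorem G_ix {m : ℕ} (a b : VI m) :
    single (jj (m + 4) (ix (sg a))) (ix b) (1 : ℝ) - single (jj (m + 4) (ix b)) (ix (sg a)) 1 ∈ MM m := by
  rw [jj_ix, jj_ix, sg_sg]
  have h1 := D_MM a b
  rw [Ex_Ey] at h1
  have h2 : (if a = b then Eh m else 0) ∈ MM m := by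
    by_cases h : a = b
    · rw [if_pos h]; exact Eh_MM m
    · rw [if_neg h]; exact (MM m).zero_mem
  have h3 := (MM m).neg_mem ((MM m).add_mem h1 h2)
  have h4 : -(single (ix (sg b)) (ix (sg a)) (1 : ℝ) - single (ix a) (ix b) 1 - (if a = b then Eh m else 0) + (if a = b then Eh m else 0)) =
      single (ix a) (ix b) (1 : ℝ) - single (ix (sg b)) (ix (sg a)) 1 := by
    abel
  rw [h4] at h3
  exact h3

private theorem G_la {m : ℕ} (a : VI m) :
    single (jj (m + 4) (la m)) (ix a) (1 : ℝ) - single (jj (m + 4) (ix a)) (la m) 1 ∈ MM m := by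
  rw [jj_ix, jj_la]
  have h1 := (MM m).neg_mem (Ex_MM (sg a))
  have h2 : -(Ex (sg a)) = single 0 (ix a) (1 : ℝ) - single (ix (sg a)) (la m) 1 := by
    rw [Ex, sg_sg, neg_sub]
  rw [h2] at h1
  exact h1

private theorem G_zero {m : ℕ} (a : VI m) :
    single (jj (m + 4) 0) (ix a) (1 : ℝ) - single (jj (m + 4) (ix a)) 0 1 ∈ MM m := by
  rw [jj_ix, jj_zero]
  have h1 := (MM m).neg_mem (Ey_MM a)
  have h2 : -(Ey a) = single (la m) (ix a) (1 : ℝ) - single (ix (sg a)) 0 1 := by
    rw [Ey, neg_sub]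
  rw [h2] at h1
  exact h1

private theorem G_la_zero (m : ℕ) :
    single (jj (m + 4) (la m)) 0 (1 : ℝ) - single (jj (m + 4) 0) (la m) 1 ∈ MM m := by
  rw [jj_zero, jj_la]
  exact Eh_MM m

private theorem G_anti {m : ℕ} {i j : Fin (m + 4)}
    (h : single (jj (m + 4) i) j (1 : ℝ) - single (jj (m + 4) j) i 1 ∈ MM m) :
    single (jj (m + 4) j) i (1 : ℝ) - single (jj (m + 4) i) j 1 ∈ MM m := by
  have h1 := (MM m).neg_mem h
  rw [neg_sub] at h1
  exact h1

private theorem G_MM {m : ℕ} (i j : Fin (m + 4)) :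
    single (jj (m + 4) i) j (1 : ℝ) - single (jj (m + 4) j) i 1 ∈ MM m := by
  rcases idx_cases i with rfl | rfl | ⟨a, rfl⟩
  · rcases idx_cases j with rfl | rfl | ⟨b, rfl⟩
    · rw [sub_self]; exact (MM m).zero_mem
    · exact G_anti (G_la_zero m)
    · exact G_zero b
  · rcases idx_cases j with rfl | rfl | ⟨b, rfl⟩
    · exact G_la_zero m
    · rw [sub_self]; exact (MM m).zero_mem
    · exact G_la b
  · rcases idx_cases j with rfl | rfl | ⟨b, rfl⟩
    · exact G_anti (G_zero a)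
    · exact G_anti (G_la a)
    · have h := G_ix (sg a) b
      rw [sg_sg] at h
      exact h

private theorem entry {m : ℕ} {X : Matrix (Fin (m + 4)) (Fin (m + 4)) ℝ} (hX : X ∈ so2 (m + 4)) (i j : Fin (m + 4)) :
    X (jj (m + 4) j) i + X (jj (m + 4) i) j = 0 := by
  have h1 := congrFun (congrFun (mem_so2.1 hX) i) j
  rw [Matrix.add_apply, Matrix.mul_apply, Matrix.mul_apply] at h1
  rw [Finset.sum_eq_single (jj (m + 4) j), Finset.sum_eq_single (jj (m + 4) i)] at h1
  · simpa [JR, jj_jj] using h1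
  · intro k _ hk
    simp only [JR, Matrix.of_apply]
    rw [if_neg hk, zero_mul]
  · intro h; exact absurd (Finset.mem_univ _) h
  · intro k _ hk
    simp only [JR, Matrix.of_apply]
    rw [if_neg (fun h => hk (by rw [h, jj_jj])), mul_zero]
  · intro h; exact absurd (Finset.mem_univ _) h

private def sig (m : ℕ) : Fin (m + 4) ≃ Fin (m + 4) where
  toFun := jj (m + 4)
  invFun := jj (m + 4)
  left_inv := jj_jj
  right_inv := jj_jj

theorem span_so2 {m : ℕ} {X : Matrix (Fin (m + 4)) (Fin (m + 4)) ℝ} (hX : X ∈ so2 (m + 4)) :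
    X ∈ Submodule.span ℝ (Set.range (Ex (m := m)) ∪ Set.range (Ey (m := m)) ∪
      Set.range fun ij : VI m × VI m => Ex ij.1 * Ey ij.2 - Ey ij.2 * Ex ij.1) := by
  change X ∈ MM m
  have h1 : ∑ i, ∑ j, X (jj (m + 4) i) j • single (jj (m + 4) i) j (1 : ℝ) = X := by
    have h2 := Matrix.matrix_eq_sum_single X
    have h3 := Equiv.sum_comp (sig m) (fun i => ∑ j, single i j (X i j))
    rw [← h2] at h3
    refine Eq.trans (Finset.sum_congr rfl fun i _ => Finset.sum_congr rfl fun j _ => ?_) h3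
    rw [Matrix.smul_single, smul_eq_mul, mul_one]
    rfl
  have h3 : ∑ i, ∑ j, X (jj (m + 4) i) j • single (jj (m + 4) j) i (1 : ℝ) = -X := by
    rw [Finset.sum_comm]
    conv_rhs => rw [← h1]
    rw [← Finset.sum_neg_distrib]
    refine Finset.sum_congr rfl fun i _ => ?_
    rw [← Finset.sum_neg_distrib]
    refine Finset.sum_congr rfl fun j _ => ?_
    have h4 := entry hX i j
    rw [← neg_smul]
    congr 1
    linarith
  have h5 : X = (1 / 2 : ℝ) • ∑ i, ∑ j, X (jj (m + 4) i) j • (single (jj (m + 4) i) j (1 : ℝ) - single (jj (m + 4) j) i 1) := by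
    simp only [smul_sub, Finset.sum_sub_distrib]
    rw [h1, h3, smul_neg, sub_neg_eq_add, ← add_smul]
    norm_num
  rw [h5]
  refine (MM m).smul_mem _ (Submodule.sum_mem _ fun i _ => Submodule.sum_mem _ fun j _ => (MM m).smul_mem _ (G_MM i j))

end Pool.Agent.Helper77.ST
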