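import Pool.Agent.Helper77.ST.Defs

/-!
# Project OB, layer ST, block ST-D1: uniqueness of the graded Lie algebra with a given triple product

PROOF. Let `E = (I → ℝ) × (I → ℝ) × (I × I → ℝ)` (or `(I → I → ℝ)`), `s : E → L`, `s (v, w, t) = ∑ v i • x i + ∑ w i • y i + ∑ t ij • [x i, y j]`, and `s' : E → L'` the same for `x', y'`. Both are linear and surjective (`span`).
(1) `ker s = ker s'`. It suffices that `s (v, w, t) = 0 ↔ v = 0 ∧ w = 0 ∧ (∀ k l, ∑ t ij T i j k l = 0) ∧ (∀ k l, ∑ t ij T j i k l = 0)`, because the right side depends on `T` only. `Z = ∑ t ij • [x i, y j]`, `X = ∑ v i • x i`, `Y = ∑ w i • y i`; `[e, Z] = 0` (Jacobi: `[e, [x i, y j]] = [x i, y j] - [x i, y j]`),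
`[e, X] = X`, `[e, Y] = -Y`. If `X + Y + Z = 0`: apply `ad e` once and twice: `X - Y = 0`, `X + Y = 0`, so `X = Y = Z = 0`, `v = w = 0` by `lix`, `liy`, and `0 = [Z, x k] = ∑_l (∑ t ij T i j k l) x l`, the same for `y k`, `lix`, `liy`. Conversely the conditions on `t` give `[Z, x k] = 0 = [Z, y k]`, so `Z = 0` by `cen`.
(2) So there is a linear isomorphism `f : L → L'`, `f ∘ s = s'` (`LinearMap.quotKerEquivOfSurjective`, `Submodule.quotEquivOfEq`), `f (x i) = x' i`, `f (y i) = y' i`, `f [x i, y j] = [x' i, y' j]`.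
(3) `f [a, b] = [f a, f b]`: bilinear, so it suffices to check it on the spanning set (`span`, `Submodule.span_induction` twice, or `LinearMap` extensionality on the span): `[x i, x j] = 0`, `[y i, y j] = 0`, `[x i, y j]`, `[[x i, y j], x k]`, `[[x i, y j], y k]` are given by `xyx`, `xyy`; and
`[[x i, y j], [x k, y l]] = [[[x i, y j], x k], y l] + [x k, [[x i, y j], y l]]` (Jacobi) is a linear combination of the `[x p, y q]` with coefficients from `T`, the same in `L'`. (Other orders by `lie_skew`.)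
-/

set_option autoImplicit false

namespace Pool.Agent.Helper77.ST

section
variable {L : Type} [LieRing L] [LieAlgebra ℝ L] {I : Type} [Fintype I]

private noncomputable def s24 (x y : I → L) : ((I → ℝ) × (I → ℝ) × (I × I → ℝ)) →ₗ[ℝ] L :=
  (Fintype.linearCombination ℝ x).coprod ((Fintype.linearCombination ℝ y).coprod
    (Fintype.linearCombination ℝ fun ij : I × I => ⁅x ij.1, y ij.2⁆))

private theorem s24_apply (x y : I → L) (v w : I → ℝ) (t : I × I → ℝ) :
    s24 x y (v, w, t) = ∑ i, v i • x i + (∑ i, w i • y i + ∑ ij : I × I, t ij • ⁅x ij.1, y ij.2⁆) := rfl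

private theorem s24_surj {x y : I → L} {e : L} {T : I → I → I → I → ℝ} (h : TK x y e T) :
    Function.Surjective (s24 x y) := by
  rw [← LinearMap.range_eq_top]
  unfold s24
  rw [LinearMap.range_coprod, LinearMap.range_coprod, Fintype.range_linearCombination,
    Fintype.range_linearCombination, Fintype.range_linearCombination, ← h.span, Submodule.span_union,
    Submodule.span_union, sup_assoc]

private theorem zx24 {x y : I → L} {e : L} {T : I → I → I → I → ℝ} (h : TK x y e T) (t : I × I → ℝ) (k : I) :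
    ⁅∑ ij : I × I, t ij • ⁅x ij.1, y ij.2⁆, x k⁆ = ∑ l, (∑ ij : I × I, t ij * T ij.1 ij.2 k l) • x l := by
  simp only [sum_lie, smul_lie, h.xyx, Finset.smul_sum, smul_smul, Finset.sum_smul]
  exact Finset.sum_comm

private theorem zy24 {x y : I → L} {e : L} {T : I → I → I → I → ℝ} (h : TK x y e T) (t : I × I → ℝ) (k : I) :
    ⁅∑ ij : I × I, t ij • ⁅x ij.1, y ij.2⁆, y k⁆ = -∑ l, (∑ ij : I × I, t ij * T ij.2 ij.1 k l) • y l := by
  simp only [sum_lie, smul_lie, h.xyy, Finset.smul_sum, smul_smul, Finset.sum_smul, smul_neg, Finset.sum_neg_distrib]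
  rw [Finset.sum_comm]

private theorem ez24 {x y : I → L} {e : L} {T : I → I → I → I → ℝ} (h : TK x y e T) (t : I × I → ℝ) :
    ⁅e, ∑ ij : I × I, t ij • ⁅x ij.1, y ij.2⁆⁆ = 0 := by
  rw [lie_sum]
  refine Finset.sum_eq_zero fun ij _ => ?_
  rw [lie_smul, leibniz_lie, h.ex, h.ey, lie_neg, add_neg_cancel, smul_zero]

private theorem eX24 {x y : I → L} {e : L} {T : I → I → I → I → ℝ} (h : TK x y e T) (v : I → ℝ) :
    ⁅e, ∑ i, v i • x i⁆ = ∑ i, v i • x i := by
  rw [lie_sum]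
  exact Finset.sum_congr rfl fun i _ => by rw [lie_smul, h.ex]

private theorem eY24 {x y : I → L} {e : L} {T : I → I → I → I → ℝ} (h : TK x y e T) (v : I → ℝ) :
    ⁅e, ∑ i, v i • y i⁆ = -∑ i, v i • y i := by
  rw [lie_sum, ← Finset.sum_neg_distrib]
  exact Finset.sum_congr rfl fun i _ => by rw [lie_smul, h.ey, smul_neg]

private theorem ker24 {x y : I → L} {e : L} {T : I → I → I → I → ℝ} (h : TK x y e T) (v w : I → ℝ) (t : I × I → ℝ) :
    s24 x y (v, w, t) = 0 ↔ v = 0 ∧ w = 0 ∧ (∀ k l, ∑ ij : I × I, t ij * T ij.1 ij.2 k l = 0) ∧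
      (∀ k l, ∑ ij : I × I, t ij * T ij.2 ij.1 k l = 0) := by
  rw [s24_apply]
  constructor
  · intro h0
    have h1 : ⁅e, ∑ i, v i • x i + (∑ i, w i • y i + ∑ ij : I × I, t ij • ⁅x ij.1, y ij.2⁆)⁆ = 0 := by
      rw [h0, lie_zero]
    rw [lie_add, lie_add, eX24 h, eY24 h, ez24 h, add_zero] at h1
    have h2 : ⁅e, ∑ i, v i • x i + -∑ i, w i • y i⁆ = 0 := by rw [h1, lie_zero]
    rw [lie_add, lie_neg, eX24 h, eY24 h, neg_neg] at h2
    have hX : (2 : ℝ) • ∑ i, v i • x i = 0 := by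
      rw [two_smul]
      calc ∑ i, v i • x i + ∑ i, v i • x i
          = (∑ i, v i • x i + -∑ i, w i • y i) + (∑ i, v i • x i + ∑ i, w i • y i) := by abel
        _ = 0 := by rw [h1, h2, add_zero]
    have hX0 : ∑ i, v i • x i = 0 := (smul_eq_zero.1 hX).resolve_left two_ne_zero
    have hY0 : ∑ i, w i • y i = 0 := by rw [hX0, zero_add] at h2; exact h2
    have hZ0 : ∑ ij : I × I, t ij • ⁅x ij.1, y ij.2⁆ = 0 := by
      rw [hX0, hY0, zero_add, zero_add] at h0; exact h0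
    refine ⟨funext (Fintype.linearIndependent_iff.1 h.lix v hX0), funext (Fintype.linearIndependent_iff.1 h.liy w hY0), ?_, ?_⟩
    · intro k
      refine Fintype.linearIndependent_iff.1 h.lix _ ?_
      rw [← zx24 h, hZ0, zero_lie]
    · intro k
      refine Fintype.linearIndependent_iff.1 h.liy _ ?_
      rw [← neg_eq_zero, ← zy24 h, hZ0, zero_lie]
  · rintro ⟨rfl, rfl, h1, h2⟩
    have hZ0 : ∑ ij : I × I, t ij • ⁅x ij.1, y ij.2⁆ = 0 := by
      refine h.cen _ (fun k => ?_) (fun k => ?_)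
      · rw [zx24 h]
        exact Finset.sum_eq_zero fun l _ => by rw [h1, zero_smul]
      · rw [zy24 h, neg_eq_zero]
        exact Finset.sum_eq_zero fun l _ => by rw [h2, zero_smul]
    rw [hZ0]
    simp

end

theorem tk_iso {L L' : Type} [LieRing L] [LieAlgebra ℝ L] [LieRing L'] [LieAlgebra ℝ L'] {I : Type} [Fintype I] {x y : I → L}
    {x' y' : I → L'} {e : L} {e' : L'} {T : I → I → I → I → ℝ} (h : TK x y e T) (h' : TK x' y' e' T) : Nonempty (L ≃ₗ⁅ℝ⁆ L') := by
  classical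
  have hk : LinearMap.ker (s24 x y) = LinearMap.ker (s24 x' y') := by
    ext ⟨v, w, t⟩
    rw [LinearMap.mem_ker, LinearMap.mem_ker, ker24 h, ker24 h']
  obtain ⟨f, hf⟩ : ∃ f : L ≃ₗ[ℝ] L', ∀ z, f (s24 x y z) = s24 x' y' z := by
    refine ⟨((LinearMap.quotKerEquivOfSurjective (s24 x y) (s24_surj h)).symm.trans (Submodule.quotEquivOfEq _ _ hk)).trans
      (LinearMap.quotKerEquivOfSurjective (s24 x' y') (s24_surj h')), fun z => ?_⟩
    rw [LinearEquiv.trans_apply, LinearEquiv.trans_apply, LinearMap.quotKerEquivOfSurjective_symm_apply,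
      Submodule.quotEquivOfEq_mk, LinearMap.quotKerEquivOfSurjective_apply_mk]
  have fx : ∀ i, f (x i) = x' i := fun i => by
    have := hf (Pi.single i 1, 0, 0)
    rw [s24_apply, s24_apply] at this
    simpa [Pi.single_apply] using this
  have fy : ∀ i, f (y i) = y' i := fun i => by
    have := hf (0, Pi.single i 1, 0)
    rw [s24_apply, s24_apply] at this
    simpa [Pi.single_apply] using this
  have fz : ∀ i j, f ⁅x i, y j⁆ = ⁅x' i, y' j⁆ := fun i j => by
    have := hf (0, 0, Pi.single (i, j) 1)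
    rw [s24_apply, s24_apply] at this
    simpa [Pi.single_apply] using this
  have g1 : ∀ i j k, f ⁅⁅x i, y j⁆, x k⁆ = ⁅⁅x' i, y' j⁆, x' k⁆ := fun i j k => by
    rw [h.xyx, h'.xyx, map_sum]
    exact Finset.sum_congr rfl fun l _ => by rw [map_smul, fx]
  have g2 : ∀ i j k, f ⁅⁅x i, y j⁆, y k⁆ = ⁅⁅x' i, y' j⁆, y' k⁆ := fun i j k => by
    rw [h.xyy, h'.xyy, map_neg, map_sum]
    congr 1
    exact Finset.sum_congr rfl fun l _ => by rw [map_smul, fy]
  have g3 : ∀ i j k l, f ⁅⁅x i, y j⁆, ⁅x k, y l⁆⁆ = ⁅⁅x' i, y' j⁆, ⁅x' k, y' l⁆⁆ := fun i j k l => by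
    rw [leibniz_lie, leibniz_lie ⁅x' i, y' j⁆, h.xyx, h'.xyx, h.xyy, h'.xyy, map_add, lie_neg, lie_neg, map_neg, sum_lie,
      sum_lie, lie_sum, lie_sum, map_sum, map_sum]
    congr 1
    · exact Finset.sum_congr rfl fun p _ => by rw [smul_lie, smul_lie, map_smul, fz]
    · congr 1
      exact Finset.sum_congr rfl fun p _ => by rw [lie_smul, lie_smul, map_smul, fz]
  have hsp : ∀ a : L, a ∈ Submodule.span ℝ (Set.range x ∪ Set.range y ∪ Set.range fun ij : I × I => ⁅x ij.1, y ij.2⁆) :=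
    fun a => by rw [h.span]; exact Submodule.mem_top
  have key : ∀ a b : L, f ⁅a, b⁆ = ⁅f a, f b⁆ := by
    intro a b
    refine Submodule.span_induction (p := fun a _ => f ⁅a, b⁆ = ⁅f a, f b⁆) ?_ ?_ ?_ ?_ (hsp a)
    · intro a ha
      refine Submodule.span_induction (p := fun b _ => f ⁅a, b⁆ = ⁅f a, f b⁆) ?_ ?_ ?_ ?_ (hsp b)
      · intro b hb
        rcases ha with (⟨i, rfl⟩ | ⟨i, rfl⟩) | ⟨⟨i, i'⟩, rfl⟩
        · rcases hb with (⟨j, rfl⟩ | ⟨j, rfl⟩) | ⟨⟨j, j'⟩, rfl⟩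
          · rw [h.xx, fx, fx, h'.xx, map_zero]
          · rw [fz, fx, fy]
          · change f ⁅x i, ⁅x j, y j'⁆⁆ = ⁅f (x i), f ⁅x j, y j'⁆⁆
            rw [← lie_skew, map_neg, g1, fx, fz, lie_skew]
        · rcases hb with (⟨j, rfl⟩ | ⟨j, rfl⟩) | ⟨⟨j, j'⟩, rfl⟩
          · rw [← lie_skew, map_neg, fz, fx, fy, lie_skew]
          · rw [h.yy, fy, fy, h'.yy, map_zero]
          · change f ⁅y i, ⁅x j, y j'⁆⁆ = ⁅f (y i), f ⁅x j, y j'⁆⁆
            rw [← lie_skew, map_neg, g2, fy, fz, lie_skew]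
        · change f ⁅⁅x i, y i'⁆, b⁆ = ⁅f ⁅x i, y i'⁆, f b⁆
          rcases hb with (⟨j, rfl⟩ | ⟨j, rfl⟩) | ⟨⟨j, j'⟩, rfl⟩
          · rw [g1, fz, fx]
          · rw [g2, fz, fy]
          · change f ⁅⁅x i, y i'⁆, ⁅x j, y j'⁆⁆ = ⁅f ⁅x i, y i'⁆, f ⁅x j, y j'⁆⁆
            rw [g3, fz, fz]
      · rw [lie_zero, map_zero, lie_zero]
      · intro c d _ _ h1 h2
        rw [lie_add, map_add, map_add, lie_add, h1, h2]
      · intro r c _ h1
        rw [lie_smul, map_smul, map_smul, lie_smul, h1]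
    · rw [zero_lie, map_zero, zero_lie]
    · intro c d _ _ h1 h2
      rw [add_lie, map_add, map_add, add_lie, h1, h2]
    · intro r c _ h1
      rw [smul_lie, map_smul, map_smul, smul_lie, h1]
  exact ⟨{ f with map_lie' := fun {a b} => key a b }⟩

end Pool.Agent.Helper77.ST
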