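import Pool.Agent.Helper77.ST.BSpan
import Pool.Agent.Helper77.ST.EOnb
import Pool.Agent.Helper77.ST.BNor
import Pool.Agent.Helper77.ST.CRel
import Pool.Agent.Helper77.ST.CSpan
import Pool.Agent.Helper77.ST.CCen
import Pool.Agent.Helper77.ST.DIso

/-!
# Project OB, layer ST: `L` is isomorphic to the model (type `B_2`, long root of multiplicity one)

`CN.tk`: the graded Lie algebra `L`; `tk_so2`: the model; `CN.iso`.
-/

set_option autoImplicit false

namespace Pool.Agent.Helper77.ST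

open Pool.Agent.Helper96.SA Pool.Agent.Helper96.TO Pool.Agent.Helper69.SLN Pool.Agent.Helper77.LA Pool.Agent.Helper77.TZ2

variable {L : Type} [LieRing L] [LieAlgebra ℝ L] {N : ℕ} {θ : L ≃ₗ⁅ℝ⁆ L} {b : Module.Basis (Fin N) ℝ L} {A : Submodule ℝ L}
  {τ : Module.Dual ℝ A ≃ₗ[ℝ] A} {al be : Module.Dual ℝ A} {r p : L} {ν : ℝ}

/-- The coefficient of `be` in the weight. -/
private def cw77 {m : ℕ} : VI m → ℝ
  | Sum.inl _ => 1
  | Sum.inr false => 0
  | Sum.inr true => 2

private theorem cw_cases77 {m : ℕ} (i : VI m) : cw77 i = 0 ∨ cw77 i = 1 ∨ cw77 i = 2 := by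
  rcases i with i | (_ | _) <;> simp [cw77]

private theorem xv_wt77 (c : CN θ b A τ al be r p ν) {m : ℕ} {w : Fin m → L} (hw : ∀ i, Wv A be (w i)) (i : VI m) :
    Wv A (al + cw77 i • be) (xv r p w i) := by
  rcases i with i | (_ | _)
  · have h1 := (hw i).lie c.hr
    rw [add_comm] at h1
    simpa [cw77, xv] using h1
  · simpa [cw77, xv] using c.hr
  · simpa [cw77, xv] using c.hp

private theorem kf_zero77 {φ ψ : Module.Dual ℝ A} {x y : L} (hx : Wv A φ x) (hy : Wv A ψ y) (h0 : φ + ψ ≠ 0) :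
    killingForm ℝ L x y = 0 := by
  obtain ⟨a, ha⟩ : ∃ a : A, (φ + ψ) a ≠ 0 := by
    by_contra hcon
    push Not at hcon
    exact h0 (LinearMap.ext hcon)
  have h1 : killingForm ℝ L ⁅x, (a : L)⁆ y = killingForm ℝ L x ⁅(a : L), y⁆ := kf_inv x (a : L) y
  rw [← lie_skew, hx a, hy a, map_neg, LinearMap.neg_apply, map_smul, LinearMap.smul_apply, map_smul, smul_eq_mul, smul_eq_mul] at h1
  have h2 : (φ + ψ) a * killingForm ℝ L x y = 0 := by
    rw [LinearMap.add_apply]
    linarith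
  exact (mul_eq_zero.1 h2).resolve_left ha

private theorem orth77 (c : CN θ b A τ al be r p ν) {m : ℕ} {w : Fin m → L} (hw : ∀ i, Wv A be (w i))
    (ho : ∀ i j, ip θ ν (w i) (w j) = if i = j then 1 else 0) (i j : VI m) :
    ν * killingForm ℝ L (xv r p w i) (θ (xv r p w j)) = if i = j then -1 else 0 := by
  by_cases hcw : cw77 i = cw77 j
  · rcases i with i | (_ | _) <;> rcases j with j | (_ | _) <;> simp only [cw77] at hcw <;> norm_num at hcw
    · have h1 := c.toCB.phi_phi (hw i) (hw j)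
      change ν * killingForm ℝ L ⁅w i, r⁆ (θ ⁅w j, r⁆) = _
      rw [h1, ho]
      by_cases hij : i = j
      · subst hij
        simp only [if_true, one_mul]
        exact c.rr
      · rw [if_neg hij, if_neg (fun h2 => hij (Sum.inl_injective h2)), zero_mul, mul_zero]
    · change ν * killingForm ℝ L r (θ r) = _
      rw [c.rr, if_pos rfl]
    · change ν * killingForm ℝ L p (θ p) = _
      rw [c.pp, if_pos rfl]
  · have hij : i ≠ j := fun h1 => hcw (by rw [h1])
    rw [if_neg hij, kf_zero77 (xv_wt77 c hw i) ((xv_wt77 c hw j).theta c.hA), mul_zero]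
    intro h1
    have h2 : (0 : ℝ) • al + (cw77 i - cw77 j) • be = 0 := by
      rw [← h1]
      module
    exact hcw (sub_eq_zero.1 (c.ind _ _ h2).2)

private theorem lix77 (c : CN θ b A τ al be r p ν) {m : ℕ} {w : Fin m → L} (hw : ∀ i, Wv A be (w i))
    (ho : ∀ i j, ip θ ν (w i) (w j) = if i = j then 1 else 0) : LinearIndependent ℝ (xv r p w) := by
  rw [Fintype.linearIndependent_iff]
  intro g hg j
  have h1 : ν * killingForm ℝ L (∑ i, g i • xv r p w i) (θ (xv r p w j)) = 0 := by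
    rw [hg, map_zero, LinearMap.zero_apply, mul_zero]
  rw [map_sum, LinearMap.sum_apply, Finset.mul_sum, Finset.sum_eq_single j] at h1
  · rw [map_smul, LinearMap.smul_apply, smul_eq_mul, mul_left_comm, orth77 c hw ho, if_pos rfl] at h1
    linarith
  · intro i _ hij
    rw [map_smul, LinearMap.smul_apply, smul_eq_mul, mul_left_comm, orth77 c hw ho, if_neg hij, mul_zero]
  · intro h2
    exact absurd (Finset.mem_univ j) h2

theorem CN.tk [LieAlgebra.IsSimple ℝ L] (c : CN θ b A τ al be r p ν) {m : ℕ} {w : Fin m → L} (hw : ∀ i, Wv A be (w i))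
    (ho : ∀ i j, ip θ ν (w i) (w j) = if i = j then 1 else 0)
    (hs : ∀ u : L, Wv A be u → u ∈ Submodule.span ℝ (Set.range w)) :
    TK (xv r p w) (fun i => θ (xv r p w i)) ((ν⁻¹ • (τ al + τ be) : A) : L) (TT m) := by
  have hν := c.νpos
  have hex : ∀ i, ⁅((ν⁻¹ • (τ al + τ be) : A) : L), xv r p w i⁆ = xv r p w i := by
    intro i
    rw [xv_wt77 c hw i]
    have h1 : (al + cw77 i • be) (ν⁻¹ • (τ al + τ be)) = 1 := by
      rw [LinearMap.add_apply, LinearMap.smul_apply, map_smul, map_smul, map_add, map_add, c.aa, c.ab, c.ba, c.bb, smul_eq_mul,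
        smul_eq_mul, smul_eq_mul]
      field_simp
      ring
    rw [h1, one_smul]
  have hxx : ∀ i j, ⁅xv r p w i, xv r p w j⁆ = 0 := fun i j =>
    c.xx (cw_cases77 i) (cw_cases77 j) (xv_wt77 c hw i) (xv_wt77 c hw j)
  refine ⟨hex, fun i => ?_, lix77 c hw ho, ?_, hxx, fun i j => ?_, fun i j k => c.tri hw ho i j k, fun i j k => ?_, c.span hw hs, fun z h1 h2 => ?_⟩
  · have h1 : ((ν⁻¹ • (τ al + τ be) : A) : L) = θ (-((ν⁻¹ • (τ al + τ be) : A) : L)) := by
      rw [map_neg, c.hA.neg _ (ν⁻¹ • (τ al + τ be) : A).2, neg_neg]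
    rw [h1, ← LieEquiv.map_lie, neg_lie, hex, map_neg]
  · exact (lix77 c hw ho).map' (θ : L →ₗ[ℝ] L) (LinearMap.ker_eq_bot.2 θ.injective)
  · rw [← LieEquiv.map_lie, hxx, map_zero]
  · have h1 : ⁅⁅xv r p w i, θ (xv r p w j)⁆, θ (xv r p w k)⁆ = -θ ⁅⁅xv r p w j, θ (xv r p w i)⁆, xv r p w k⁆ := by
      rw [LieEquiv.map_lie, LieEquiv.map_lie, c.h.invol, ← neg_lie, lie_skew]
    rw [h1, c.tri hw ho j i k, map_sum]
    simp only [map_smul]
  · refine center_zero c.h fun y => ?_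
    have hy : y ∈ Submodule.span ℝ (Set.range (xv r p w) ∪ (Set.range fun i => θ (xv r p w i)) ∪
        Set.range fun ij : VI m × VI m => ⁅xv r p w ij.1, θ (xv r p w ij.2)⁆) := by
      rw [c.span hw hs]
      exact Submodule.mem_top
    induction hy using Submodule.span_induction with
    | mem y hy =>
      rcases hy with (⟨i, rfl⟩ | ⟨i, rfl⟩) | ⟨ij, rfl⟩
      · exact h1 i
      · exact h2 i
      · change ⁅z, ⁅xv r p w ij.1, θ (xv r p w ij.2)⁆⁆ = 0
        rw [leibniz_lie, h1, h2, zero_lie, lie_zero, add_zero]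
    | zero => exact lie_zero _
    | add y y' _ _ h3 h4 => rw [lie_add, h3, h4, add_zero]
    | smul t y _ h3 => rw [lie_smul, h3, smul_zero]

open Pool.Agent.Helper55.OB

attribute [local instance 100] LieRing.ofAssociativeRing

theorem tk_so2 (m : ℕ) : TK (L := so2 (m + 4)) (fun i : VI m => ⟨Ex i, Ex_mem i⟩) (fun i => ⟨Ey i, Ey_mem i⟩) ⟨Eh m, Eh_mem m⟩ (TT m) := by
  refine ⟨fun i => Subtype.ext (Eh_Ex i), fun i => Subtype.ext (Eh_Ey i), ?_, ?_, fun i j => Subtype.ext (Ex_Ex i j),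
    fun i j => Subtype.ext (Ey_Ey i j), fun i j k => ?_, fun i j k => ?_, ?_, fun z h1 h2 => ?_⟩
  · exact LinearIndependent.of_comp (so2 (m + 4)).toSubmodule.subtype (lin_Ex m)
  · exact LinearIndependent.of_comp (so2 (m + 4)).toSubmodule.subtype (lin_Ey m)
  · rw [sum_TT]
    apply Subtype.ext
    refine (D_Ex i j k).trans ?_
    split_ifs <;> rfl
  · rw [sum_TT]
    apply Subtype.ext
    refine (D_Ey i j k).trans ?_
    rw [if_congr (@eq_comm _ i j) rfl rfl]
    split_ifs <;> rfl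
  · rw [eq_top_iff]
    intro z _
    have hz := span_so2 z.2
    have h1 : (Set.range (Ex (m := m)) ∪ Set.range (Ey (m := m)) ∪ Set.range fun ij : VI m × VI m => Ex ij.1 * Ey ij.2 - Ey ij.2 * Ex ij.1) =
        (so2 (m + 4)).toSubmodule.subtype '' (Set.range (fun i : VI m => (⟨Ex i, Ex_mem i⟩ : so2 (m + 4))) ∪
          Set.range (fun i : VI m => (⟨Ey i, Ey_mem i⟩ : so2 (m + 4))) ∪
          Set.range fun ij : VI m × VI m => ⁅(⟨Ex ij.1, Ex_mem ij.1⟩ : so2 (m + 4)), (⟨Ey ij.2, Ey_mem ij.2⟩ : so2 (m + 4))⁆) := by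
      rw [Set.image_union, Set.image_union, ← Set.range_comp, ← Set.range_comp, ← Set.range_comp]
      rfl
    rw [h1, ← Submodule.map_span] at hz
    obtain ⟨y, hy, hyz⟩ := hz
    have h2 : y = z := Subtype.ext hyz
    rw [← h2]
    exact hy
  · apply Subtype.ext
    exact cen_so2 z.2 (fun a => congrArg Subtype.val (h1 a)) (fun a => congrArg Subtype.val (h2 a))

theorem CN.iso [LieAlgebra.IsSimple ℝ L] (c : CN θ b A τ al be r p ν) :
    Nonempty (L ≃ₗ⁅ℝ⁆ so2 (Module.finrank ℝ (rsp A be) + 4)) := by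
  obtain ⟨w, hw, ho, hs⟩ := exists_onb c.h c.νpos (rsp A be)
  exact tk_iso (c.tk hw ho hs) (tk_so2 _)

end Pool.Agent.Helper77.ST
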